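import Pool.Agent.H957R2.SE.Defs

noncomputable section

open PowerSeries

namespace Pool.Agent.H957R2.SE

variable {B : Type*} [CommRing B]

theorem cf_of_neg (f : RR B) (m : ℤ) {j : ℤ} (hj : j < 0) : cf f m j = 0 := by
  unfold cf; rw [if_neg (by omega)]

theorem cf_nat (f : RR B) (m : ℤ) (j : ℕ) : cf f m j = (PowerSeries.coeff j f).coeff m := by
  unfold cf; rw [if_pos (by omega)]; simp

theorem cf_add (f g : RR B) (m j : ℤ) : cf (f + g) m j = cf f m j + cf g m j := by
  unfold cf
  split_ifs
  · rw [map_add]; rfl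
  · simp

theorem cf_zero (m j : ℤ) : cf (0 : RR B) m j = 0 := by
  unfold cf
  split_ifs
  · rw [map_zero]; rfl
  · rfl

theorem cf_neg (f : RR B) (m j : ℤ) : cf (-f) m j = - cf f m j := by
  have h := cf_add f (-f) m j
  rw [add_neg_cancel, cf_zero] at h
  linear_combination -h

theorem cf_sub (f g : RR B) (m j : ℤ) : cf (f - g) m j = cf f m j - cf g m j := by
  rw [sub_eq_add_neg, cf_add, cf_neg, sub_eq_add_neg]

theorem cf_sum {ι : Type*} (s : Finset ι) (f : ι → RR B) (m j : ℤ) :
    cf (∑ i ∈ s, f i) m j = ∑ i ∈ s, cf (f i) m j := by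
  classical
  induction s using Finset.induction_on with
  | empty => simp [cf_zero]
  | insert a s ha ih => rw [Finset.sum_insert ha, Finset.sum_insert ha, cf_add, ih]

theorem cf_ext {f g : RR B} (h : ∀ m j : ℤ, 0 ≤ j → cf f m j = cf g m j) : f = g := by
  ext j : 1
  apply LaurentPolynomial.ext
  intro m
  have := h m j (by omega)
  rwa [cf_nat, cf_nat] at this

theorem cf_finite (f : RR B) (j : ℤ) : (Function.support fun m => cf f m j).Finite := by
  by_cases hj : 0 ≤ j
  · obtain ⟨j, rfl⟩ := Int.eq_ofNat_of_zero_le hj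
    simp only [cf_nat]
    exact (PowerSeries.coeff j f).coeff.hasFiniteSupport
  · have : (Function.support fun m => cf f m j) = ∅ := by
      ext m
      simp [cf_of_neg f m (not_le.mp hj)]
    rw [this]
    exact Set.finite_empty

/-- the set of relevant index pairs for the coefficient of a product -/
theorem cf_mul_support (f g : RR B) (m j : ℤ) :
    (Function.support fun p : ℤ × ℤ => cf f p.1 p.2 * cf g (m - p.1) (j - p.2)).Finite := by
  have h1 : (⋃ i ∈ Finset.Icc (0 : ℤ) j, (fun a : ℤ => (a, i)) '' (Function.support fun a => cf f a i)).Finite := by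
    apply Set.Finite.biUnion (Finset.finite_toSet _)
    intro i _
    exact (cf_finite f i).image _
  refine h1.subset ?_
  rintro ⟨a, i⟩ h
  rw [Function.mem_support] at h
  have ha : cf f a i ≠ 0 := left_ne_zero_of_mul h
  have hb : cf g (m - a) (j - i) ≠ 0 := right_ne_zero_of_mul h
  have hi : 0 ≤ i := by
    by_contra hi
    exact ha (cf_of_neg f a (not_le.mp hi))
  have hj : i ≤ j := by
    by_contra hj
    exact hb (cf_of_neg g _ (by omega))
  simp only [Set.mem_iUnion]
  exact ⟨i, by simp; omega, a, ha, rfl⟩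

theorem cf_mul (f g : RR B) (m j : ℤ) :
    cf (f * g) m j = ∑ᶠ p : ℤ × ℤ, cf f p.1 p.2 * cf g (m - p.1) (j - p.2) := by
  classical
  by_cases hj : 0 ≤ j
  · obtain ⟨j, rfl⟩ := Int.eq_ofNat_of_zero_le hj
    have hlhs : cf (f * g) m (j : ℤ) = ∑ q ∈ Finset.HasAntidiagonal.antidiagonal j,
        ∑ a ∈ (PowerSeries.coeff q.1 f).coeff.support,
          cf f a q.1 * cf g (m - a) q.2 := by
      rw [cf_nat, PowerSeries.coeff_mul]
      rw [show ((∑ p ∈ Finset.HasAntidiagonal.antidiagonal j, (PowerSeries.coeff p.1 f) * (PowerSeries.coeff p.2 g)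
        : LP B).coeff m) = ∑ p ∈ Finset.HasAntidiagonal.antidiagonal j,
          ((PowerSeries.coeff p.1 f) * (PowerSeries.coeff p.2 g) : LP B).coeff m from ?_]
      · apply Finset.sum_congr rfl
        rintro ⟨i, i'⟩ _
        rw [AddMonoidAlgebra.coeff_mul_apply_left, Finsupp.sum]
        apply Finset.sum_congr rfl
        intro a _
        rw [cf_nat, cf_nat, show m - a = -a + m by ring]
      · rw [AddMonoidAlgebra.coeff_sum, Finsupp.finsetSum_apply]
    rw [hlhs]
    symm
    rw [Finset.sum_sigma' (Finset.HasAntidiagonal.antidiagonal j)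
      (fun q => (PowerSeries.coeff q.1 f).coeff.support)
      (fun q a => cf f a q.1 * cf g (m - a) q.2)]
    rw [finsum_eq_sum_of_support_subset (s := ((Finset.HasAntidiagonal.antidiagonal j).sigma
      (fun q => (PowerSeries.coeff q.1 f).coeff.support)).image
        (fun x : (Σ _ : ℕ × ℕ, ℤ) => (x.2, (x.1.1 : ℤ))))]
    · rw [Finset.sum_image]
      · apply Finset.sum_congr rfl
        rintro ⟨⟨i, i'⟩, a⟩ h
        simp only [Finset.mem_sigma, Finset.HasAntidiagonal.mem_antidiagonal] at h
        have h1 : i + i' = j := h.1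
        show cf f a i * cf g (m - a) (j - i) = cf f a i * cf g (m - a) i'
        rw [show (j : ℤ) - i = i' by omega]
      · rintro ⟨⟨i, i'⟩, a⟩ h ⟨⟨i₂, i₂'⟩, a₂⟩ h₂ he
        simp only [Finset.coe_sigma, Set.mem_sigma_iff, Finset.mem_coe,
          Finset.HasAntidiagonal.mem_antidiagonal] at h h₂
        simp only [Prod.mk.injEq, Nat.cast_inj] at he
        obtain ⟨rfl, rfl⟩ := he
        have : i' = i₂' := by
          have a1 : i + i' = j := h.1
          have a2 : i + i₂' = j := h₂.1
          omega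
        subst this
        rfl
    · rintro ⟨a, i⟩ h
      rw [Function.mem_support] at h
      have ha : cf f a i ≠ 0 := left_ne_zero_of_mul h
      have hb : cf g (m - a) (j - i) ≠ 0 := right_ne_zero_of_mul h
      have hi : 0 ≤ i := by
        by_contra hi
        exact ha (cf_of_neg f a (not_le.mp hi))
      have hj : i ≤ j := by
        by_contra hj
        exact hb (cf_of_neg g _ (by omega))
      obtain ⟨i, rfl⟩ := Int.eq_ofNat_of_zero_le hi
      rw [cf_nat] at ha
      simp only [Finset.coe_image, Set.mem_image, Finset.coe_sigma, Set.mem_sigma_iff,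
        Finset.mem_coe, Finset.HasAntidiagonal.mem_antidiagonal, Finsupp.mem_support_iff]
      refine ⟨⟨⟨i, j - i⟩, a⟩, ⟨?_, ha⟩, rfl⟩
      simp only
      omega
  · rw [cf_of_neg _ _ (not_le.mp hj)]
    symm
    apply finsum_eq_zero_of_forall_eq_zero
    rintro ⟨a, i⟩
    by_cases hi : 0 ≤ i
    · rw [cf_of_neg g (m - a) (show j - i < 0 by omega), mul_zero]
    · rw [cf_of_neg f a (not_le.mp hi), zero_mul]

theorem QP.add {d c : ℤ} {C₀ : B} {f g : RR B} (hf : QP d c C₀ f) (hg : QP d c C₀ g) :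
    QP d c C₀ (f + g) := by
  intro m j
  rw [cf_add, cf_add, hf, hg]; ring

theorem QP.zero {d c : ℤ} {C₀ : B} : QP d c C₀ (0 : RR B) := by
  intro m j
  rw [cf_zero, cf_zero, mul_zero]

theorem QP.neg {d c : ℤ} {C₀ : B} {f : RR B} (hf : QP d c C₀ f) :
    QP d c C₀ (-f) := by
  intro m j
  rw [cf_neg, cf_neg, hf]; ring

theorem QP.sub {d c : ℤ} {C₀ : B} {f g : RR B} (hf : QP d c C₀ f) (hg : QP d c C₀ g) :
    QP d c C₀ (f - g) := by
  rw [sub_eq_add_neg]; exact hf.add hg.neg

theorem QP.sum {ι : Type*} (s : Finset ι) {d c : ℤ} {C₀ : B} {f : ι → RR B}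
    (hf : ∀ i ∈ s, QP d c C₀ (f i)) : QP d c C₀ (∑ i ∈ s, f i) := by
  classical
  induction s using Finset.induction_on with
  | empty => simpa using QP.zero
  | insert a s ha ih =>
    rw [Finset.sum_insert ha]
    exact (hf a (Finset.mem_insert_self a s)).add (ih fun i hi => hf i (Finset.mem_insert_of_mem hi))

theorem QP.mul {d c d' c' : ℤ} {C₀ C₀' : B} {f g : RR B} (hf : QP d c C₀ f) (hg : QP d' c' C₀' g) :
    QP (d + d') (c + c') (C₀ * C₀') (f * g) := by
  intro m j
  rw [cf_mul, cf_mul, mul_finsum' _ _ (cf_mul_support f g (m + (d + d')) (j - (c + c')))]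
  let e : ℤ × ℤ ≃ ℤ × ℤ :=
    { toFun := fun p => (p.1 + d, p.2 + p.1 - c)
      invFun := fun p => (p.1 - d, p.2 - (p.1 - d) + c)
      left_inv := fun p => by ext <;> simp <;> ring
      right_inv := fun p => by ext <;> simp; ring }
  rw [← finsum_comp_equiv e (f := fun p : ℤ × ℤ => C₀ * C₀' * (cf f p.1 p.2 *
    cf g (m + (d + d') - p.1) (j - (c + c') - p.2)))]
  apply finsum_congr
  rintro ⟨a, i⟩
  show cf f a i * cf g (m - a) (j - m - i)
    = C₀ * C₀' * (cf f (a + d) (i + a - c) * cf g (m + (d + d') - (a + d)) (j - (c + c') - (i + a - c)))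
  have h1 := hf a (i + a)
  have h2 := hg (m - a) (j - i - a)
  rw [show i + a - a = i by ring] at h1
  rw [show j - i - a - (m - a) = j - m - i by ring] at h2
  rw [h1, h2, show m + (d + d') - (a + d) = m - a + d' by ring,
    show j - (c + c') - (i + a - c) = j - i - a - c' by ring]
  ring

theorem cf_KK (a : PowerSeries B) (m j : ℤ) :
    cf (KK a) m j = if m = 0 ∧ 0 ≤ j then PowerSeries.coeff j.toNat a else 0 := by
  unfold cf KK
  rw [PowerSeries.coeff_map, LaurentPolynomial.C_apply]
  by_cases h1 : 0 ≤ j <;> by_cases h2 : m = 0 <;> simp [h1, h2]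

theorem QP.KK (a : PowerSeries B) : QP 0 0 1 (KK a) := by
  intro m j
  rw [cf_KK, cf_KK, one_mul, add_zero, sub_zero]
  by_cases h2 : m = 0
  · subst h2; simp
  · simp [h2]

theorem QP.one : QP 0 0 1 (1 : RR B) := by
  have := QP.KK (1 : PowerSeries B)
  rwa [map_one] at this

theorem QP.pow {d c : ℤ} {C₀ : B} {f : RR B} (hf : QP d c C₀ f) (n : ℕ) :
    QP (n * d) (n * c) (C₀ ^ n) (f ^ n) := by
  induction n with
  | zero => simpa using QP.one
  | succ n ih =>
    rw [pow_succ, pow_succ]
    have := ih.mul hf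
    convert this using 1 <;> push_cast <;> ring

theorem QP.KK_mul {d c : ℤ} {C₀ : B} {f : RR B} (hf : QP d c C₀ f) (a : PowerSeries B) :
    QP d c C₀ (SE.KK a * f) := by
  have := (QP.KK a).mul hf
  simpa using this

theorem QP.prod {ι : Type*} (s : Finset ι) {d c : ι → ℤ} {C₀ : ι → B} {f : ι → RR B}
    (hf : ∀ i ∈ s, QP (d i) (c i) (C₀ i) (f i)) :
    QP (∑ i ∈ s, d i) (∑ i ∈ s, c i) (∏ i ∈ s, C₀ i) (∏ i ∈ s, f i) := by
  classical
  induction s using Finset.induction_on with
  | empty => simpa using QP.one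
  | insert a s ha ih =>
    rw [Finset.sum_insert ha, Finset.sum_insert ha, Finset.prod_insert ha, Finset.prod_insert ha]
    exact (hf a (Finset.mem_insert_self a s)).mul (ih fun i hi => hf i (Finset.mem_insert_of_mem hi))

end Pool.Agent.H957R2.SE
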