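import Pool.Agent.H957R2.SE.Theta

noncomputable section

open PowerSeries

namespace Pool.Agent.H957R2.SE

variable {B : Type*} [CommRing B]

/-- element of `RR B` from its coefficients -/
def mkR (F : ℤ → ℤ → B) (hF : ∀ j : ℕ, (Function.support fun m => F m j).Finite) : RR B :=
  PowerSeries.mk fun j => AddMonoidAlgebra.ofCoeff (Finsupp.ofSupportFinite (fun m => F m j) (hF j))

theorem cf_mkR (F : ℤ → ℤ → B) (hF : ∀ j : ℕ, (Function.support fun m => F m j).Finite)
    (h0 : ∀ m j : ℤ, j < 0 → F m j = 0) (m j : ℤ) : cf (mkR F hF) m j = F m j := by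
  by_cases hj : 0 ≤ j
  · obtain ⟨j, rfl⟩ := Int.eq_ofNat_of_zero_le hj
    rw [cf_nat]
    unfold mkR
    rw [PowerSeries.coeff_mk]
    rfl
  · rw [cf_of_neg _ _ (not_le.mp hj), h0 _ _ (not_le.mp hj)]

theorem cf_X_mul (f : RR B) (m j : ℤ) : cf (PowerSeries.X * f) m j = cf f m (j - 1) := by
  by_cases hj : 0 ≤ j
  · obtain ⟨j, rfl⟩ := Int.eq_ofNat_of_zero_le hj
    rw [cf_nat]
    cases j with
    | zero =>
      rw [cf_of_neg _ _ (by norm_num)]
      rw [PowerSeries.coeff_zero_X_mul]; rfl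
    | succ j =>
      rw [PowerSeries.coeff_succ_X_mul]
      have : (((j + 1 : ℕ) : ℤ) - 1) = (j : ℤ) := by push_cast; ring
      rw [this, cf_nat]
  · rw [cf_of_neg _ _ (not_le.mp hj), cf_of_neg _ _ (by omega)]

theorem QP.of_X_mul {d c : ℤ} {C₀ : B} {f : RR B} (h : QP d c C₀ (PowerSeries.X * f)) :
    QP d c C₀ f := by
  intro m j
  have := h m (j + 1)
  rw [cf_X_mul, cf_X_mul] at this
  convert this using 2
  · ring
  · congr 1; ring

theorem QP.of_X_pow_mul {d c : ℤ} {C₀ : B} {f : RR B} (n : ℕ)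
    (h : QP d c C₀ (PowerSeries.X ^ n * f)) : QP d c C₀ f := by
  induction n with
  | zero => simpa using h
  | succ n ih =>
    apply ih
    apply QP.of_X_mul
    rwa [← mul_assoc, ← pow_succ']

theorem cf_of_X_pow_dvd {h : RR B} {J : ℕ} (hd : PowerSeries.X ^ J ∣ h) (m : ℤ) {j : ℤ}
    (hj : j < J) : cf h m j = 0 := by
  by_cases h0 : 0 ≤ j
  · obtain ⟨j, rfl⟩ := Int.eq_ofNat_of_zero_le h0
    rw [cf_nat, PowerSeries.X_pow_dvd_iff.mp hd j (by exact_mod_cast hj)]
    rfl
  · exact cf_of_neg _ _ (not_le.mp h0)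

theorem cf_zero_eq (f : RR B) (m : ℤ) : cf f m 0 = (PowerSeries.constantCoeff f).coeff m := by
  have := cf_nat f m 0
  rw [Nat.cast_zero] at this
  rw [this, PowerSeries.coeff_zero_eq_constantCoeff_apply]

/-! ### the constant part of a quasi-periodic function -/

theorem QP.low {d c : ℤ} {C₀ : B} {f : RR B} (h : QP d c C₀ f) {m : ℤ} (hm : m < c) :
    cf f m 0 = 0 := by
  have := h m m
  rw [sub_self] at this
  rw [this, cf_of_neg _ _ (by omega), mul_zero]

theorem QP.high {d c : ℤ} {C₀ : Bˣ} {f : RR B} (h : QP d c (C₀ : B) f) {m : ℤ} (hm : c + d < m) :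
    cf f m 0 = 0 := by
  have := h (m - d) c
  rw [sub_self, cf_of_neg _ _ (by omega), sub_add_cancel] at this
  have h2 : (C₀ : B) * cf f m 0 = (C₀ : B) * 0 := by rw [← this, mul_zero]
  exact (Units.mul_right_inj C₀).mp h2

theorem QP.mid {d c : ℤ} {C₀ : B} {f : RR B} (h : QP d c C₀ f) :
    cf f c 0 = C₀ * cf f (c + d) 0 := by
  have := h c c
  rwa [sub_self] at this

/-! ### lifting -/

theorem lift_exp_nonneg (d r I : ℤ) (hd : 1 ≤ d) (hr : 1 ≤ r) (hr' : r ≤ d) :
    0 ≤ 2 * I * r + d * I * (I - 1) := by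
  rcases le_or_gt 1 I with h | h
  · have h1 : 0 ≤ I * r := by positivity
    have h2 : 0 ≤ d * I * (I - 1) := by
      apply mul_nonneg
      · positivity
      · linarith
    nlinarith
  · have h1 : I * d ≤ I * r := by nlinarith
    have h2 : 0 ≤ I * (I + 1) := by
      rcases lt_or_eq_of_le (show I ≤ 0 by omega) with h3 | h3
      · nlinarith
      · rw [h3]; norm_num
    nlinarith

theorem lift_exp_bound (d r I j : ℤ) (hd : 1 ≤ d) (hr : 1 ≤ r) (hr' : r ≤ d)
    (h : 2 * j = 2 * I * r + d * I * (I - 1)) : -(2 * j + 1) ≤ I ∧ I ≤ 2 * j + 1 := by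
  have hj : 0 ≤ j := by
    have := lift_exp_nonneg d r I hd hr hr'
    omega
  rcases le_or_gt 1 I with h1 | h1
  · refine ⟨by omega, ?_⟩
    have h2 : I ≤ I * r := by nlinarith
    have h3 : 0 ≤ d * I * (I - 1) := by
      apply mul_nonneg
      · positivity
      · linarith
    nlinarith
  · refine ⟨?_, by omega⟩
    have h2 : I * d ≤ I * r := by nlinarith
    have h3 : d * (I * (I + 1)) ≤ 2 * j := by nlinarith
    have h4 : 0 ≤ I * (I + 1) := by
      rcases lt_or_eq_of_le (show I ≤ 0 by omega) with h3 | h3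
      · nlinarith
      · rw [h3]; norm_num
    have h5 : I * (I + 1) ≤ 2 * j := by nlinarith
    by_contra hc
    push Not at hc
    nlinarith

theorem exists_lift (d c : ℤ) (hd : 1 ≤ d) (C₀ : Bˣ) (b : ℤ → B)
    (hlow : ∀ m, m < c → b m = 0) (hhigh : ∀ m, c + d < m → b m = 0)
    (hmid : b c = C₀ * b (c + d)) :
    ∃ g : RR B, QP d c (C₀ : B) g ∧ ∀ m, cf g m 0 = b m := by
  let I : ℤ → ℤ := fun m => (m - c - 1) / d
  let r : ℤ → ℤ := fun m => (m - c - 1) % d + 1
  have hm : ∀ m, m = c + r m + d * I m := by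
    intro m
    have := Int.emod_add_mul_ediv (m - c - 1) d
    simp only [I, r]
    linarith
  have hr1 : ∀ m, 1 ≤ r m := by
    intro m
    have := Int.emod_nonneg (m - c - 1) (show d ≠ 0 by omega)
    simp only [r]; omega
  have hr2 : ∀ m, r m ≤ d := by
    intro m
    have := Int.emod_lt_of_pos (m - c - 1) (show 0 < d by omega)
    simp only [r]; omega
  have hI : ∀ m, I (m + d) = I m + 1 := by
    intro m
    simp only [I]
    rw [show m + d - c - 1 = (m - c - 1) + 1 * d by ring,
      Int.add_mul_ediv_right _ _ (show d ≠ 0 by omega)]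
  have hr : ∀ m, r (m + d) = r m := by
    intro m
    simp only [r]
    rw [show m + d - c - 1 = (m - c - 1) + d * 1 by ring, Int.add_mul_emod_self_left]
  let F : ℤ → ℤ → B := fun m j =>
    if 2 * j = 2 * I m * r m + d * I m * (I m - 1) then
      (((C₀ ^ (-(I m)) : Bˣ)) : B) * b (c + r m) else 0
  have hF0 : ∀ m j : ℤ, j < 0 → F m j = 0 := by
    intro m j hj
    simp only [F]
    rw [if_neg]
    have := lift_exp_nonneg d (r m) (I m) hd (hr1 m) (hr2 m)
    omega
  have hFf : ∀ j : ℕ, (Function.support fun m => F m j).Finite := by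
    intro j
    refine (Set.finite_Icc (c + 1 - d * (2 * j + 1)) (c + d + d * (2 * j + 1))).subset ?_
    intro m hmm
    rw [Function.mem_support] at hmm
    have h1 : 2 * (j : ℤ) = 2 * I m * r m + d * I m * (I m - 1) := by
      by_contra h
      exact hmm (if_neg h)
    obtain ⟨h2, h3⟩ := lift_exp_bound d (r m) (I m) j hd (hr1 m) (hr2 m) h1
    rw [Set.mem_Icc]
    have h4 := hm m
    have h5 := hr1 m
    have h6 := hr2 m
    constructor
    · nlinarith
    · nlinarith
  refine ⟨mkR F hFf, ?_, ?_⟩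
  · intro m j
    rw [cf_mkR F hFf hF0, cf_mkR F hFf hF0]
    simp only [F]
    rw [hI, hr]
    have hc : 2 * (j - m) = 2 * I m * r m + d * I m * (I m - 1) ↔
        2 * (j - c) = 2 * (I m + 1) * r m + d * (I m + 1) * (I m + 1 - 1) := by
      have h4 := hm m
      constructor
      · intro h
        linear_combination h + 2 * h4
      · intro h
        linear_combination h - 2 * h4
    by_cases h : 2 * (j - m) = 2 * I m * r m + d * I m * (I m - 1)
    · rw [if_pos h, if_pos (hc.mp h), ← mul_assoc, ← Units.val_mul]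
      congr 2
      rw [neg_add, zpow_add, zpow_neg_one]
      rw [mul_comm (C₀ ^ (-I m)), ← mul_assoc, mul_inv_cancel, one_mul]
    · rw [if_neg h, if_neg (fun h' => h (hc.mpr h')), mul_zero]
  · intro m
    rw [cf_mkR F hFf hF0]
    simp only [F]
    have h4 := hm m
    have h5 := hr1 m
    have h6 := hr2 m
    rcases lt_trichotomy (I m) 0 with h | h | h
    · rcases lt_or_eq_of_le (show I m ≤ -1 by omega) with h' | h'
      · rw [if_neg, hlow m (by nlinarith)]
        intro h0
        have h7 : I m * d ≤ I m * r m := by nlinarith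
        have h8 : 2 ≤ I m * (I m + 1) := by nlinarith
        nlinarith
      · rw [h']
        by_cases hrd : r m = d
        · rw [if_pos (by rw [hrd]; ring), hrd]
          have : m = c := by rw [h', hrd] at h4; linarith
          rw [this, hmid]
          simp
        · rw [if_neg, hlow m]
          · have : r m < d := lt_of_le_of_ne h6 hrd
            rw [h'] at h4; linarith
          · intro h0
            apply hrd
            linarith
    · rw [h, if_pos (by ring)]
      have : m = c + r m := by rw [h] at h4; linarith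
      rw [← this]; simp
    · rw [if_neg, hhigh m (by nlinarith)]
      intro h0
      have h7 : I m ≤ I m * r m := by nlinarith
      have h8 : 0 ≤ d * I m * (I m - 1) := by
        apply mul_nonneg
        · positivity
        · linarith
      nlinarith

/-! ### supports from recursions -/

theorem eq_zero_of_rec_down (g : ℤ → B) (hg : (Function.support g).Finite) (y : B) (c : ℤ)
    (h : ∀ m, m < c → g m = y * g (m - 1)) : ∀ m, m < c → g m = 0 := by
  intro m hm
  have h1 : ∀ i : ℕ, g m = y ^ i * g (m - i) := by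
    intro i
    induction i with
    | zero => simp
    | succ i ih =>
      rw [ih, h (m - i) (by omega), pow_succ]
      push_cast
      rw [show m - (i : ℤ) - 1 = m - (i + 1) by ring]
      ring
  have h2 : ∃ i : ℕ, g (m - i) = 0 := by
    by_contra hc
    push Not at hc
    have : Set.Infinite (Function.support g) := by
      apply Set.infinite_of_injective_forall_mem (f := fun i : ℕ => m - (i : ℤ))
      · intro a b hab
        simpa using hab
      · exact hc
    exact this hg
  obtain ⟨i, hi⟩ := h2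
  rw [h1 i, hi, mul_zero]

theorem eq_zero_of_rec_up (g : ℤ → B) (hg : (Function.support g).Finite) (y : B) (c : ℤ)
    (h : ∀ m, c ≤ m → g m = y * g (m + 1)) : ∀ m, c ≤ m → g m = 0 := by
  intro m hm
  have h1 : ∀ i : ℕ, g m = y ^ i * g (m + i) := by
    intro i
    induction i with
    | zero => simp
    | succ i ih =>
      rw [ih, h (m + i) (by omega), pow_succ]
      push_cast
      rw [show m + (i : ℤ) + 1 = m + (i + 1) by ring]
      ring
  have h2 : ∃ i : ℕ, g (m + i) = 0 := by
    by_contra hc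
    push Not at hc
    have : Set.Infinite (Function.support g) := by
      apply Set.infinite_of_injective_forall_mem (f := fun i : ℕ => m + (i : ℤ))
      · intro a b hab
        simpa using hab
      · exact hc
    exact this hg
  obtain ⟨i, hi⟩ := h2
  rw [h1 i, hi, mul_zero]

theorem coeff_theta_const_mul (x : Bˣ) (g : LP B) (m : ℤ) :
    ((1 - LaurentPolynomial.T 1 * LaurentPolynomial.C ((x⁻¹ : Bˣ) : B)) * g).coeff m
      = g.coeff m - ((x⁻¹ : Bˣ) : B) * g.coeff (m - 1) := by
  rw [sub_mul, one_mul, AddMonoidAlgebra.coeff_sub, Finsupp.sub_apply]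
  congr 1
  rw [mul_comm (LaurentPolynomial.T 1), ← LaurentPolynomial.single_eq_C_mul_T,
    AddMonoidAlgebra.coeff_single_mul_apply]
  congr 2
  ring

/-! ### the division lemma -/

theorem DL_step [IsDomain B] (x : Bˣ) (d c : ℤ) (hd : 2 ≤ d) (C₀ : Bˣ) (f : RR B)
    (hf : QP d c (C₀ : B) f) (h0 : EV x f = 0) :
    ∃ g0 f1 : RR B, QP (d - 1) c ((C₀ * (-x)⁻¹ : Bˣ) : B) g0 ∧
      f = theta x * g0 + PowerSeries.X * f1 ∧ QP d c (C₀ : B) f1 ∧ EV x f1 = 0 := by
  obtain ⟨f', hf'⟩ := (EV_eq_zero_iff x f).mp h0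
  set gb : LP B := - LaurentPolynomial.C (x : B) * PowerSeries.constantCoeff f' with hgb
  have hfb : PowerSeries.constantCoeff f =
      (1 - LaurentPolynomial.T 1 * LaurentPolynomial.C ((x⁻¹ : Bˣ) : B)) * gb := by
    rw [hf', map_mul, hgb]
    unfold lin
    rw [PowerSeries.constantCoeff_C, uT_val]
    have h3 : (LaurentPolynomial.C (x : B) : LP B) * LaurentPolynomial.C ((x⁻¹ : Bˣ) : B) = 1 := by
      rw [← map_mul, Units.mul_inv, map_one]
    linear_combination (-LaurentPolynomial.T 1 * PowerSeries.constantCoeff f') * h3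
  have hrec : ∀ m, cf f m 0 = gb.coeff m - ((x⁻¹ : Bˣ) : B) * gb.coeff (m - 1) := by
    intro m
    rw [cf_zero_eq, hfb, coeff_theta_const_mul]
  have hfin : (Function.support fun m => gb.coeff m).Finite := gb.coeff.hasFiniteSupport
  have hlow : ∀ m, m < c → gb.coeff m = 0 := by
    apply eq_zero_of_rec_down (fun m => gb.coeff m) hfin ((x⁻¹ : Bˣ) : B) c
    intro m hm
    have h1 := hrec m
    rw [hf.low hm] at h1
    show gb.coeff m = _ * gb.coeff (m - 1)
    linear_combination -h1
  have hhigh' : ∀ m, c + d ≤ m → gb.coeff m = 0 := by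
    apply eq_zero_of_rec_up (fun m => gb.coeff m) hfin (x : B) (c + d)
    intro m hm
    have h1 := hrec (m + 1)
    rw [hf.high (by omega), add_sub_cancel_right] at h1
    have h2 : (x : B) * ((x⁻¹ : Bˣ) : B) = 1 := Units.mul_inv x
    show gb.coeff m = _ * gb.coeff (m + 1)
    linear_combination (x : B) * h1 - gb.coeff m * h2
  have hc1 : gb.coeff c = cf f c 0 := by
    rw [hrec c, hlow (c - 1) (by omega)]; ring
  have hc2 : cf f (c + d) 0 = -((x⁻¹ : Bˣ) : B) * gb.coeff (c + (d - 1)) := by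
    rw [hrec (c + d), hhigh' (c + d) le_rfl, show c + d - 1 = c + (d - 1) by ring]; ring
  have hneg : (((-x)⁻¹ : Bˣ) : B) = -((x⁻¹ : Bˣ) : B) := by
    rw [inv_neg]; simp
  obtain ⟨g0, hg0, hg0'⟩ := exists_lift (d - 1) c (by omega) (C₀ * (-x)⁻¹) (fun m => gb.coeff m)
    hlow (fun m hm => hhigh' m (by omega)) (by
      show gb.coeff c = _ * gb.coeff (c + (d - 1))
      rw [hc1, hf.mid, hc2, Units.val_mul, hneg]; ring)
  have hg0c : PowerSeries.constantCoeff g0 = gb := by
    apply LaurentPolynomial.ext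
    intro m
    rw [← cf_zero_eq, hg0']
  have hX : PowerSeries.X ∣ f - theta x * g0 := by
    rw [PowerSeries.X_dvd_iff, map_sub, map_mul, constantCoeff_theta, hg0c, hfb, sub_self]
  obtain ⟨f1, hf1⟩ := hX
  refine ⟨g0, f1, hg0, by rw [← hf1]; ring, ?_, ?_⟩
  · apply QP.of_X_mul
    rw [← hf1]
    apply hf.sub
    have := (theta_QP x).mul hg0
    convert this using 1
    · ring
    · ring
    · have : (-(x : B)) = ((-x : Bˣ) : B) := by simp
      rw [this, ← Units.val_mul]
      congr 1
      rw [mul_comm C₀, ← mul_assoc, mul_inv_cancel, one_mul]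
  · have h1 := congrArg (EV x) hf1
    rw [map_sub, map_mul, map_mul, h0, EV_theta, mul_inv_cancel, Th_one] at h1
    have h2 : EV x (PowerSeries.X : RR B) = PowerSeries.X := by
      unfold EV; rw [PowerSeries.map_X]
    rw [h2, zero_mul, sub_zero] at h1
    exact (mul_eq_zero.mp h1.symm).resolve_left PowerSeries.X_ne_zero

theorem DL_approx [IsDomain B] (x : Bˣ) (d c : ℤ) (hd : 2 ≤ d) (C₀ : Bˣ) (J : ℕ) : ∀ (f : RR B)
    (_ : QP d c (C₀ : B) f) (_ : EV x f = 0),
    ∃ g0 f1 : RR B, QP (d - 1) c ((C₀ * (-x)⁻¹ : Bˣ) : B) g0 ∧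
      f = theta x * g0 + PowerSeries.X ^ J * f1 := by
  induction J with
  | zero =>
    intro f hf h0
    exact ⟨0, f, QP.zero, by simp⟩
  | succ J ih =>
    intro f hf h0
    obtain ⟨g0, f1, hg0, hf1, hq, he⟩ := DL_step x d c hd C₀ f hf h0
    obtain ⟨g1, f2, hg1, hf2⟩ := ih f1 hq he
    refine ⟨g0 + PowerSeries.X * g1, f2, hg0.add ?_, ?_⟩
    · intro m j
      rw [cf_X_mul, cf_X_mul]
      have := hg1 m (j - 1)
      rw [show j - 1 - m = j - m - 1 by ring, show j - 1 - c = j - c - 1 by ring] at this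
      exact this
    · rw [hf1, hf2, pow_succ]; ring

theorem theta_not_X_dvd [IsDomain B] (x : Bˣ) : ¬ (PowerSeries.X : RR B) ∣ theta x := by
  rw [PowerSeries.X_dvd_iff, constantCoeff_theta]
  intro h
  have h2 := congrArg (fun p : LP B => p.coeff 0) h
  have h3 := coeff_theta_const_mul x (1 : LP B) 0
  rw [mul_one] at h3
  simp only [h3] at h2
  have h4 : (1 : LP B).coeff 0 = 1 := by
    rw [← LaurentPolynomial.T_zero, LaurentPolynomial.T_apply]; simp
  have h5 : (1 : LP B).coeff (0 - 1) = 0 := by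
    rw [← LaurentPolynomial.T_zero, LaurentPolynomial.T_apply]; simp
  rw [h4, h5, mul_zero, sub_zero] at h2
  exact one_ne_zero h2

theorem DL [IsDomain B] (x : Bˣ) (d c : ℤ) (hd : 2 ≤ d) (C₀ : Bˣ) (f : RR B)
    (hf : QP d c (C₀ : B) f) (h0 : lin x ∣ f) :
    ∃ g, f = theta x * g ∧ QP (d - 1) c ((C₀ * (-x)⁻¹ : Bˣ) : B) g := by
  obtain ⟨u, hu⟩ := theta_lin x
  have h0' := h0
  obtain ⟨f', hf'⟩ := h0
  refine ⟨((u⁻¹ : (RR B)ˣ) : RR B) * f', ?_, ?_⟩
  · rw [hu, hf']
    have := Units.mul_inv u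
    linear_combination (-lin x * f') * this
  · set g : RR B := ((u⁻¹ : (RR B)ˣ) : RR B) * f' with hg
    have hfg : f = theta x * g := by
      rw [hu, hf', hg]
      have := Units.mul_inv u
      linear_combination (-lin x * f') * this
    intro m j
    set J : ℕ := (|j - m| + |j - c| + 1).toNat with hJ
    have hJ' : (J : ℤ) = |j - m| + |j - c| + 1 := by
      rw [hJ, Int.toNat_of_nonneg (by positivity)]
    obtain ⟨g0, f1, hg0, hf1⟩ := DL_approx x d c hd C₀ J f hf ((EV_eq_zero_iff x f).mpr h0')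
    have h1 : PowerSeries.X ^ J ∣ theta x * (g - g0) := by
      refine ⟨f1, ?_⟩
      rw [mul_sub, ← hfg]
      linear_combination hf1
    have h2 : PowerSeries.X ^ J ∣ g - g0 :=
      Prime.pow_dvd_of_dvd_mul_left PowerSeries.X_prime J (theta_not_X_dvd x) h1
    have h3 : ∀ a i : ℤ, i < J → cf g a i = cf g0 a i := by
      intro a i hi
      have := cf_of_X_pow_dvd h2 a hi
      rw [cf_sub] at this
      linear_combination this
    have h4 : j - m < J := by
      rw [hJ']
      have := le_abs_self (j - m)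
      have := abs_nonneg (j - c)
      linarith
    have h5 : j - c < J := by
      rw [hJ']
      have := le_abs_self (j - c)
      have := abs_nonneg (j - m)
      linarith
    rw [h3 m _ h4, h3 _ _ h5]
    exact hg0 m j

theorem DLpow [IsDomain B] (x : Bˣ) (c : ℤ) (n : ℕ) : ∀ (d : ℤ) (_ : (n : ℤ) + 1 ≤ d) (C₀ : Bˣ)
    (f : RR B) (_ : QP d c (C₀ : B) f) (_ : lin x ^ n ∣ f),
    ∃ g, f = theta x ^ n * g ∧ QP (d - n) c ((C₀ * ((-x)⁻¹) ^ n : Bˣ) : B) g := by
  induction n with
  | zero =>
    intro d _ C₀ f hf _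
    exact ⟨f, by simp, by simpa using hf⟩
  | succ n ih =>
    intro d hd C₀ f hf h0
    obtain ⟨g, hg, hq⟩ := DL x d c (by push_cast at hd; omega) C₀ f hf
      (dvd_trans (dvd_pow_self _ (Nat.succ_ne_zero n)) h0)
    obtain ⟨u, hu⟩ := theta_lin x
    have h1 : lin x ^ n ∣ g := by
      rw [hg, hu, pow_succ', mul_assoc] at h0
      have h2 := (mul_dvd_mul_iff_left (lin_ne_zero x)).mp h0
      exact (Units.dvd_mul_left).mp h2
    obtain ⟨g', hg', hq'⟩ := ih (d - 1) (by push_cast at hd; omega) _ g hq h1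
    refine ⟨g', ?_, ?_⟩
    · rw [hg, hg', pow_succ']; ring
    · convert hq' using 1
      · push_cast; ring
      · rw [pow_succ', mul_assoc]

theorem lin_not_dvd_theta [IsDomain B] {x y : Bˣ} (h : x ≠ y) : ¬ lin x ∣ theta y := by
  rw [← EV_eq_zero_iff, EV_theta]
  intro h0
  have h1 := congrArg (PowerSeries.constantCoeff) h0
  rw [constantCoeff_Th, map_zero, sub_eq_zero] at h1
  apply h
  have h2 : x * y⁻¹ = 1 := by
    ext; exact h1.symm
  exact mul_inv_eq_one.mp h2

theorem DLs [IsDomain B] {ι : Type*} (s : Finset ι) (x : ι → Bˣ) (hx : Set.InjOn x s)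
    (μ : ι → ℕ) (d c : ℤ) (C₀ : Bˣ) (hd : ((∑ i ∈ s, μ i : ℕ) : ℤ) + 1 ≤ d) (f : RR B)
    (hf : QP d c (C₀ : B) f) (h : ∀ i ∈ s, lin (x i) ^ μ i ∣ f) :
    ∃ g, f = (∏ i ∈ s, theta (x i) ^ μ i) * g ∧
      QP (d - (∑ i ∈ s, μ i : ℕ)) c ((C₀ * ∏ i ∈ s, ((-(x i))⁻¹) ^ μ i : Bˣ) : B) g := by
  classical
  induction s using Finset.induction_on with
  | empty => exact ⟨f, by simp, by simpa using hf⟩
  | insert a s ha ih =>
    rw [Finset.sum_insert ha] at hd
    obtain ⟨g, hg, hq⟩ := ih (hx.mono (by simp)) (by push_cast at hd ⊢; omega)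
      (fun i hi => h i (Finset.mem_insert_of_mem hi))
    have h1 : lin (x a) ^ μ a ∣ g := by
      have h2 := h a (Finset.mem_insert_self a s)
      rw [hg] at h2
      refine Prime.pow_dvd_of_dvd_mul_left (lin_prime (x a)) _ ?_ h2
      intro h3
      obtain ⟨i, hi, h4⟩ := (Prime.dvd_finsetProd_iff (lin_prime (x a)) _).mp h3
      have h5 := (lin_prime (x a)).dvd_of_dvd_pow h4
      refine lin_not_dvd_theta ?_ h5
      intro h6
      have := hx (Finset.mem_coe.mpr (Finset.mem_insert_self a s))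
        (Finset.mem_coe.mpr (Finset.mem_insert_of_mem hi)) h6
      exact ha (this ▸ hi)
    obtain ⟨g', hg', hq'⟩ := DLpow (x a) c (μ a) _ (by push_cast at hd ⊢; omega) _ g hq h1
    refine ⟨g', ?_, ?_⟩
    · rw [hg, hg', Finset.prod_insert ha]; ring
    · rw [Finset.sum_insert ha, Finset.prod_insert ha]
      convert hq' using 1
      · push_cast; ring
      · congr 1
        rw [mul_assoc, mul_comm (∏ i ∈ s, _)]

end Pool.Agent.H957R2.SE
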