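import Mathlib

/-!
# Formal theta functions and the objects used for MP_3285df_ag

`q` is the variable `PowerSeries.X` of `PowerSeries (LaurentPolynomial B)`; the variable of the
Laurent polynomials is `T` (the multiplicative coordinate of the Tate curve).
-/

noncomputable section

open PowerSeries

namespace Pool.Agent.H957R2.SE

/-- Laurent polynomials. -/
abbrev LP (B : Type*) [CommRing B] := LaurentPolynomial B

/-- Power series in `q` over Laurent polynomials. -/
abbrev RR (B : Type*) [CommRing B] := PowerSeries (LaurentPolynomial B)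

section One

variable {B : Type*} [CommRing B]

/-- The coefficient of `T^m q^j` (zero for `j < 0`). -/
def cf (f : RR B) (m j : ℤ) : B :=
  if 0 ≤ j then (PowerSeries.coeff j.toNat f).coeff m else 0

/-- Quasi-periodicity `f(qT) = C₀ q^c T^{-d} f(T)`. -/
def QP (d c : ℤ) (C₀ : B) (f : RR B) : Prop :=
  ∀ m j : ℤ, cf f m (j - m) = C₀ * cf f (m + d) (j - c)

/-- Constants (functions not depending on `T`). -/
def KK : PowerSeries B →+* RR B := PowerSeries.map LaurentPolynomial.C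

/-- The unit `T`. -/
def uT : (LP B)ˣ :=
  ⟨LaurentPolynomial.T 1, LaurentPolynomial.T (-1),
    by rw [← LaurentPolynomial.T_add]; simp, by rw [← LaurentPolynomial.T_add]; simp⟩

/-- A constant unit. -/
def uC (x : Bˣ) : (LP B)ˣ := Units.map (LaurentPolynomial.C : B →+* LP B).toMonoidHom x

/-- The formal theta function `∑ (-1)^m q^{m(m-1)/2} u^m` at a unit `u` of a ring. -/
def Th {S : Type*} [CommRing S] (u : Sˣ) : PowerSeries S :=
  PowerSeries.mk fun j => ∑ᶠ m : ℤ, if m * (m - 1) = 2 * (j : ℤ) then (((-u) ^ m : Sˣ) : S) else 0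

/-- `θ(T/x)`. -/
def theta (x : Bˣ) : RR B := Th (uT * (uC x)⁻¹)

/-- The linear factor `T - x`. -/
def lin (x : Bˣ) : RR B :=
  PowerSeries.C (((uT : (LP B)ˣ) : LP B) - LaurentPolynomial.C (x : B))

/-- Evaluation at `T = x`. -/
def EV (x : Bˣ) : RR B →+* PowerSeries B :=
  PowerSeries.map (LaurentPolynomial.eval₂ (RingHom.id B) x)

/-- Substitution `T ↦ u` with coefficients mapped by `i`. -/
def zs {S : Type*} [CommRing S] (i : B →+* S) (u : Sˣ) : RR B →+* PowerSeries S :=
  PowerSeries.map (LaurentPolynomial.eval₂ i u)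

end One

section Two

/-- Laurent polynomials in two variables: outer variable `U`, inner variable `V`. -/
abbrev LP2 (k : Type*) [CommRing k] := LaurentPolynomial (LaurentPolynomial k)

/-- Power series in `q` over Laurent polynomials in `U`, `V`. -/
abbrev RR2 (k : Type*) [CommRing k] := PowerSeries (LaurentPolynomial (LaurentPolynomial k))

variable {k : Type*} [CommRing k]

/-- The coefficient of `U^m V^l q^j`. -/
def c2 (f : RR2 k) (m l j : ℤ) : k := (cf f m j).coeff l

/-- Quasi-periodicity for `(U,V) ↦ (q^e U, q V)`, `f(q^e U, q V) = C₀ q^c U^{-δ₁} V^{-δ₂} f(U,V)`. -/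
def QP2 (e δ₁ δ₂ c : ℤ) (C₀ : k) (f : RR2 k) : Prop :=
  ∀ m l j : ℤ, c2 f m l (j - (e * m + l)) = C₀ * c2 f (m + δ₁) (l + δ₂) (j - c)

/-- The unit `U`. -/
def uU : (LP2 k)ˣ := uT

/-- The unit `V`. -/
def uV : (LP2 k)ˣ := uC uT

/-- Coefficients. -/
def i2 : k →+* LP2 k := (LaurentPolynomial.C : LP k →+* LP2 k).comp LaurentPolynomial.C

/-- `f(U)`. -/
def zU : RR k →+* RR2 k := zs i2 uU

/-- `f(V)`. -/
def zV : RR k →+* RR2 k := zs i2 uV

/-- `f(UV)`. -/
def zUV : RR k →+* RR2 k := zs i2 (uU * uV)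

/-- The swap `U ↔ V`. -/
def swp : LP2 k →+* LP2 k := LaurentPolynomial.eval₂ (LaurentPolynomial.eval₂ i2 uU) uV

/-- The swap `U ↔ V` on power series. -/
def Sw : RR2 k →+* RR2 k := PowerSeries.map swp

/-- The unit `v + ε` of `k[δ][[ε]]`. -/
def vE (v : kˣ) : (PowerSeries (Polynomial k))ˣ :=
  (PowerSeries.isUnit_iff_constantCoeff.mpr (by
    rw [map_add, PowerSeries.constantCoeff_X, add_zero, PowerSeries.constantCoeff_C]
    exact v.isUnit.map (Polynomial.C : k →+* Polynomial k)) :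
      IsUnit (PowerSeries.C (Polynomial.C (v : k)) + PowerSeries.X)).unit

/-- The unit `1 + ε δ` of `k[δ][[ε]]`. -/
def uE : (PowerSeries (Polynomial k))ˣ :=
  (PowerSeries.isUnit_iff_constantCoeff.mpr (by
    rw [map_add, map_mul, PowerSeries.constantCoeff_X, zero_mul, add_zero, map_one]
    exact isUnit_one) :
      IsUnit (1 + PowerSeries.X * PowerSeries.C (Polynomial.X : Polynomial k))).unit

/-- `U ↦ 1 + ε δ`, `V ↦ v + ε`. -/
def bt (v : kˣ) : LP2 k →+* PowerSeries (Polynomial k) :=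
  LaurentPolynomial.eval₂
    (LaurentPolynomial.eval₂ ((PowerSeries.C : Polynomial k →+* _).comp Polynomial.C) (vE v)) uE

/-- `U ↦ 1 + ε δ`, `V ↦ v + ε` on power series in `q`. -/
def BT (v : kˣ) : RR2 k →+* PowerSeries (PowerSeries (Polynomial k)) := PowerSeries.map (bt v)

/-- `ε`. -/
def ep : PowerSeries (PowerSeries (Polynomial k)) := PowerSeries.C PowerSeries.X

end Two

section Curve

/-- The Weierstrass-like cubic. -/
def cub {S : Type*} [CommRing S] (g : Fin 9 → S) (x y z : S) : S :=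
  x ^ 3 + g 0 * z ^ 3 + g 1 * x * z ^ 2 + g 2 * x ^ 2 * z + g 3 * y * z ^ 2 + g 4 * x * y * z
    + g 5 * x ^ 2 * y + g 6 * y ^ 2 * z + g 7 * x * y ^ 2 + g 8 * y ^ 3

/-- Its derivative with respect to `y`. -/
def dcub {S : Type*} [CommRing S] (g : Fin 9 → S) (x y z : S) : S :=
  g 3 * z ^ 2 + g 4 * x * z + g 5 * x ^ 2 + 2 * g 6 * y * z + 2 * g 7 * x * y + 3 * g 8 * y ^ 2

variable {k : Type*} [Field k]

/-- The three sections: `x` has a simple zero at `T = 1`. -/
def Ex (a : kˣ) : RR k := theta 1 * theta a * theta a⁻¹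

/-- `y` has a triple zero at `T = 1`. -/
def Ey : RR k := theta 1 ^ 3

/-- `z` does not vanish at `T = 1`. -/
def Ez (a : kˣ) : RR k := theta a ^ 2 * theta (a ^ (-2 : ℤ))

end Curve

section Plane

/-- Exponents `(i, j)` with `i + j ≤ D`. -/
def tri (D : ℕ) : Finset (ℕ × ℕ) :=
  (Finset.range (D + 1) ×ˢ Finset.range (D + 1)).filter fun p => p.1 + p.2 ≤ D

variable {S : Type*} [CommRing S]

/-- The form `∑ u_{ij} x^i y^j z^{D-i-j}`. -/
def ev3 (D : ℕ) (u : ℕ × ℕ → S) (x y z : S) : S :=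
  ∑ p ∈ tri D, u p * x ^ p.1 * y ^ p.2 * z ^ (D - p.1 - p.2)

/-- The form with coefficients `u` vanishes to order `≥ m` at `(x₀ : y₀ : z₀)`. -/
def Van (D m : ℕ) (u : ℕ × ℕ → S) (x₀ y₀ z₀ : S) : Prop :=
  ∀ i j : ℕ, i + j < m →
    ∑ p ∈ tri D, u p * (p.1.choose i : S) * (p.2.choose j : S)
      * x₀ ^ (p.1 - i) * y₀ ^ (p.2 - j) * z₀ ^ (D - p.1 - p.2) = 0

/-- The homogeneous ideal of the point `(a : b : 1)`. -/
def ptIdeal (a b : S) : Ideal (MvPolynomial (Fin 3) S) :=
  Ideal.span {MvPolynomial.X 0 - MvPolynomial.C a * MvPolynomial.X 2,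
    MvPolynomial.X 1 - MvPolynomial.C b * MvPolynomial.X 2}

end Plane

end Pool.Agent.H957R2.SE
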