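import Pool.Agent.H957R2.SE.Defs

/-! Module L: descent of a nonzero form to special points. -/

noncomputable section

open PowerSeries

namespace Pool.Agent.H957R2.SE

section L

theorem descent {F K R : Type*} [Field F] [Field K] [Algebra F K] [CommRing R] [IsDomain R]
    [Algebra F R] (a b : Fin 10 → K) (hab : AlgebraicIndependent F (Sum.elim a b))
    (P : Fin 10 → Fin 3 → R) (hP : ∀ i, P i 2 ≠ 0) (D : ℕ) (m : Fin 10 → ℕ)
    (hR : ∀ u : ℕ × ℕ → R, (∀ i, Van D (m i) u (P i 0) (P i 1) (P i 2)) → ∀ p ∈ tri D, u p = 0)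
    (v : ℕ × ℕ → K) (hv : ∀ i, Van D (m i) v (a i) (b i) 1) : ∀ p ∈ tri D, v p = 0 := by
  classical
  by_contra hcon
  push Not at hcon
  obtain ⟨p0, hp0, hvp0⟩ := hcon
  -- rows
  let Row := {t : Fin 10 × ℕ × ℕ // t.2.1 + t.2.2 < m t.1}
  let M : Row → {p // p ∈ tri D} → MvPolynomial (Fin 10 ⊕ Fin 10) F := fun ρ p =>
    ((p.1.1.choose ρ.1.2.1 : ℕ) : MvPolynomial (Fin 10 ⊕ Fin 10) F) *
      ((p.1.2.choose ρ.1.2.2 : ℕ) : MvPolynomial (Fin 10 ⊕ Fin 10) F) *
      MvPolynomial.X (Sum.inl ρ.1.1) ^ (p.1.1 - ρ.1.2.1) *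
      MvPolynomial.X (Sum.inr ρ.1.1) ^ (p.1.2 - ρ.1.2.2)
  -- all maximal minors vanish
  have hdet : ∀ e : {p // p ∈ tri D} → Row, (Matrix.of fun q p => M (e q) p).det = 0 := by
    intro e
    have hinj : Function.Injective (MvPolynomial.aeval (R := F) (Sum.elim a b)) := hab
    apply hinj
    rw [map_zero, AlgHom.map_det]
    have hex : ∃ w : {p // p ∈ tri D} → K, w ≠ 0 ∧
        ((MvPolynomial.aeval (R := F) (Sum.elim a b)).mapMatrix
          (Matrix.of fun q p => M (e q) p)).mulVec w = 0 := by
      refine ⟨fun p => v p.1, ?_, ?_⟩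
      · intro h
        exact hvp0 (congrFun h ⟨p0, hp0⟩)
      · funext q
        have h := hv (e q).1.1 (e q).1.2.1 (e q).1.2.2 (e q).2
        simp only [Matrix.mulVec, dotProduct, AlgHom.mapMatrix_apply, Matrix.map_apply,
          Matrix.of_apply, Pi.zero_apply]
        rw [← Finset.sum_coe_sort] at h
        rw [← h]
        refine Finset.sum_congr rfl fun p _ => ?_
        simp only [M, map_mul, map_pow, map_natCast, MvPolynomial.aeval_X, Sum.elim_inl,
          Sum.elim_inr, one_pow, mul_one]
        ring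
    exact Matrix.exists_mulVec_eq_zero_iff.1 hex
  -- specialisation
  let L := FractionRing R
  let ψ : MvPolynomial (Fin 10 ⊕ Fin 10) F →ₐ[F] L :=
    MvPolynomial.aeval (Sum.elim (fun r => algebraMap R L (P r 0) / algebraMap R L (P r 2))
      (fun r => algebraMap R L (P r 1) / algebraMap R L (P r 2)))
  have hdet' : ∀ e : {p // p ∈ tri D} → Row, (Matrix.of fun q p => ψ (M (e q) p)).det = 0 := by
    intro e
    have h := congrArg ψ (hdet e)
    rw [map_zero, AlgHom.map_det] at h
    exact h
  -- rows do not span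
  have hspan : Submodule.span L (Set.range fun ρ : Row => (fun p => ψ (M ρ p) : {p // p ∈ tri D} → L))
      ≠ ⊤ := by
    intro htop
    obtain ⟨κ, g, hg1, hg2, hg3⟩ := exists_linearIndependent' L
      (fun ρ : Row => (fun p => ψ (M ρ p) : {p // p ∈ tri D} → L))
    rw [htop] at hg2
    let bas := Module.Basis.mk hg3 (le_of_eq hg2.symm)
    have hfin : Fintype κ := FiniteDimensional.fintypeBasisIndex bas
    have hcard : Fintype.card κ = Fintype.card {p // p ∈ tri D} := by
      rw [← Module.finrank_eq_card_basis bas, Module.finrank_fintype_fun_eq_card]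
    let eq := Fintype.equivOfCardEq hcard.symm
    have hli : LinearIndependent L (fun q : {p // p ∈ tri D} =>
        (fun p => ψ (M (g (eq q)) p) : {p // p ∈ tri D} → L)) :=
      hg3.comp eq eq.injective
    have h0 := hdet' (fun q => g (eq q))
    have hunit : IsUnit (Matrix.of fun q p => ψ (M (g (eq q)) p)) :=
      Matrix.linearIndependent_rows_iff_isUnit.1 hli
    rw [Matrix.isUnit_iff_isUnit_det, h0] at hunit
    exact not_isUnit_zero hunit
  obtain ⟨f, hf0, hf⟩ := Submodule.exists_le_ker_of_lt_top _ (lt_top_iff_ne_top.2 hspan)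
  -- coefficients of the functional
  let u : {p // p ∈ tri D} → L := fun p => f (Pi.single p 1)
  have hfu : ∀ w, f w = ∑ p, w p * u p := by
    intro w
    conv_lhs => rw [← Finset.univ_sum_single w]
    rw [map_sum]
    refine Finset.sum_congr rfl fun p _ => ?_
    have : (Pi.single p (w p) : {p // p ∈ tri D} → L) = w p • Pi.single p 1 := by
      rw [← Pi.single_smul]; simp
    rw [this, map_smul, smul_eq_mul]
  have hu0 : ∃ p, u p ≠ 0 := by
    by_contra hc
    push Not at hc
    apply hf0
    ext w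
    simp [hfu, hc]
  obtain ⟨d, hd⟩ := IsLocalization.exist_integer_multiples_of_finite (nonZeroDivisors R) u
  choose u' hu' using hd
  have hd0 : algebraMap R L (d : R) ≠ 0 := by
    have : (d : R) ≠ 0 := nonZeroDivisors.coe_ne_zero d
    simpa using this
  have hrow : ∀ ρ : Row, ∑ p, ψ (M ρ p) * algebraMap R L (u' p) = 0 := by
    intro ρ
    have h1 : f (fun p => ψ (M ρ p)) = 0 := hf (Submodule.subset_span ⟨ρ, rfl⟩)
    rw [hfu] at h1
    have h2 : ∀ p, algebraMap R L (u' p) = algebraMap R L (d : R) * u p := by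
      intro p
      rw [hu' p, Algebra.smul_def]
    simp only [h2]
    calc ∑ p, ψ (M ρ p) * (algebraMap R L (d : R) * u p)
        = algebraMap R L (d : R) * ∑ p, ψ (M ρ p) * u p := by
          rw [Finset.mul_sum]; exact Finset.sum_congr rfl fun p _ => by ring
      _ = 0 := by rw [h1, mul_zero]
  have hvan := hR (fun p => if hp : p ∈ tri D then u' ⟨p, hp⟩ else 0) (by
    intro r i j hij
    have h := hrow ⟨(r, i, j), hij⟩
    have hz : algebraMap R L (P r 2) ≠ 0 := by simpa using hP r
    apply IsFractionRing.injective R L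
    rw [map_zero, map_sum]
    rw [← Finset.sum_coe_sort]
    have h2 : algebraMap R L (P r 2) ^ (D - i - j) *
        ∑ p, ψ (M ⟨(r, i, j), hij⟩ p) * algebraMap R L (u' p) = 0 := by rw [h, mul_zero]
    rw [← h2, Finset.mul_sum]
    refine Finset.sum_congr rfl fun p _ => ?_
    have hp := p.2
    simp only [tri, Finset.mem_filter, Finset.mem_product, Finset.mem_range] at hp
    simp only [M, ψ, map_mul, map_pow, map_natCast, MvPolynomial.aeval_X, Sum.elim_inl,
          Sum.elim_inr, dif_pos p.2]
    by_cases hi : i ≤ p.1.1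
    · by_cases hj : j ≤ p.1.2
      · have e : D - i - j = (p.1.1 - i) + (p.1.2 - j) + (D - p.1.1 - p.1.2) := by omega
        have hz1 := pow_ne_zero (p.1.1 - i) hz
        have hz2 := pow_ne_zero (p.1.2 - j) hz
        have e1 : algebraMap R L (P r 0) ^ (p.1.1 - i) =
            algebraMap R L (P r 2) ^ (p.1.1 - i) *
              (algebraMap R L (P r 0) / algebraMap R L (P r 2)) ^ (p.1.1 - i) := by
          rw [div_pow, mul_div_cancel₀ _ hz1]
        have e2 : algebraMap R L (P r 1) ^ (p.1.2 - j) =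
            algebraMap R L (P r 2) ^ (p.1.2 - j) *
              (algebraMap R L (P r 1) / algebraMap R L (P r 2)) ^ (p.1.2 - j) := by
          rw [div_pow, mul_div_cancel₀ _ hz2]
        rw [e, pow_add, pow_add, e1, e2]
        ring
      · rw [Nat.choose_eq_zero_of_lt (show p.1.2 < j by omega)]
        simp
    · rw [Nat.choose_eq_zero_of_lt (show p.1.1 < i by omega)]
      simp)
  obtain ⟨p, hp⟩ := hu0
  have h1 := hvan p.1 p.2
  simp only [dif_pos p.2] at h1
  have h2 := hu' p
  rw [h1, map_zero, Algebra.smul_def] at h2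
  exact (mul_ne_zero hd0 hp) h2.symm

end L

end Pool.Agent.H957R2.SE
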