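import Pool.Agent.H957R2.SE.Defs

/-! Module K: vanishing of forms at points. -/

noncomputable section

open PowerSeries

namespace Pool.Agent.H957R2.SE

section K

theorem mem_tri {D : ℕ} {p : ℕ × ℕ} : p ∈ tri D ↔ p.1 + p.2 ≤ D := by
  simp only [tri, Finset.mem_filter, Finset.mem_product, Finset.mem_range]
  omega

theorem Van.dvd {S : Type*} [CommRing S] {D m : ℕ} {u : ℕ × ℕ → S} {x₀ y₀ z₀ : S}
    (h : Van D m u x₀ y₀ z₀) (x y z p : S) (h1 : p ∣ z₀ * x - x₀ * z) (h2 : p ∣ z₀ * y - y₀ * z) :
    p ^ m ∣ z₀ ^ D * ev3 D u x y z := by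
  obtain ⟨c1, hc1⟩ := h1
  obtain ⟨c2, hc2⟩ := h2
  have hx : z₀ * x = p * c1 + x₀ * z := by rw [← hc1]; ring
  have hy : z₀ * y = p * c2 + y₀ * z := by rw [← hc2]; ring
  have expand : ∀ (w l t : S) (n : ℕ), n ≤ D → w = l + t → w ^ n =
      ∑ i ∈ Finset.range (D + 1), l ^ i * t ^ (n - i) * (n.choose i : S) := by
    intro w l t n hn hw
    rw [hw, add_pow]
    apply Finset.sum_subset
    · intro i hi; rw [Finset.mem_range] at *; omega
    · intro i _ hi
      rw [Finset.mem_range, not_lt] at hi
      rw [Nat.choose_eq_zero_of_lt (by omega)]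
      simp
  have key : z₀ ^ D * ev3 D u x y z = ∑ i ∈ Finset.range (D + 1), ∑ j ∈ Finset.range (D + 1),
      (p * c1) ^ i * (p * c2) ^ j * (z ^ (D - i - j) *
        ∑ t ∈ tri D, u t * (t.1.choose i : S) * (t.2.choose j : S)
          * x₀ ^ (t.1 - i) * y₀ ^ (t.2 - j) * z₀ ^ (D - t.1 - t.2)) := by
    unfold ev3
    rw [Finset.mul_sum]
    have e1 : ∀ t ∈ tri D, z₀ ^ D * (u t * x ^ t.1 * y ^ t.2 * z ^ (D - t.1 - t.2)) =
        ∑ i ∈ Finset.range (D + 1), ∑ j ∈ Finset.range (D + 1),
          (p * c1) ^ i * (p * c2) ^ j * (z ^ (D - i - j) *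
            (u t * (t.1.choose i : S) * (t.2.choose j : S)
              * x₀ ^ (t.1 - i) * y₀ ^ (t.2 - j) * z₀ ^ (D - t.1 - t.2))) := by
      intro t ht
      rw [mem_tri] at ht
      have e2 : z₀ ^ D * (u t * x ^ t.1 * y ^ t.2 * z ^ (D - t.1 - t.2)) =
          u t * ((z₀ * x) ^ t.1 * (z₀ * y) ^ t.2) * (z₀ * z) ^ (D - t.1 - t.2) := by
        have : z₀ ^ D = z₀ ^ t.1 * z₀ ^ t.2 * z₀ ^ (D - t.1 - t.2) := by
          rw [← pow_add, ← pow_add]; congr 1; omega
        rw [this, mul_pow, mul_pow, mul_pow]; ring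
      rw [e2, expand (z₀ * x) _ _ t.1 (by omega) hx, expand (z₀ * y) _ _ t.2 (by omega) hy,
        Finset.sum_mul_sum, Finset.mul_sum, Finset.sum_mul]
      refine Finset.sum_congr rfl fun i _ => ?_
      rw [Finset.mul_sum, Finset.sum_mul]
      refine Finset.sum_congr rfl fun j _ => ?_
      by_cases hi : i ≤ t.1
      · by_cases hj : j ≤ t.2
        · have e3 : z ^ (D - i - j) = z ^ (t.1 - i) * z ^ (t.2 - j) * z ^ (D - t.1 - t.2) := by
            rw [← pow_add, ← pow_add]; congr 1; omega
          rw [e3, mul_pow x₀ z, mul_pow y₀ z, mul_pow z₀ z]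
          ring
        · rw [Nat.choose_eq_zero_of_lt (show t.2 < j by omega)]
          simp
      · rw [Nat.choose_eq_zero_of_lt (show t.1 < i by omega)]
        simp
    rw [Finset.sum_congr rfl e1, Finset.sum_comm]
    refine Finset.sum_congr rfl fun i _ => ?_
    rw [Finset.sum_comm]
    refine Finset.sum_congr rfl fun j _ => ?_
    rw [← Finset.mul_sum, ← Finset.mul_sum]
  rw [key]
  refine Finset.dvd_sum fun i _ => Finset.dvd_sum fun j _ => ?_
  by_cases hij : i + j < m
  · rw [h i j hij]; simp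
  · apply Dvd.dvd.mul_right
    have : (p * c1) ^ i * (p * c2) ^ j = p ^ (i + j) * (c1 ^ i * c2 ^ j) := by
      rw [mul_pow, mul_pow, pow_add]; ring
    rw [this]
    exact (pow_dvd_pow p (by omega)).mul_right _

/-- the exponent vector -/
def ex3 (D : ℕ) (p : ℕ × ℕ) : Fin 3 →₀ ℕ :=
  Finsupp.single 0 p.1 + Finsupp.single 1 p.2 + Finsupp.single 2 (D - p.1 - p.2)

theorem ex3_zero (D : ℕ) (p : ℕ × ℕ) : ex3 D p 0 = p.1 := by
  simp [ex3]

theorem ex3_one (D : ℕ) (p : ℕ × ℕ) : ex3 D p 1 = p.2 := by
  simp [ex3]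

theorem ex3_two (D : ℕ) (p : ℕ × ℕ) : ex3 D p 2 = D - p.1 - p.2 := by
  simp [ex3]

theorem homog_sum {K : Type*} [Field K] {D : ℕ} {F : MvPolynomial (Fin 3) K}
    (hF : F.IsHomogeneous D) :
    F = ∑ p ∈ tri D, MvPolynomial.monomial (ex3 D p) (F.coeff (ex3 D p)) := by
  classical
  ext d
  rw [MvPolynomial.coeff_sum]
  simp only [MvPolynomial.coeff_monomial]
  by_cases hd : d 0 + d 1 + d 2 = D
  · have hmem : (d 0, d 1) ∈ tri D := by rw [mem_tri]; simp only; omega
    have hex : ex3 D (d 0, d 1) = d := by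
      ext i
      fin_cases i
      · exact ex3_zero _ _
      · exact ex3_one _ _
      · rw [show ((⟨2, by omega⟩ : Fin 3)) = 2 from rfl]
        rw [ex3_two]; simp only; omega
    rw [Finset.sum_eq_single_of_mem _ hmem]
    · rw [if_pos hex, hex]
    · intro p _ hp
      rw [if_neg]
      intro h
      apply hp
      rw [← h, ex3_zero, ex3_one]
  · rw [hF.coeff_eq_zero (d := d) ?_, Finset.sum_eq_zero]
    · intro p hp
      rw [if_neg]
      rintro rfl
      apply hd
      rw [mem_tri] at hp
      rw [ex3_zero, ex3_one, ex3_two]; omega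
    · intro h
      apply hd
      rw [← h]
      simp [Finsupp.degree_eq_sum, Fin.sum_univ_three]

/-- vanishing of the low coefficients in two variables -/
theorem low_coeff {K : Type*} [Field K] (m : ℕ) (f : Polynomial (Polynomial K))
    (hf : f ∈ (Ideal.span {Polynomial.C Polynomial.X, Polynomial.X} :
      Ideal (Polynomial (Polynomial K))) ^ m) :
    ∀ i j : ℕ, i + j < m → (f.coeff j).coeff i = 0 := by
  induction m generalizing f with
  | zero => intro i j h; omega
  | succ m ih =>
    rw [Submodule.pow_succ] at hf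
    refine Submodule.mul_induction_on hf ?_ ?_
    · intro g hg l hl i j hij
      rw [Ideal.mem_span_pair] at hl
      obtain ⟨a, b, rfl⟩ := hl
      have hg2 := ih g hg
      have e : g * (a * Polynomial.C Polynomial.X + b * Polynomial.X) =
          (g * a) * Polynomial.C Polynomial.X + (g * b) * Polynomial.X := by ring
      rw [e, Polynomial.coeff_add, Polynomial.coeff_add]
      have hga : ∀ i j : ℕ, i + j < m → ((g * a).coeff j).coeff i = 0 :=
        ih _ (Ideal.mul_mem_right _ _ hg)
      have hgb : ∀ i j : ℕ, i + j < m → ((g * b).coeff j).coeff i = 0 :=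
        ih _ (Ideal.mul_mem_right _ _ hg)
      have t1 : (((g * a) * Polynomial.C Polynomial.X).coeff j).coeff i = 0 := by
        rw [Polynomial.coeff_mul_C]
        cases i with
        | zero => simp
        | succ i =>
          rw [Polynomial.coeff_mul_X]
          exact hga i j (by omega)
      have t2 : (((g * b) * Polynomial.X).coeff j).coeff i = 0 := by
        cases j with
        | zero => simp
        | succ j =>
          rw [Polynomial.coeff_mul_X]
          exact hgb i j (by omega)
      rw [t1, t2, add_zero]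
    · intro x y hx hy i j hij
      rw [Polynomial.coeff_add, Polynomial.coeff_add, hx i j hij, hy i j hij, add_zero]

theorem Van.of_ptIdeal {K : Type*} [Field K] (a b : K) (D m : ℕ) (F : MvPolynomial (Fin 3) K)
    (hF : F.IsHomogeneous D) (h : F ∈ ptIdeal a b ^ m) :
    Van D m (fun p => F.coeff (Finsupp.single 0 p.1 + Finsupp.single 1 p.2
      + Finsupp.single 2 (D - p.1 - p.2))) a b 1 := by
  classical
  intro i j hij
  let φ : MvPolynomial (Fin 3) K →ₐ[K] Polynomial (Polynomial K) :=
    MvPolynomial.aeval ![Polynomial.C (Polynomial.X + Polynomial.C a),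
      Polynomial.X + Polynomial.C (Polynomial.C b), 1]
  have hφ : φ F ∈ (Ideal.span {Polynomial.C Polynomial.X, Polynomial.X} :
      Ideal (Polynomial (Polynomial K))) ^ m := by
    have h1 : (ptIdeal a b ^ m).map φ ≤ (Ideal.span {Polynomial.C Polynomial.X, Polynomial.X} :
      Ideal (Polynomial (Polynomial K))) ^ m := by
      rw [Ideal.map_pow]
      apply Ideal.pow_right_mono
      unfold ptIdeal
      rw [Ideal.map_span, Set.image_pair, Ideal.span_le]
      rintro x (rfl | hx)
      · have : φ (MvPolynomial.X 0 - MvPolynomial.C a * MvPolynomial.X 2) =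
            Polynomial.C Polynomial.X := by
          simp [φ]
        rw [this]
        exact Ideal.subset_span (by simp)
      · rw [Set.mem_singleton_iff] at hx
        subst hx
        have : φ (MvPolynomial.X 1 - MvPolynomial.C b * MvPolynomial.X 2) =
            Polynomial.X := by
          simp [φ]
        rw [this]
        exact Ideal.subset_span (by simp)
    exact h1 (Ideal.mem_map_of_mem φ h)
  have hlow := low_coeff m (φ F) hφ i j hij
  rw [homog_sum hF, map_sum, Polynomial.finsetSum_coeff, Polynomial.finsetSum_coeff] at hlow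
  rw [← hlow]
  refine Finset.sum_congr rfl fun p _ => ?_
  have hterm : φ (MvPolynomial.monomial (ex3 D p) (F.coeff (ex3 D p))) =
      Polynomial.C (Polynomial.C (F.coeff (ex3 D p)) * (Polynomial.X + Polynomial.C a) ^ p.1) *
        (Polynomial.X + Polynomial.C (Polynomial.C b)) ^ p.2 := by
    rw [MvPolynomial.aeval_monomial, Finsupp.prod_fintype _ _ (fun _ => pow_zero _),
      Fin.prod_univ_three, ex3_zero, ex3_one, ex3_two]
    simp only [Matrix.cons_val_zero, Matrix.cons_val_one, Matrix.cons_val, one_pow, mul_one]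
    rw [map_mul, map_pow]
    rw [← mul_assoc]
    rfl
  rw [hterm, Polynomial.coeff_C_mul, Polynomial.coeff_X_add_C_pow]
  have e1 : (Polynomial.C b ^ (p.2 - j) * ((p.2.choose j : ℕ) : Polynomial K)) =
      Polynomial.C (b ^ (p.2 - j) * (p.2.choose j : K)) := by
    rw [Polynomial.C_mul, Polynomial.C_pow]
    simp
  rw [e1, Polynomial.coeff_mul_C, Polynomial.coeff_C_mul, Polynomial.coeff_X_add_C_pow]
  change F.coeff (ex3 D p) * _ * _ * _ * _ * _ = _
  rw [one_pow]
  ring

end K

end Pool.Agent.H957R2.SE
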