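import Pool.Agent.H957R2.SE.ModJ
import Pool.Agent.H957R2.SE.Vanish

noncomputable section

open PowerSeries

namespace Pool.Agent.H957R2.SE

/-- The form with coefficients `v` as a polynomial. -/
def FF {k : Type*} [Field k] (D : ℕ) (v : ℕ × ℕ → PowerSeries k) :
    MvPolynomial (Fin 3) (PowerSeries k) :=
  ev3 D (fun p => MvPolynomial.C (v p)) (MvPolynomial.X 0) (MvPolynomial.X 1) (MvPolynomial.X 2)

/-- The function `∂_y Φ` on the curve. -/
def lam {k : Type*} [Field k] (a : kˣ) (g : Fin 9 → PowerSeries k) : RR k :=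
  dcub (fun i => KK (g i)) (Ex a) Ey (Ez a)

theorem ev3_map {S S' : Type*} [CommRing S] [CommRing S'] (φ : S →+* S') (D : ℕ)
    (u : ℕ × ℕ → S) (x y z : S) :
    φ (ev3 D u x y z) = ev3 D (fun p => φ (u p)) (φ x) (φ y) (φ z) := by
  unfold ev3
  rw [map_sum]
  apply Finset.sum_congr rfl
  intro p _
  simp only [map_mul, map_pow]

theorem eval₂_FF {k S : Type*} [Field k] [CommRing S] (D : ℕ) (v : ℕ × ℕ → PowerSeries k)
    (φ : PowerSeries k →+* S) (x y z : S) :
    MvPolynomial.eval₂Hom φ ![x, y, z] (FF D v) = ev3 D (fun p => φ (v p)) x y z := by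
  unfold FF
  rw [ev3_map]
  simp only [MvPolynomial.eval₂Hom_C, MvPolynomial.eval₂Hom_X']
  rfl

theorem eval₂_Phi {k S : Type*} [Field k] [CommRing S] (g : Fin 9 → PowerSeries k)
    (φ : PowerSeries k →+* S) (x y z : S) :
    MvPolynomial.eval₂Hom φ ![x, y, z] (Phi g) = cub (fun i => φ (g i)) x y z := by
  unfold Phi
  rw [map_cub]
  simp only [MvPolynomial.eval₂Hom_C, MvPolynomial.eval₂Hom_X']
  rfl

theorem evE_eq {k : Type*} [Field k] (a : kˣ) (F : MvPolynomial (Fin 3) (PowerSeries k)) :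
    evE a F = MvPolynomial.eval₂Hom KK ![Ex a, Ey, Ez a] F := rfl

section W
variable {k : Type*} [Field k]

theorem FF_homogeneous (D : ℕ) (v : ℕ × ℕ → PowerSeries k) : (FF D v).IsHomogeneous D := by
  unfold FF ev3
  apply MvPolynomial.IsHomogeneous.sum
  intro p hp
  rw [mem_tri] at hp
  have h1 := ((MvPolynomial.isHomogeneous_C (Fin 3) (v p)).mul
    ((MvPolynomial.isHomogeneous_X (PowerSeries k) (0 : Fin 3)).pow p.1)).mul
    ((MvPolynomial.isHomogeneous_X (PowerSeries k) (1 : Fin 3)).pow p.2)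
  have h2 := h1.mul ((MvPolynomial.isHomogeneous_X (PowerSeries k) (2 : Fin 3)).pow (D - p.1 - p.2))
  convert h2 using 1
  omega

theorem Phi_homogeneous (g : Fin 9 → PowerSeries k) : (Phi g).IsHomogeneous 3 := by
  unfold Phi cub
  have hX : ∀ i : Fin 3, (MvPolynomial.X i : MvPolynomial (Fin 3) (PowerSeries k)).IsHomogeneous 1 :=
    fun i => MvPolynomial.isHomogeneous_X _ i
  have hC : ∀ a : PowerSeries k, (MvPolynomial.C a : MvPolynomial (Fin 3) (PowerSeries k)).IsHomogeneous 0 :=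
    fun a => MvPolynomial.isHomogeneous_C _ a
  refine MvPolynomial.IsHomogeneous.add (MvPolynomial.IsHomogeneous.add
    (MvPolynomial.IsHomogeneous.add (MvPolynomial.IsHomogeneous.add (MvPolynomial.IsHomogeneous.add
    (MvPolynomial.IsHomogeneous.add (MvPolynomial.IsHomogeneous.add (MvPolynomial.IsHomogeneous.add
    (MvPolynomial.IsHomogeneous.add ?_ ?_) ?_) ?_) ?_) ?_) ?_) ?_) ?_) ?_
  · exact (hX 0).pow 3
  · exact (hC _).mul ((hX 2).pow 3)
  · exact ((hC _).mul (hX 0)).mul ((hX 2).pow 2)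
  · exact ((hC _).mul ((hX 0).pow 2)).mul (hX 2)
  · exact ((hC _).mul (hX 1)).mul ((hX 2).pow 2)
  · exact (((hC _).mul (hX 0)).mul (hX 1)).mul (hX 2)
  · exact ((hC _).mul ((hX 0).pow 2)).mul (hX 1)
  · exact ((hC _).mul ((hX 1).pow 2)).mul (hX 2)
  · exact ((hC _).mul (hX 0)).mul ((hX 1).pow 2)
  · exact (hC _).mul ((hX 1).pow 3)

theorem wlem (a : kˣ) (ha : a ^ 2 ≠ 1) (g : Fin 9 → PowerSeries k)
    (hg : cub (fun i => KK (g i)) (Ex a) Ey (Ez a) = 0) (D : ℕ) (v : ℕ → ℕ × ℕ → PowerSeries k)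
    (h0 : FF D (v 0) ≠ 0) : ∃ (w : ℕ) (G : ℕ → MvPolynomial (Fin 3) (PowerSeries k)),
      3 * w ≤ D ∧ (∀ i ≤ w, (G i).IsHomogeneous (D - 3 * i)) ∧
      (∀ i ≤ w, FF D (v (w - i)) = Phi g ^ i * G i) ∧ ∃ i ≤ w, evE a (G i) ≠ 0 := by
  have bound : ∀ (w : ℕ) (G : ℕ → MvPolynomial (Fin 3) (PowerSeries k)),
      (∀ i ≤ w, (G i).IsHomogeneous (D - 3 * i)) →
      (∀ i ≤ w, FF D (v (w - i)) = Phi g ^ i * G i) → 3 * w ≤ D := by
    intro w G h1 h2
    have h3 := h2 w le_rfl
    rw [Nat.sub_self] at h3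
    have h4 : (FF D (v 0)).IsHomogeneous (3 * w + (D - 3 * w)) := by
      rw [h3]
      exact ((Phi_homogeneous g).pow w).mul (h1 w le_rfl)
    have h5 := (FF_homogeneous D (v 0)).inj_right h4 h0
    omega
  by_contra hcon
  push Not at hcon
  have key : ∀ w : ℕ, ∃ G : ℕ → MvPolynomial (Fin 3) (PowerSeries k),
      (∀ i ≤ w, (G i).IsHomogeneous (D - 3 * i)) ∧
      (∀ i ≤ w, FF D (v (w - i)) = Phi g ^ i * G i) := by
    intro w
    induction w with
    | zero =>
      refine ⟨fun _ => FF D (v 0), ?_, ?_⟩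
      · intro i hi
        have : i = 0 := by omega
        subst this
        exact FF_homogeneous D (v 0)
      · intro i hi
        have : i = 0 := by omega
        subst this
        simp
    | succ w ih =>
      obtain ⟨G, h1, h2⟩ := ih
      have h3 := hcon w G (bound w G h1 h2) h1 h2
      have h4 : ∀ i ≤ w, ∃ G' : MvPolynomial (Fin 3) (PowerSeries k),
          G'.IsHomogeneous (D - 3 * i - 3) ∧ G i = Phi g * G' := fun i hi =>
        evE_ker a ha g hg (D - 3 * i) (G i) (h1 i hi) (h3 i hi)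
      choose! G' h5 h6 using h4
      refine ⟨fun i => if i = 0 then FF D (v (w + 1)) else G' (i - 1), ?_, ?_⟩
      · intro i hi
        by_cases hi0 : i = 0
        · subst hi0
          simpa using FF_homogeneous D (v (w + 1))
        · simp only [if_neg hi0]
          have := h5 (i - 1) (by omega)
          convert this using 1
          omega
      · intro i hi
        by_cases hi0 : i = 0
        · subst hi0
          simp
        · simp only [if_neg hi0]
          have e1 : w + 1 - i = w - (i - 1) := by omega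
          rw [e1, h2 (i - 1) (by omega), h6 (i - 1) (by omega), ← mul_assoc, ← pow_succ]
          congr 2
          omega
  obtain ⟨G, h1, h2⟩ := key (D + 1)
  have := bound (D + 1) G h1 h2
  omega

end W

end Pool.Agent.H957R2.SE
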