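import Pool.Agent.H957R2.SE.FFdef

/-! Module N3: the order of vanishing of the cofactor along the curve. -/

noncomputable section

open PowerSeries

namespace Pool.Agent.H957R2.SE

variable {k : Type*} [Field k]

theorem Van.map {S S' : Type*} [CommRing S] [CommRing S'] (φ : S →+* S') {D m : ℕ}
    {u : ℕ × ℕ → S} {x₀ y₀ z₀ : S} (h : Van D m u x₀ y₀ z₀) :
    Van D m (fun p => φ (u p)) (φ x₀) (φ y₀) (φ z₀) := by
  intro i j hij
  have := congrArg φ (h i j hij)
  rw [map_sum, map_zero] at this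
  rw [← this]
  refine Finset.sum_congr rfl fun p _ => ?_
  simp only [map_mul, map_natCast, map_pow]

theorem cub_add {S : Type*} [CommRing S] (g : Fin 9 → S) (x y z t : S) :
    cub g x (y + t) z = cub g x y z + t * dcub g x y z
      + t ^ 2 * (g 6 * z + g 7 * x + 3 * g 8 * y + t * g 8) := by
  unfold cub dcub
  ring

theorem map_ev3 {S S' : Type*} [CommRing S] [CommRing S'] (φ : S →+* S') (D : ℕ)
    (u : ℕ × ℕ → S) (x y z : S) :
    φ (ev3 D u x y z) = ev3 D (fun p => φ (u p)) (φ x) (φ y) (φ z) := by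
  unfold ev3
  rw [map_sum]
  refine Finset.sum_congr rfl fun p _ => ?_
  simp only [map_mul, map_pow]

theorem map_dcub {S S' : Type*} [CommRing S] [CommRing S'] (φ : S →+* S') (g : Fin 9 → S)
    (x y z : S) : φ (dcub g x y z) = dcub (fun i => φ (g i)) (φ x) (φ y) (φ z) := by
  simp only [dcub, map_add, map_mul, map_pow, map_ofNat]

theorem evE_X0 (a : kˣ) : evE a (MvPolynomial.X 0) = Ex a := by
  unfold evE; rw [MvPolynomial.eval₂Hom_X']; rfl

theorem evE_X1 (a : kˣ) : evE a (MvPolynomial.X 1) = Ey := by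
  unfold evE; rw [MvPolynomial.eval₂Hom_X']; rfl

theorem evE_X2 (a : kˣ) : evE a (MvPolynomial.X 2) = Ez a := by
  unfold evE; rw [MvPolynomial.eval₂Hom_X']; rfl

theorem evE_C (a : kˣ) (c : PowerSeries k) : evE a (MvPolynomial.C c) = KK c := by
  unfold evE; rw [MvPolynomial.eval₂Hom_C]

/-- N3 -/
theorem order_G (a : kˣ) (g : Fin 9 → PowerSeries k)
    (hg : cub (fun i => KK (g i)) (Ex a) Ey (Ez a) = 0) (x : kˣ)
    (hl : EV x (lam a g) ≠ 0) (hz : EV x (Ez a) ≠ 0) (D m i : ℕ) (v : ℕ × ℕ → PowerSeries k)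
    (hv : Van D m v (EV x (Ex a)) (EV x Ey) (EV x (Ez a)))
    (G : MvPolynomial (Fin 3) (PowerSeries k)) (hG : FF D v = Phi g ^ i * G) :
    lin x ^ (m - i) ∣ evE a G := by
  -- the ring `(RR k)[X]`
  let pi : Polynomial (RR k) := Polynomial.C (lin x)
  let psi : PowerSeries k →+* Polynomial (RR k) :=
    (Polynomial.C : RR k →+* Polynomial (RR k)).comp KK
  have hpi : Prime pi := Polynomial.prime_C_iff.mpr (lin_prime x)
  have hpsi : ∀ c, psi c = Polynomial.C (KK c) := fun c => rfl
  let X' : Polynomial (RR k) := Polynomial.C (Ex a)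
  let Y' : Polynomial (RR k) := Polynomial.C Ey + pi * Polynomial.X
  let Z' : Polynomial (RR k) := Polynomial.C (Ez a)
  have hX' : X' = Polynomial.C (Ex a) := rfl
  have hY' : Y' = Polynomial.C Ey + pi * Polynomial.X := rfl
  have hZ' : Z' = Polynomial.C (Ez a) := rfl
  have hpi' : pi = Polynomial.C (lin x) := rfl
  -- divisibility of evaluations
  have hdiv : ∀ f h : RR k, lin x ∣ KK (EV x h) * f - KK (EV x f) * h := by
    intro f h
    rw [← EV_eq_zero_iff, map_sub, map_mul, map_mul, EV_KK, EV_KK]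
    ring
  have h1 : pi ∣ psi (EV x (Ez a)) * X' - psi (EV x (Ex a)) * Z' := by
    rw [hpsi, hpsi, hX', hZ', ← map_mul, ← map_mul, ← map_sub]
    exact map_dvd Polynomial.C (hdiv _ _)
  have h2 : pi ∣ psi (EV x (Ez a)) * Y' - psi (EV x Ey) * Z' := by
    have e : psi (EV x (Ez a)) * Y' - psi (EV x Ey) * Z'
        = (psi (EV x (Ez a)) * Polynomial.C Ey - psi (EV x Ey) * Z')
          + pi * (psi (EV x (Ez a)) * Polynomial.X) := by
      rw [hY']; ring
    rw [e]
    apply dvd_add
    · rw [hpsi, hpsi, hZ', ← map_mul, ← map_mul, ← map_sub]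
      exact map_dvd Polynomial.C (hdiv _ _)
    · exact dvd_mul_right _ _
  have h3 := Van.dvd (Van.map psi hv) X' Y' Z' pi h1 h2
  have hnz : ¬ pi ∣ psi (EV x (Ez a)) := by
    intro h
    rw [hpsi, hpi', Polynomial.C_dvd_iff_dvd_coeff] at h
    have h4 := h 0
    rw [Polynomial.coeff_C_zero, ← EV_eq_zero_iff, EV_KK] at h4
    exact hz h4
  have h4 : pi ^ m ∣ ev3 D (fun p => psi (v p)) X' Y' Z' :=
    hpi.pow_dvd_of_dvd_mul_left m (fun h => hnz (hpi.dvd_of_dvd_pow h)) h3
  -- evaluation
  let φ : MvPolynomial (Fin 3) (PowerSeries k) →+* Polynomial (RR k) :=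
    MvPolynomial.eval₂Hom psi ![X', Y', Z']
  have hφC : ∀ c, φ (MvPolynomial.C c) = psi c := fun c => MvPolynomial.eval₂_C _ _ _
  have hφ0 : φ (MvPolynomial.X 0) = X' := MvPolynomial.eval₂_X _ _ _
  have hφ1 : φ (MvPolynomial.X 1) = Y' := MvPolynomial.eval₂_X _ _ _
  have hφ2 : φ (MvPolynomial.X 2) = Z' := MvPolynomial.eval₂_X _ _ _
  have h5 : φ (FF D v) = ev3 D (fun p => psi (v p)) X' Y' Z' := by
    unfold FF
    rw [map_ev3, hφ0, hφ1, hφ2]
    congr 1
    funext p
    exact hφC _
  rw [← h5, hG, map_mul, map_pow] at h4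
  let W : Polynomial (RR k) := Polynomial.X * Polynomial.C (lam a g)
    + pi * (Polynomial.X ^ 2 * (psi (g 6) * Z' + psi (g 7) * X' + 3 * psi (g 8) * Polynomial.C Ey
      + pi * Polynomial.X * psi (g 8)))
  have hW : φ (Phi g) = pi * W := by
    unfold Phi
    rw [map_cub, hφ0, hφ1, hφ2]
    simp only [hφC]
    rw [hY', cub_add]
    have e1 : cub (fun i => psi (g i)) X' (Polynomial.C Ey) Z' = 0 := by
      have := congrArg (Polynomial.C : RR k →+* Polynomial (RR k)) hg
      rw [map_zero, map_cub] at this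
      exact this
    have e2 : dcub (fun i => psi (g i)) X' (Polynomial.C Ey) Z' = Polynomial.C (lam a g) := by
      unfold lam
      rw [map_dcub]
      rfl
    rw [e1, e2]
    show _ = pi * (Polynomial.X * Polynomial.C (lam a g)
    + pi * (Polynomial.X ^ 2 * (psi (g 6) * Z' + psi (g 7) * X' + 3 * psi (g 8) * Polynomial.C Ey
      + pi * Polynomial.X * psi (g 8))))
    ring
  have hWn : ¬ pi ∣ W := by
    intro h
    have h6 : pi ∣ Polynomial.X * Polynomial.C (lam a g) :=
      (dvd_add_left (dvd_mul_right _ _)).mp h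
    rw [hpi', Polynomial.C_dvd_iff_dvd_coeff] at h6
    have h7 := h6 1
    rw [Polynomial.coeff_X_mul, Polynomial.coeff_C_zero, ← EV_eq_zero_iff] at h7
    exact hl h7
  rw [hW, mul_pow, mul_assoc] at h4
  rcases Nat.lt_or_ge m i with hmi | hmi
  · rw [Nat.sub_eq_zero_of_le hmi.le, pow_zero]; exact one_dvd _
  have h8 : pi ^ (m - i) ∣ W ^ i * φ G := by
    have e : pi ^ m = pi ^ i * pi ^ (m - i) := by rw [← pow_add]; congr 1; omega
    rw [e] at h4
    exact (mul_dvd_mul_iff_left (pow_ne_zero _ hpi.ne_zero)).mp h4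
  have h9 : pi ^ (m - i) ∣ φ G :=
    hpi.pow_dvd_of_dvd_mul_left (m - i) (fun h => hWn (hpi.dvd_of_dvd_pow h)) h8
  -- specialisation
  have h10 := map_dvd (Polynomial.evalRingHom (0 : RR k)) h9
  rw [map_pow] at h10
  have e3 : Polynomial.evalRingHom (0 : RR k) pi = lin x := by
    rw [Polynomial.coe_evalRingHom, hpi', Polynomial.eval_C]
  have e4 : Polynomial.evalRingHom (0 : RR k) (φ G) = evE a G := by
    have : (Polynomial.evalRingHom (0 : RR k)).comp φ = evE a := by
      apply MvPolynomial.ringHom_ext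
      · intro c
        rw [RingHom.comp_apply, hφC, hpsi, Polynomial.coe_evalRingHom, Polynomial.eval_C]
        exact (evE_C a c).symm
      · intro j
        rw [RingHom.comp_apply]
        fin_cases j
        · show Polynomial.evalRingHom (0 : RR k) (φ (MvPolynomial.X 0)) = evE a (MvPolynomial.X 0)
          rw [hφ0, hX', Polynomial.coe_evalRingHom, Polynomial.eval_C]
          exact (evE_X0 a).symm
        · show Polynomial.evalRingHom (0 : RR k) (φ (MvPolynomial.X 1)) = evE a (MvPolynomial.X 1)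
          rw [hφ1, hY', Polynomial.coe_evalRingHom]
          simp only [Polynomial.eval_add, Polynomial.eval_C, Polynomial.eval_mul,
            Polynomial.eval_X, mul_zero, add_zero]
          exact (evE_X1 a).symm
        · show Polynomial.evalRingHom (0 : RR k) (φ (MvPolynomial.X 2)) = evE a (MvPolynomial.X 2)
          rw [hφ2, hZ', Polynomial.coe_evalRingHom, Polynomial.eval_C]
          exact (evE_X2 a).symm
    rw [← this]; rfl
  rwa [e3, e4] at h10

end Pool.Agent.H957R2.SE
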