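import Pool.Agent.H957R2.SE.QPz
import Pool.Agent.H957R2.SE.OrdG

noncomputable section

open PowerSeries

namespace Pool.Agent.H957R2.SE

variable {k : Type*} [Field k]

/-! ### divisibility by the fibre over `c = ξ^(-45)` -/

/-- the product of the nine thetas -/
def QQ (ξ : kˣ) : RR k := ∏ j ∈ Finset.Icc (1 : ℕ) 9, theta (ξ ^ (j : ℤ))

/-- `θ(U/c) θ(V/c)` -/
def AA (c : kˣ) : RR2 k := zU (theta c) * zV (theta c)

theorem AA_rel (c : kˣ) : EV (xV c) (AA (1 : kˣ)) = KK (PowerSeries.C (c : k)) * EV (xV c) (AA c) := by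
  unfold AA
  rw [map_mul, map_mul, EV_uU, EV_uU, EV_zV, EV_zV, zs_theta, zs_theta]
  have h1 : (xV c * (Units.map (LaurentPolynomial.C : k →+* LP k).toMonoidHom (1 : kˣ))⁻¹ : (LP k)ˣ)
      = (uT * (uC c)⁻¹)⁻¹ := by
    rw [map_one, inv_one, mul_one, mul_inv, inv_inv]
    unfold xV; rw [mul_comm]
  have h2 : (xV c * (Units.map (LaurentPolynomial.C : k →+* LP k).toMonoidHom c)⁻¹ : (LP k)ˣ)
      = (uT)⁻¹ := by
    unfold xV
    have : (Units.map (LaurentPolynomial.C : k →+* LP k).toMonoidHom c) = uC c := rfl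
    rw [this, mul_comm (uC c), mul_assoc, mul_inv_cancel, mul_one]
  rw [h1, h2, Th_inv, Th_inv]
  have h3 : theta c = Th (uT * (uC c)⁻¹) := rfl
  have h4 : theta (1 : kˣ) = Th uT := by
    unfold theta
    rw [uC_one, inv_one, mul_one]
  rw [h3, h4]
  have h5 : (PowerSeries.C ((((uT * (uC c)⁻¹ : (LP k)ˣ))⁻¹ : (LP k)ˣ) : LP k) : RR k)
      = KK (PowerSeries.C (c : k)) * PowerSeries.C (((uT)⁻¹ : (LP k)ˣ) : LP k) := by
    unfold KK
    rw [PowerSeries.map_C, ← map_mul, ← uC_val, ← Units.val_mul, mul_inv, inv_inv, mul_comm (uC c)]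
  rw [h5]
  ring

theorem AA_ne_zero (c : kˣ) : EV (xV c) (AA (1 : kˣ)) ≠ 0 := by
  unfold AA
  rw [map_mul, EV_uU, EV_zV, zs_theta]
  apply mul_ne_zero
  · have h1 : (xV c * (Units.map (LaurentPolynomial.C : k →+* LP k).toMonoidHom (1 : kˣ))⁻¹ : (LP k)ˣ)
        = xV c := by
      rw [map_one, inv_one, mul_one]
    rw [h1]
    intro h
    have h2 := congrArg (PowerSeries.constantCoeff) h
    rw [constantCoeff_Th, map_zero, sub_eq_zero] at h2
    have h3 := congrArg (fun p : LP k => p.coeff 0) h2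
    have h4 : (1 : LP k).coeff 0 = 1 := by
      rw [← LaurentPolynomial.T_zero, LaurentPolynomial.T_apply]; simp
    have h5 : ((xV c : (LP k)ˣ) : LP k).coeff 0 = 0 := by
      have : ((xV c : (LP k)ˣ) : LP k) = LaurentPolynomial.C (c : k) * LaurentPolynomial.T (-1) := by
        unfold xV; rw [Units.val_mul, uC_val]; rfl
      rw [this, coeff_CT_mono]; simp
    simp only [h4, h5] at h3
    exact one_ne_zero h3
  · intro h
    exact theta_not_X_dvd (1 : kˣ) (h ▸ dvd_zero _)

/-- constants of `RR2` -/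
def K2 : PowerSeries k →+* RR2 k := (zUV : RR k →+* RR2 k).comp KK

/-- cubic expansion -/
theorem cub_expand {S : Type*} [CommRing S] (g : Fin 9 → S) (b t x y z : S) :
    cub g (b * x) (b * y + t) (b * z) = b ^ 3 * cub g x y z + t * (b ^ 2 * dcub g x y z)
      + t ^ 2 * (g 6 * b * z + g 7 * b * x + 3 * g 8 * b * y + g 8 * t) := by
  unfold cub dcub; ring

theorem eval₂_homog {S T σ : Type*} [CommRing S] [CommRing T] [Fintype σ] (φ : S →+* T) (b : T)
    (x : σ → T) (d : ℕ) (G : MvPolynomial σ S) (hG : G.IsHomogeneous d) :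
    MvPolynomial.eval₂Hom φ (fun i => b * x i) G = b ^ d * MvPolynomial.eval₂Hom φ x G := by
  rw [MvPolynomial.coe_eval₂Hom, MvPolynomial.coe_eval₂Hom, MvPolynomial.eval₂_eq',
    MvPolynomial.eval₂_eq', Finset.mul_sum]
  apply Finset.sum_congr rfl
  intro e he
  have b1 : e.degree = d := by
    rw [Finsupp.degree_eq_weight_one]; exact hG (MvPolynomial.mem_support_iff.mp he)
  rw [Finsupp.degree_eq_sum] at b1
  simp only [mul_pow]
  rw [Finset.prod_mul_distrib, Finset.prod_pow_eq_pow_sum, b1]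
  ring


theorem K2_apply (z : PowerSeries k) : K2 z = zUV (KK z) := rfl

theorem EV_xV_K2 (c : kˣ) (z : PowerSeries k) : EV (xV c) (K2 z) = KK z := by
  rw [K2_apply, EV_xV_zUV, EV_KK]

theorem KK_inj {B : Type*} [CommRing B] {z : PowerSeries B} (h : KK z = 0) : z = 0 := by
  have := EV_KK (1 : Bˣ) z
  rw [h, map_zero] at this
  exact this.symm

theorem zUV_lin_prime (c : kˣ) : Prime (zUV (lin c)) := by
  rw [zUV_lin']
  have h : Associated (lin (xV c)) (PowerSeries.C ((uV : (LP2 k)ˣ) : LP2 k) * lin (xV c)) :=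
    (associated_isUnit_mul_left_iff uV_isUnit).mpr (Associated.refl _) |>.symm
  exact h.prime (lin_prime _)

theorem zUV_lin_dvd_iff (c : kˣ) (f : RR2 k) : zUV (lin c) ∣ f ↔ EV (xV c) f = 0 := by
  rw [← lin_xV_dvd_iff, EV_eq_zero_iff]

theorem zUV_lin_dvd_zUV (c : kˣ) (f : RR k) : zUV (lin c) ∣ zUV f ↔ EV c f = 0 := by
  rw [zUV_lin_dvd_iff, EV_xV_zUV]
  constructor
  · exact KK_inj
  · intro h; rw [h, map_zero]

theorem ev3_add {S : Type*} [CommRing S] (D : ℕ) (u v : ℕ × ℕ → S) (x y z : S) :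
    ev3 D (fun p => u p + v p) x y z = ev3 D u x y z + ev3 D v x y z := by
  unfold ev3
  rw [← Finset.sum_add_distrib]
  apply Finset.sum_congr rfl
  intro p _
  ring

theorem ev3_sum {S ι : Type*} [CommRing S] (D : ℕ) (s : Finset ι) (u : ι → ℕ × ℕ → S) (x y z : S) :
    ev3 D (fun p => ∑ i ∈ s, u i p) x y z = ∑ i ∈ s, ev3 D (u i) x y z := by
  unfold ev3
  rw [Finset.sum_comm]
  apply Finset.sum_congr rfl
  intro p _
  rw [Finset.sum_mul, Finset.sum_mul, Finset.sum_mul]

theorem ev3_mul {S : Type*} [CommRing S] (D : ℕ) (t : S) (u : ℕ × ℕ → S) (x y z : S) :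
    ev3 D (fun p => t * u p) x y z = t * ev3 D u x y z := by
  unfold ev3
  rw [Finset.mul_sum]
  apply Finset.sum_congr rfl
  intro p _
  ring

theorem eval₂Hom_comp {S T T' σ : Type*} [CommRing S] [CommRing T] [CommRing T'] (φ : T →+* T')
    (f : S →+* T) (x : σ → T) (G : MvPolynomial σ S) :
    φ (MvPolynomial.eval₂Hom f x G) = MvPolynomial.eval₂Hom (φ.comp f) (fun i => φ (x i)) G := by
  rw [MvPolynomial.coe_eval₂Hom, MvPolynomial.coe_eval₂Hom, MvPolynomial.eval₂_comp_left]
  rfl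


/-- abstract form of the leading-term computation -/
theorem xi_abs {R : Type*} [CommRing R] [IsDomain R] (κ : PowerSeries k →+* R) (π : R)
    (hπ : Prime π) (g : Fin 9 → PowerSeries k) (ex ey ez : R)
    (hg : cub (fun i => κ (g i)) ex ey ez = 0) (xc yc zc : PowerSeries k)
    (hx : π ∣ ex - κ xc) (hy : π ∣ ey - κ yc) (hz : π ∣ ez - κ zc) (hzc : ¬ π ∣ κ zc) (al be : R)
    (hab : π ∣ al - be) (D m w : ℕ) (u : ℕ × ℕ → Polynomial (PowerSeries k))
    (hu : Van D m u (Polynomial.C xc) (Polynomial.C yc + Polynomial.X) (Polynomial.C zc))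
    (G : ℕ → MvPolynomial (Fin 3) (PowerSeries k))
    (hG1 : ∀ i ≤ w, (G i).IsHomogeneous (D - 3 * i))
    (hG2 : ∀ i ≤ w, FF D (fun p => (u p).coeff (w - i)) = Phi g ^ i * G i) :
    π ^ m ∣ ∑ i ∈ Finset.range (w + 1), (al * be ^ 2 * dcub (fun i => κ (g i)) ex ey ez) ^ i *
      (be ^ (D - 3 * i) * MvPolynomial.eval₂Hom κ ![ex, ey, ez] (G i)) := by
  obtain ⟨sx, hsx⟩ := hx
  obtain ⟨sy, hsy⟩ := hy
  obtain ⟨sz, hsz⟩ := hz
  obtain ⟨sa, hsa⟩ := hab
  have hPp : Prime (Polynomial.C π) := Polynomial.prime_C_iff.mpr hπ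
  let ψ : Polynomial (PowerSeries k) →+* Polynomial R := Polynomial.mapRingHom κ
  have hψC : ∀ s, ψ (Polynomial.C s) = Polynomial.C (κ s) := fun s => by simp [ψ]
  have hψX : ψ Polynomial.X = Polynomial.X := by simp [ψ]
  have hu' := Van.map (S := Polynomial (PowerSeries k)) (S' := Polynomial R) ψ hu
  rw [map_add, hψC, hψC, hψC, hψX] at hu'
  set x : Polynomial R := Polynomial.C (be * ex) with hx
  set y : Polynomial R := Polynomial.C (be * ey) + Polynomial.X * Polynomial.C al with hy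
  set z : Polynomial R := Polynomial.C (be * ez) with hzz
  have hd1 : Polynomial.C π ∣ Polynomial.C (κ zc) * x - Polynomial.C (κ xc) * z := by
    refine ⟨Polynomial.C (be * (sx * ez - sz * ex)), ?_⟩
    rw [hx, hzz, ← Polynomial.C_mul, ← Polynomial.C_mul, ← Polynomial.C_sub, ← Polynomial.C_mul]
    congr 1
    linear_combination be * ez * hsx - be * ex * hsz
  have hd2 : Polynomial.C π ∣ Polynomial.C (κ zc) * y
      - (Polynomial.C (κ yc) + Polynomial.X) * z := by
    refine ⟨Polynomial.C (be * (sy * ez - sz * ey))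
        + Polynomial.X * Polynomial.C (sa * κ zc - be * sz), ?_⟩
    have e1 : κ zc * (be * ey) - κ yc * (be * ez) = π * (be * (sy * ez - sz * ey)) := by
      linear_combination be * ez * hsy - be * ey * hsz
    have e2 : κ zc * al - be * ez = π * (sa * κ zc - be * sz) := by
      linear_combination κ zc * hsa - be * hsz
    have e1' := congrArg (Polynomial.C : R → Polynomial R) e1
    have e2' := congrArg (Polynomial.C : R → Polynomial R) e2
    simp only [Polynomial.C_mul, Polynomial.C_sub] at e1' e2' ⊢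
    rw [hy, hzz]
    simp only [Polynomial.C_mul, Polynomial.C_sub]
    linear_combination e1' + Polynomial.X * e2'
  have hdv := Van.dvd hu' x y z (Polynomial.C π) hd1 hd2
  have hzc' : ¬ Polynomial.C π ∣ Polynomial.C (κ zc) := by
    intro h
    have h1 := (Polynomial.C_dvd_iff_dvd_coeff _ _).mp h 0
    rw [Polynomial.coeff_C_zero] at h1
    exact hzc h1
  have hdv2 : Polynomial.C π ^ m ∣ ev3 D (fun p => ψ (u p)) x y z := by
    refine Prime.pow_dvd_of_dvd_mul_left hPp m ?_ hdv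
    intro h
    exact hzc' (hPp.dvd_of_dvd_pow h)
  set M : R := al * be ^ 2 * dcub (fun i => κ (g i)) ex ey ez with hM
  -- the expansion of Phi
  have hΦ : ∃ Q : Polynomial R, cub (fun i => Polynomial.C (κ (g i))) x y z
      = Polynomial.X * (Polynomial.C M + Polynomial.X * Q) := by
    refine ⟨(Polynomial.C al) ^ 2 * (Polynomial.C (κ (g 6)) * Polynomial.C be * Polynomial.C ez
      + Polynomial.C (κ (g 7)) * Polynomial.C be * Polynomial.C ex
      + 3 * Polynomial.C (κ (g 8)) * Polynomial.C be * Polynomial.C ey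
      + Polynomial.C (κ (g 8)) * (Polynomial.X * Polynomial.C al)), ?_⟩
    have e1 : cub (fun i => (Polynomial.C (κ (g i)) : Polynomial R)) (Polynomial.C ex)
        (Polynomial.C ey) (Polynomial.C ez) = 0 := by
      have := congrArg (Polynomial.C : R →+* Polynomial R) hg
      rw [map_cub, map_zero] at this
      exact this
    have e2 : dcub (fun i => (Polynomial.C (κ (g i)) : Polynomial R)) (Polynomial.C ex)
        (Polynomial.C ey) (Polynomial.C ez) = Polynomial.C (dcub (fun i => κ (g i)) ex ey ez) := by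
      unfold dcub
      simp only [map_add, map_mul, map_pow, map_ofNat]
    rw [hx, hy, hzz, Polynomial.C_mul, Polynomial.C_mul, Polynomial.C_mul, cub_expand, e1, e2, hM]
    simp only [map_mul, map_pow]
    ring
  obtain ⟨Q, hQ⟩ := hΦ
  clear_value M
  -- the truncation of u
  have hur : ∀ p, ∃ r : Polynomial (PowerSeries k), u p = (∑ i ∈ Finset.range (w + 1),
      Polynomial.X ^ (w - i) * Polynomial.C ((u p).coeff (w - i))) + Polynomial.X ^ (w + 1) * r := by
    intro p
    have h1 : Polynomial.X ^ (w + 1) ∣ u p - ∑ i ∈ Finset.range (w + 1),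
        Polynomial.X ^ (w - i) * Polynomial.C ((u p).coeff (w - i)) := by
      rw [Polynomial.X_pow_dvd_iff]
      intro d hd
      rw [Polynomial.coeff_sub, Polynomial.finsetSum_coeff]
      rw [Finset.sum_eq_single (w - d)]
      · have e : w - (w - d) = d := by omega
        rw [e, mul_comm, Polynomial.coeff_C_mul_X_pow, if_pos rfl, sub_self]
      · intro b hb hbd
        rw [Finset.mem_range] at hb
        rw [mul_comm, Polynomial.coeff_C_mul_X_pow, if_neg]
        omega
      · intro h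
        exfalso
        apply h
        rw [Finset.mem_range]; omega
    obtain ⟨r, hr⟩ := h1
    exact ⟨r, by linear_combination hr⟩
  choose r hr using hur
  have e1 : (fun p => ψ (u p)) = fun p => (∑ i ∈ Finset.range (w + 1),
      Polynomial.X ^ (w - i) * Polynomial.C (κ ((u p).coeff (w - i))))
        + Polynomial.X ^ (w + 1) * ψ (r p) := by
    funext p
    conv_lhs => rw [hr p]
    rw [map_add, map_sum, map_mul, map_pow, hψX]
    congr 1
    apply Finset.sum_congr rfl
    intro i _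
    rw [map_mul, map_pow, hψX, hψC]
  have hev : ev3 D (fun p => ψ (u p)) x y z = Polynomial.X ^ w * ((∑ i ∈ Finset.range (w + 1),
      (Polynomial.C M + Polynomial.X * Q) ^ i *
        MvPolynomial.eval₂Hom ((Polynomial.C : R →+* _).comp κ) ![x, y, z] (G i))
      + Polynomial.X * ev3 D (fun p => ψ (r p)) x y z) := by
    rw [e1, ev3_add, ev3_sum, ev3_mul, mul_add, Finset.mul_sum]
    congr 1
    · apply Finset.sum_congr rfl
      intro i hi
      rw [Finset.mem_range] at hi
      rw [ev3_mul]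
      have e2 : ev3 D (fun p => (Polynomial.C (κ ((u p).coeff (w - i))) : Polynomial R)) x y z
          = MvPolynomial.eval₂Hom ((Polynomial.C : R →+* _).comp κ) ![x, y, z]
            (FF D (fun p => (u p).coeff (w - i))) := by
        rw [eval₂_FF]; rfl
      rw [e2, hG2 i (by omega), map_mul, map_pow, eval₂_Phi]
      have e3 : (fun i => ((Polynomial.C : R →+* _).comp κ) (g i))
        = fun i => (Polynomial.C (κ (g i)) : Polynomial R) := rfl
      rw [e3, hQ, mul_pow]
      have e4 : (Polynomial.X : Polynomial R) ^ w = Polynomial.X ^ (w - i) * Polynomial.X ^ i := by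
        rw [← pow_add]; congr 1; omega
      rw [e4]; ring
    · rw [pow_succ]; ring
  -- coefficient of X^w
  have hco : π ^ m ∣ (ev3 D (fun p => ψ (u p)) x y z).coeff w := by
    have := hdv2
    rw [← Polynomial.C_pow] at this
    exact (Polynomial.C_dvd_iff_dvd_coeff _ _).mp this w
  rw [hev] at hco
  have e5 := Polynomial.coeff_X_pow_mul ((∑ i ∈ Finset.range (w + 1),
      (Polynomial.C M + Polynomial.X * Q) ^ i *
        MvPolynomial.eval₂Hom ((Polynomial.C : R →+* _).comp κ) ![x, y, z] (G i))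
      + Polynomial.X * ev3 D (fun p => ψ (r p)) x y z) w 0
  rw [zero_add] at e5
  rw [e5, Polynomial.coeff_zero_eq_eval_zero, Polynomial.eval_add, Polynomial.eval_finsetSum,
    Polynomial.eval_mul, Polynomial.eval_X, zero_mul, add_zero] at hco
  convert hco using 1
  apply Finset.sum_congr rfl
  intro i hi
  rw [Finset.mem_range] at hi
  rw [Polynomial.eval_mul, Polynomial.eval_pow, Polynomial.eval_add, Polynomial.eval_mul,
      Polynomial.eval_X, zero_mul, add_zero, Polynomial.eval_C]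
  congr 1
  have e8 := eval₂Hom_comp (Polynomial.evalRingHom (0 : R))
        ((Polynomial.C : R →+* _).comp κ) ![x, y, z] (G i)
  rw [Polynomial.coe_evalRingHom] at e8
  rw [e8]
  have e9 : (Polynomial.evalRingHom (0 : R)).comp ((Polynomial.C : R →+* _).comp κ) = κ := by
    ext s : 1
    simp
  have e10 : (fun j => Polynomial.eval (0 : R) ((![x, y, z] : Fin 3 → Polynomial R) j))
          = fun j => be * ((![ex, ey, ez] : Fin 3 → R) j) := by
    funext j
    fin_cases j
    · simp [hx]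
    · simp [hy]
    · simp [hzz]
  rw [e9, e10, eval₂_homog κ be _ (D - 3 * i) (G i) (hG1 i (by omega))]

/-- the leading form -/
def HH (a c : kˣ) (N D w : ℕ) (lc Qc : PowerSeries k) (Qf : RR k)
    (G : ℕ → MvPolynomial (Fin 3) (PowerSeries k)) : RR2 k :=
  ∑ i ∈ Finset.range (w + 1), K2 (lc ^ i * Qc ^ (D - i)) * zUV (evE a (G i)) * zUV Qf ^ i
    * AA c ^ i * AA 1 ^ (N - i)

theorem alg_id {R : Type*} [CommRing R] (l q Q A lh Bf s : R) (i w N D : ℕ) (hi : i ≤ w) (hwN : w ≤ N)
    (hND : N ≤ D) (h3 : 3 * w ≤ D) :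
    ((l * Q * A) * (q * lh * Bf) ^ 2 * lh) ^ i * ((q * lh * Bf) ^ (D - 3 * i) * s)
      = lh ^ D * Bf ^ (D - N) * (l ^ i * q ^ (D - i) * s * Q ^ i * A ^ i * Bf ^ (N - i)) := by
  obtain ⟨e, rfl⟩ := Nat.exists_eq_add_of_le hND
  obtain ⟨f, rfl⟩ := Nat.exists_eq_add_of_le (hi.trans hwN)
  obtain ⟨t, ht⟩ := Nat.exists_eq_add_of_le (show 3 * i ≤ i + f + e by omega)
  have h1 : i + f + e - 3 * i = t := by omega
  have h2 : i + f + e - i = f + e := by omega
  have h3 : i + f + e - (i + f) = e := by omega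
  have h4 : i + f - i = f := by omega
  rw [h1, h2, h3, h4]
  have h5 : f + e = 2 * i + t := by omega
  have h6 : lh ^ (i + f + e) = lh ^ (3 * i) * lh ^ t := by rw [← pow_add]; congr 1
  have h7 : q ^ (f + e) = q ^ (2 * i) * q ^ t := by rw [← pow_add]; congr 1
  have h8 : Bf ^ e * Bf ^ f = Bf ^ (2 * i) * Bf ^ t := by
    rw [← pow_add, ← pow_add]; congr 1; omega
  rw [h6, h7]
  linear_combination (-lh ^ (3 * i) * lh ^ t * l ^ i * (q ^ (2 * i) * q ^ t) * s * Q ^ i * A ^ i) * h8

theorem fibre_c (a : kˣ) (g : Fin 9 → PowerSeries k)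
    (hg : cub (fun i => KK (g i)) (Ex a) Ey (Ez a) = 0) (c : kˣ) (Qf : RR k)
    (hlam : EV c (lam a g) ≠ 0) (hz : EV c (Ez a) ≠ 0)
    (N D m w : ℕ) (hND : N ≤ D) (hwN : w ≤ N) (h3 : 3 * w ≤ D)
    (u : ℕ × ℕ → Polynomial (PowerSeries k))
    (hu : Van D m u (Polynomial.C (EV c (Ex a))) (Polynomial.C (EV c Ey) + Polynomial.X)
      (Polynomial.C (EV c (Ez a))))
    (G : ℕ → MvPolynomial (Fin 3) (PowerSeries k))
    (hG1 : ∀ i ≤ w, (G i).IsHomogeneous (D - 3 * i))
    (hG2 : ∀ i ≤ w, FF D (fun p => (u p).coeff (w - i)) = Phi g ^ i * G i) :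
    zUV (lin c) ^ m ∣ HH a c N D w (EV c (lam a g)) (EV c Qf * PowerSeries.C ((c⁻¹ : kˣ) : k)) Qf G := by
  set lc := EV c (lam a g) with hlc
  set qc := EV c Qf * PowerSeries.C ((c⁻¹ : kˣ) : k) with hqc
  have hp := zUV_lin_prime c
  have hab : zUV (lin c) ∣ (K2 lc * zUV Qf * AA c) - (K2 qc * zUV (lam a g) * AA 1) := by
    rw [zUV_lin_dvd_iff, map_sub, map_mul, map_mul, map_mul, map_mul, EV_xV_K2, EV_xV_K2,
      EV_xV_zUV, EV_xV_zUV, AA_rel, hqc, map_mul, ← hlc]
    have h1 : (KK (PowerSeries.C ((c⁻¹ : kˣ) : k)) : RR k) * KK (PowerSeries.C (c : k)) = 1 := by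
      rw [← map_mul, ← map_mul, Units.inv_mul, map_one, map_one]
    linear_combination (-KK lc * KK (EV c Qf) * EV (xV c) (AA c)) * h1
  have d1 : ∀ f : RR k, zUV (lin c) ∣ zUV f - K2 (EV c f) := by
    intro f
    rw [K2_apply, ← map_sub]
    exact map_dvd _ (lin_dvd_sub c f)
  have hg' : cub (fun i => K2 (g i)) (zUV (Ex a)) (zUV Ey) (zUV (Ez a)) = 0 := by
    have := congrArg (zUV : RR k →+* RR2 k) hg
    rw [map_cub, map_zero] at this
    exact this
  have hlam' : dcub (fun i => K2 (g i)) (zUV (Ex a)) (zUV Ey) (zUV (Ez a)) = zUV (lam a g) := by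
    unfold lam dcub
    simp only [map_add, map_mul, map_pow, map_ofNat]
    rfl
  have key := xi_abs K2 (zUV (lin c)) hp g _ _ _ hg' (EV c (Ex a)) (EV c Ey) (EV c (Ez a))
    (d1 _) (d1 _) (d1 _) (by rw [K2_apply, zUV_lin_dvd_zUV, EV_KK]; exact hz) _ _ hab D m w u hu G
    hG1 hG2
  rw [hlam'] at key
  have e6 : ∀ i ∈ Finset.range (w + 1), (K2 lc * zUV Qf * AA c * (K2 qc * zUV (lam a g) * AA 1) ^ 2
        * zUV (lam a g)) ^ i * ((K2 qc * zUV (lam a g) * AA 1) ^ (D - 3 * i) *
          MvPolynomial.eval₂Hom K2 ![zUV (Ex a), zUV Ey, zUV (Ez a)] (G i))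
      = zUV (lam a g) ^ D * AA 1 ^ (D - N) * (K2 (lc ^ i * qc ^ (D - i)) * zUV (evE a (G i))
        * zUV Qf ^ i * AA c ^ i * AA 1 ^ (N - i)) := by
    intro i hi
    rw [Finset.mem_range] at hi
    have e7 : MvPolynomial.eval₂Hom K2 ![zUV (Ex a), zUV Ey, zUV (Ez a)] (G i) = zUV (evE a (G i)) := by
      rw [evE_eq, eval₂Hom_comp]
      have : (fun j => zUV ((![Ex a, Ey, Ez a] : Fin 3 → RR k) j))
        = ![zUV (Ex a), zUV Ey, zUV (Ez a)] := by
        funext j
        fin_cases j <;> rfl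
      rw [this]; rfl
    have e8 : K2 (lc ^ i * qc ^ (D - i)) = K2 lc ^ i * K2 qc ^ (D - i) := by
      rw [map_mul K2, map_pow K2, map_pow K2]
    rw [e7, alg_id _ _ _ _ _ _ _ i w N D (by omega) hwN hND h3, e8]
  rw [Finset.sum_congr rfl e6, ← Finset.mul_sum] at key
  refine Prime.pow_dvd_of_dvd_mul_left hp m ?_ key
  intro h
  rcases hp.dvd_or_dvd h with h1 | h1
  · have h2 := hp.dvd_of_dvd_pow h1
    rw [zUV_lin_dvd_zUV] at h2
    exact hlam h2
  · have h2 := hp.dvd_of_dvd_pow h1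
    rw [zUV_lin_dvd_iff] at h2
    exact AA_ne_zero c h2

end Pool.Agent.H957R2.SE
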