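import Pool.Agent.H957R2.SE.Theta

/-! Module F: two-variable quasi-periodicity. -/

noncomputable section

open PowerSeries

namespace Pool.Agent.H957R2.SE

section F
variable {k : Type*} [Field k]

/-- The unit `y V^e` (inner variable). -/
def yV (y : kˣ) (e : ℤ) : (LP k)ˣ := uC y * uT ^ e

theorem yV_val (y : kˣ) (e : ℤ) :
    ((yV y e : (LP k)ˣ) : LP k) = LaurentPolynomial.C (y : k) * LaurentPolynomial.T e := by
  unfold yV
  rw [Units.val_mul, uT_zpow, uC_val]

theorem yV_zpow (y : kˣ) (e m : ℤ) :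
    ((yV y e ^ m : (LP k)ˣ) : LP k)
      = LaurentPolynomial.C ((y ^ m : kˣ) : k) * LaurentPolynomial.T (e * m) := by
  unfold yV
  rw [mul_zpow, ← zpow_mul, uC_zpow, Units.val_mul, uT_zpow, uC_val]

theorem coeff_C_mul_T_mul {B : Type*} [CommRing B] (a : B) (p : LP B) (e l : ℤ) :
    (LaurentPolynomial.C a * LaurentPolynomial.T e * p).coeff l = a * p.coeff (l - e) := by
  rw [← LaurentPolynomial.single_eq_C_mul_T, AddMonoidAlgebra.coeff_single_mul_apply,
    neg_add_eq_sub]

theorem c2_lin_mul (y : kˣ) (e : ℤ) (g : RR2 k) (m l j : ℤ) :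
    c2 (lin (yV y e) * g) m l j = c2 g (m - 1) l j - y * c2 g m (l - e) j := by
  unfold c2 lin
  by_cases hj : 0 ≤ j
  · obtain ⟨j, rfl⟩ := Int.eq_ofNat_of_zero_le hj
    rw [cf_nat, cf_nat, cf_nat, PowerSeries.coeff_C_mul, sub_mul, AddMonoidAlgebra.coeff_sub,
      Finsupp.sub_apply, AddMonoidAlgebra.coeff_sub, Finsupp.sub_apply]
    congr 1
    · have := coeff_C_mul_T_mul (1 : LP k) (PowerSeries.coeff j g) 1 m
      rw [map_one, one_mul, one_mul] at this
      rw [uT_val, this]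
    · have := coeff_C_mul_T_mul (yV y e : LP k) (PowerSeries.coeff j g) 0 m
      rw [LaurentPolynomial.T_zero, mul_one, sub_zero] at this
      rw [this, yV_val, coeff_C_mul_T_mul]
  · rw [cf_of_neg _ _ (not_le.1 hj), cf_of_neg _ _ (not_le.1 hj), cf_of_neg _ _ (not_le.1 hj)]
    simp

theorem cf_large {B : Type*} [CommRing B] (f : RR B) (j : ℤ) :
    ∃ M : ℤ, ∀ m, M < m → cf f m j = 0 := by
  have h := (cf_finite f j).bddAbove
  obtain ⟨M, hM⟩ := h
  refine ⟨M, fun m hm => ?_⟩
  by_contra hc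
  exact absurd (hM hc) (not_le.2 hm)

theorem QP2_div (y : kˣ) (e δ₁ δ₂ c : ℤ) (C₀ : k) (g : RR2 k)
    (h : QP2 e δ₁ δ₂ c C₀ (lin (yV y e) * g)) : QP2 e δ₁ δ₂ (c - e) C₀ g := by
  have hD : ∀ m l j : ℤ, c2 g (m - 1) l (j - (e * (m - 1) + l))
        - C₀ * c2 g (m - 1 + δ₁) (l + δ₂) (j - (c - e))
      = y * (c2 g m (l - e) (j - (e * m + (l - e)))
        - C₀ * c2 g (m + δ₁) (l - e + δ₂) (j - (c - e))) := by
    intro m l j
    have h1 := h m l (j + e)
    rw [c2_lin_mul, c2_lin_mul] at h1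
    rw [show j + e - (e * m + l) = j - (e * (m - 1) + l) by ring,
      show j + e - c = j - (c - e) by ring, show l + δ₂ - e = l - e + δ₂ by ring,
      show m + δ₁ - 1 = m - 1 + δ₁ by ring] at h1
    rw [show j - (e * m + (l - e)) = j - (e * (m - 1) + l) by ring]
    linear_combination h1
  have hD2 : ∀ (N : ℕ) (m l j : ℤ), c2 g m l (j - (e * m + l))
        - C₀ * c2 g (m + δ₁) (l + δ₂) (j - (c - e))
      = (y : k) ^ N * (c2 g (m + N) (l - e * N) (j - (e * (m + N) + (l - e * N)))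
        - C₀ * c2 g (m + N + δ₁) (l - e * N + δ₂) (j - (c - e))) := by
    intro N
    induction N with
    | zero => intro m l j; simp
    | succ N ih =>
      intro m l j
      rw [ih m l j]
      have h2 := hD (m + N + 1) (l - e * N) j
      rw [show m + (N : ℤ) + 1 - 1 = m + N by ring] at h2
      rw [h2, pow_succ]
      push_cast
      rw [show m + ((N : ℤ) + 1) = m + N + 1 by ring,
        show l - e * ((N : ℤ) + 1) = l - e * N - e by ring]
      ring
  intro m l j
  have hz : c2 g m l (j - (e * m + l)) - C₀ * c2 g (m + δ₁) (l + δ₂) (j - (c - e)) = 0 := by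
    obtain ⟨M1, hM1⟩ := cf_large g (j - (e * m + l))
    obtain ⟨M2, hM2⟩ := cf_large g (j - (c - e))
    have hN : ∃ N : ℕ, M1 < m + N ∧ M2 < m + N + δ₁ := by
      refine ⟨(M1 - m + 1).toNat + (M2 - m - δ₁ + 1).toNat, ?_, ?_⟩ <;> push_cast <;> omega
    obtain ⟨N, hN1, hN2⟩ := hN
    rw [hD2 N m l j]
    rw [show j - (e * (m + (N : ℤ)) + (l - e * N)) = j - (e * m + l) by ring]
    unfold c2
    rw [hM1 _ hN1, hM2 _ hN2]
    simp
  linear_combination hz

theorem coeff_eval_yV (y : kˣ) (e : ℤ) (p : LP2 k) (N : ℤ) :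
    (LaurentPolynomial.eval₂ (RingHom.id (LP k)) (yV y e) p).coeff N
      = ∑ᶠ m : ℤ, ((y ^ m : kˣ) : k) * (p.coeff m).coeff (N - e * m) := by
  have hfin : ∀ q : LP2 k, (Function.support fun m : ℤ =>
      ((y ^ m : kˣ) : k) * (q.coeff m).coeff (N - e * m)).Finite := by
    intro q
    refine q.coeff.hasFiniteSupport.subset ?_
    intro m hm hq
    apply hm
    have : q.coeff m = 0 := hq
    simp [this]
  induction p using LaurentPolynomial.induction_on' with
  | add p q hp hq =>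
    rw [map_add, AddMonoidAlgebra.coeff_add, Finsupp.add_apply, hp, hq,
      ← finsum_add_distrib (hfin p) (hfin q)]
    apply finsum_congr
    intro m
    rw [AddMonoidAlgebra.coeff_add, Finsupp.add_apply, AddMonoidAlgebra.coeff_add,
      Finsupp.add_apply, mul_add]
  | C_mul_T n a =>
    rw [LaurentPolynomial.eval₂_C_mul_T, RingHom.id_apply, yV_zpow,
      mul_comm a, coeff_C_mul_T_mul]
    rw [finsum_eq_single _ n]
    · rw [← LaurentPolynomial.single_eq_C_mul_T, AddMonoidAlgebra.coeff_single,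
        Finsupp.single_eq_same]
    · intro m hm
      rw [← LaurentPolynomial.single_eq_C_mul_T, AddMonoidAlgebra.coeff_single,
        Finsupp.single_eq_of_ne hm]
      simp

theorem cf_EV_yV (y : kˣ) (e : ℤ) (g : RR2 k) (N j : ℤ) :
    cf (EV (yV y e) g) N j = ∑ᶠ m : ℤ, ((y ^ m : kˣ) : k) * c2 g m (N - e * m) j := by
  unfold c2
  by_cases hj : 0 ≤ j
  · obtain ⟨j, rfl⟩ := Int.eq_ofNat_of_zero_le hj
    simp only [cf_nat]
    unfold EV
    rw [PowerSeries.coeff_map, coeff_eval_yV]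
  · simp only [cf_of_neg _ _ (not_le.1 hj)]
    simp

theorem cf_EV_supp (y : kˣ) (e : ℤ) (g : RR2 k) (N j : ℤ) :
    (Function.support fun m : ℤ => ((y ^ m : kˣ) : k) * c2 g m (N - e * m) j).Finite := by
  refine (cf_finite g j).subset ?_
  intro m hm hq
  apply hm
  have : cf g m j = 0 := hq
  simp [c2, this]

theorem QP2_res (y : kˣ) (e δ₁ δ₂ c : ℤ) (C₀ : k) (g : RR2 k)
    (h : QP2 e δ₁ δ₂ c C₀ g) :
    QP (e * δ₁ + δ₂) c (C₀ * ((y ^ (-δ₁) : kˣ) : k)) (EV (yV y e) g) := by
  intro N j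
  rw [cf_EV_yV, cf_EV_yV, mul_finsum' _ _ (cf_EV_supp y e g _ _)]
  rw [← finsum_comp_equiv (Equiv.addRight δ₁) (f := fun m : ℤ => C₀ * ((y ^ (-δ₁) : kˣ) : k) *
    (((y ^ m : kˣ) : k) * c2 g m (N + (e * δ₁ + δ₂) - e * m) (j - c)))]
  apply finsum_congr
  intro m
  rw [Equiv.coe_addRight]
  have h1 := h m (N - e * m) j
  rw [show j - (e * m + (N - e * m)) = j - N by ring] at h1
  rw [h1, show N + (e * δ₁ + δ₂) - e * (m + δ₁) = N - e * m + δ₂ by ring, zpow_add, zpow_neg,
    Units.val_mul]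
  have h2 : (((y ^ δ₁)⁻¹ : kˣ) : k) * ((y ^ δ₁ : kˣ) : k) = 1 := by
    rw [← Units.val_mul]; simp
  linear_combination -(C₀ * ((y ^ m : kˣ) : k) * c2 g (m + δ₁) (N - e * m + δ₂) (j - c)) * h2

theorem coeff2_add (p q : LP2 k) (m l : ℤ) :
    ((p + q).coeff m).coeff l = (p.coeff m).coeff l + (q.coeff m).coeff l := by
  rw [AddMonoidAlgebra.coeff_add, Finsupp.add_apply, AddMonoidAlgebra.coeff_add,
      Finsupp.add_apply]

theorem coeff2_mono (a : k) (n n' m l : ℤ) :
    ((LaurentPolynomial.C (LaurentPolynomial.C a * LaurentPolynomial.T n') * LaurentPolynomial.T n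
      : LP2 k).coeff m).coeff l = if n = m ∧ n' = l then a else 0 := by
  rw [← LaurentPolynomial.single_eq_C_mul_T, AddMonoidAlgebra.coeff_single]
  by_cases hm : n = m
  · subst hm
    rw [Finsupp.single_eq_same, ← LaurentPolynomial.single_eq_C_mul_T,
      AddMonoidAlgebra.coeff_single]
    by_cases hl : n' = l
    · subst hl
      rw [Finsupp.single_eq_same, if_pos ⟨rfl, rfl⟩]
    · rw [Finsupp.single_eq_of_ne (Ne.symm hl), if_neg (fun h => hl h.2)]
  · rw [Finsupp.single_eq_of_ne (Ne.symm hm), if_neg (fun h => hm h.1)]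
    rfl

theorem coeff_swp (p : LP2 k) (m l : ℤ) : ((swp p).coeff m).coeff l = (p.coeff l).coeff m := by
  induction p using LaurentPolynomial.induction_on' with
  | add p q hp hq => rw [map_add, coeff2_add, coeff2_add, hp, hq]
  | C_mul_T n p =>
    induction p using LaurentPolynomial.induction_on' with
    | add p q hp hq =>
      rw [map_add, add_mul, map_add, coeff2_add, coeff2_add, hp, hq]
    | C_mul_T n' a =>
      have h1 : swp (LaurentPolynomial.C (LaurentPolynomial.C a * LaurentPolynomial.T n')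
          * LaurentPolynomial.T n : LP2 k)
          = LaurentPolynomial.C (LaurentPolynomial.C a * LaurentPolynomial.T n)
            * LaurentPolynomial.T n' := by
        unfold swp
        rw [LaurentPolynomial.eval₂_C_mul_T, LaurentPolynomial.eval₂_C_mul_T]
        unfold uU uV
        rw [uT_zpow, uC_zpow, uC_val, uT_zpow, map_mul]
        unfold i2
        rw [RingHom.comp_apply]
        ring
      rw [h1, coeff2_mono, coeff2_mono]
      simp only [and_comm]

theorem c2_Sw (f : RR2 k) (m l j : ℤ) : c2 (Sw f) m l j = c2 f l m j := by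
  unfold c2
  by_cases hj : 0 ≤ j
  · obtain ⟨j, rfl⟩ := Int.eq_ofNat_of_zero_le hj
    simp only [cf_nat]
    unfold Sw
    rw [PowerSeries.coeff_map, coeff_swp]
  · simp only [cf_of_neg _ _ (not_le.1 hj)]
    rfl

theorem QP2_of_sym (n : ℤ) (C₁ : k) (f : RR2 k) (hs : Sw f = f)
    (h : ∀ m l j : ℤ, c2 f m l (j - m) = C₁ * c2 f (m + 19 * n) (l - 18 * n) j) :
    QP2 0 (-18 * n) (19 * n) 0 C₁ f ∧ QP2 1 n n (18 * n) (C₁ ^ 2) f := by
  have hsym : ∀ m l j : ℤ, c2 f m l j = c2 f l m j := by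
    intro m l j
    conv_lhs => rw [← hs]
    rw [c2_Sw]
  have h1 : QP2 0 (-18 * n) (19 * n) 0 C₁ f := by
    intro m l j
    rw [show j - (0 * m + l) = j - l by ring, hsym m l, h l m j, hsym, sub_zero,
      show m - 18 * n = m + -18 * n by ring]
  refine ⟨h1, ?_⟩
  intro m l j
  have h2 := h m l (j - l)
  have h3 := h1 (m + 19 * n) (l - 18 * n) (j - 18 * n)
  rw [show j - 18 * n - (0 * (m + 19 * n) + (l - 18 * n)) = j - l by ring,
    show m + 19 * n + -18 * n = m + n by ring, show l - 18 * n + 19 * n = l + n by ring,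
    sub_zero] at h3
  rw [show j - (1 * m + l) = j - l - m by ring, h2, h3]
  ring

end F

end Pool.Agent.H957R2.SE
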