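import Pool.Agent.H957R2.SE.RL
import Pool.Agent.H957R2.SE.QP2

/-! # Module G: the induction -/

noncomputable section

open PowerSeries

namespace Pool.Agent.H957R2.SE

/-! ### Generalities -/

theorem lp_hom_ext {A S : Type*} [CommRing A] [CommRing S] {f g : LP A →+* S}
    (hC : ∀ a, f (LaurentPolynomial.C a) = g (LaurentPolynomial.C a))
    (hT : f (LaurentPolynomial.T 1) = g (LaurentPolynomial.T 1)) : f = g := by
  apply IsLocalization.ringHom_ext (Submonoid.powers (Polynomial.X : Polynomial A))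
  apply Polynomial.ringHom_ext
  · intro a
    simp only [RingHom.coe_comp, Function.comp_apply, LaurentPolynomial.algebraMap_eq_toLaurent,
      Polynomial.toLaurent_C, hC]
  · simp only [RingHom.coe_comp, Function.comp_apply, LaurentPolynomial.algebraMap_eq_toLaurent,
      Polynomial.toLaurent_X, hT]

theorem ev2_C {A S : Type*} [CommRing A] [CommRing S] (f : A →+* S) (u : Sˣ) (a : A) :
    LaurentPolynomial.eval₂ f u (LaurentPolynomial.C a) = f a :=
  LaurentPolynomial.eval₂_C f u a

theorem ev2_T {A S : Type*} [CommRing A] [CommRing S] (f : A →+* S) (u : Sˣ) (n : ℤ) :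
    LaurentPolynomial.eval₂ f u (LaurentPolynomial.T n : LP A) = ((u ^ n : Sˣ) : S) :=
  LaurentPolynomial.eval₂_T f u n

section Main
variable {k : Type*} [Field k]

theorem ep_prime : Prime (ep (k := k)) := prime_C_of_prime PowerSeries.X_prime

theorem ep_not_dvd {a : Polynomial k} (ha : a ≠ 0) :
    ¬ (ep (k := k)) ∣ PowerSeries.C (PowerSeries.C a) := by
  rintro ⟨g, hg⟩
  have := congrArg (fun z => PowerSeries.constantCoeff (PowerSeries.constantCoeff z)) hg
  simp [ep] at this
  exact ha this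

/-- Evaluation `T ↦ v + ε`. -/
def uv (v : kˣ) : (PowerSeries k)ˣ :=
  (PowerSeries.isUnit_iff_constantCoeff.mpr (by
    rw [map_add, PowerSeries.constantCoeff_X, add_zero, PowerSeries.constantCoeff_C]
    exact v.isUnit) :
      IsUnit (PowerSeries.C (v : k) + PowerSeries.X)).unit

theorem uv_val (v : kˣ) : ((uv v : (PowerSeries k)ˣ) : PowerSeries k)
    = PowerSeries.C (v : k) + PowerSeries.X := IsUnit.unit_spec _

theorem vE_valG (v : kˣ) : ((vE v : (PowerSeries (Polynomial k))ˣ) : PowerSeries (Polynomial k))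
    = PowerSeries.C (Polynomial.C (v : k)) + PowerSeries.X := IsUnit.unit_spec _

theorem uE_valG : ((uE : (PowerSeries (Polynomial k))ˣ) : PowerSeries (Polynomial k))
    = 1 + PowerSeries.X * PowerSeries.C (Polynomial.X : Polynomial k) := IsUnit.unit_spec _

/-- `T ↦ v + ε`. -/
def tau (v : kˣ) : LP k →+* PowerSeries k := LaurentPolynomial.eval₂ PowerSeries.C (uv v)

theorem tau_lin (v : kˣ) : PowerSeries.map (tau v) (lin v) = PowerSeries.C PowerSeries.X := by
  unfold lin
  rw [PowerSeries.map_C]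
  congr 1
  rw [map_sub, uT_val]
  unfold tau
  rw [ev2_T, ev2_C, zpow_one, uv_val]
  ring

theorem dvd_of_tau (v : kˣ) (m : ℕ) (f : RR k)
    (h : (PowerSeries.C (PowerSeries.X : PowerSeries k)) ^ m ∣ PowerSeries.map (tau v) f) :
    lin v ^ m ∣ f := by
  induction m generalizing f with
  | zero => simp
  | succ m ih =>
    have h1 : EV v f = 0 := by
      obtain ⟨g, hg⟩ := h
      have h2 : EV v f = PowerSeries.map (PowerSeries.constantCoeff) (PowerSeries.map (tau v) f) := by
        unfold EV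
        rw [← RingHom.comp_apply, ← PowerSeries.map_comp]
        congr 1
        congr 1
        apply lp_hom_ext
        · intro a
          rw [ev2_C, RingHom.comp_apply]
          unfold tau
          rw [ev2_C]
          simp
        · rw [ev2_T, RingHom.comp_apply]
          unfold tau
          rw [ev2_T]
          simp [uv_val]
      rw [h2, hg, map_mul, map_pow, PowerSeries.map_C]
      simp
    rw [EV_eq_zero_iff] at h1
    obtain ⟨g, rfl⟩ := h1
    rw [pow_succ']
    apply mul_dvd_mul_left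
    apply ih
    rw [map_mul, tau_lin, pow_succ'] at h
    refine (mul_dvd_mul_iff_left ?_).mp h
    intro h0
    have h3 := PowerSeries.C_injective (R := PowerSeries k) (h0.trans (map_zero _).symm)
    exact PowerSeries.X_ne_zero h3

theorem BT_res (v : kˣ) (w : k) (y : kˣ) (e : ℤ)
    (hw : (1 + PowerSeries.X * PowerSeries.C w : PowerSeries k)
      = PowerSeries.C (y : k) * (((uv v) ^ e : (PowerSeries k)ˣ) : PowerSeries k)) (g : RR2 k) :
    PowerSeries.map (PowerSeries.map (Polynomial.evalRingHom w)) (BT v g)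
      = PowerSeries.map (tau v) (EV (yV y e) g) := by
  unfold BT EV
  rw [← RingHom.comp_apply, ← PowerSeries.map_comp, ← RingHom.comp_apply (PowerSeries.map (tau v)),
    ← PowerSeries.map_comp]
  congr 1
  congr 1
  apply lp_hom_ext
  · intro a
    rw [RingHom.comp_apply, RingHom.comp_apply, ev2_C, RingHom.id_apply]
    unfold bt
    rw [ev2_C]
    refine DFunLike.congr_fun (f := ((PowerSeries.map (Polynomial.evalRingHom w)).comp
      (LaurentPolynomial.eval₂ ((PowerSeries.C : Polynomial k →+* _).comp Polynomial.C) (vE v))))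
      (g := tau v) ?_ a
    apply lp_hom_ext
    · intro a
      rw [RingHom.comp_apply, ev2_C]
      unfold tau
      rw [ev2_C, RingHom.comp_apply, PowerSeries.map_C]
      simp
    · rw [RingHom.comp_apply, ev2_T]
      unfold tau
      rw [ev2_T, zpow_one, zpow_one, vE_valG, uv_val, map_add, PowerSeries.map_C,
        PowerSeries.map_X]
      simp
  · rw [RingHom.comp_apply, RingHom.comp_apply, ev2_T, zpow_one, yV_val, map_mul]
    unfold bt
    rw [ev2_T, zpow_one, uE_valG]
    unfold tau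
    rw [ev2_T, ev2_C, ← hw]
    rw [map_add, map_mul, map_one, PowerSeries.map_C, PowerSeries.map_X]
    simp

theorem ord_res_aux (v : kˣ) (w : k) (y : kˣ) (e : ℤ)
    (hw : (1 + PowerSeries.X * PowerSeries.C w : PowerSeries k)
      = PowerSeries.C (y : k) * (((uv v) ^ e : (PowerSeries k)ˣ) : PowerSeries k)) (g : RR2 k)
    (m : ℕ) (h : ep ^ m ∣ BT v g) : lin v ^ m ∣ EV (yV y e) g := by
  apply dvd_of_tau
  rw [← BT_res v w y e hw]
  have h1 := map_dvd (PowerSeries.map (PowerSeries.map (Polynomial.evalRingHom w))) h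
  rw [map_pow] at h1
  have h2 : PowerSeries.map (PowerSeries.map (Polynomial.evalRingHom w)) (ep (k := k))
      = PowerSeries.C PowerSeries.X := by
    unfold ep
    rw [PowerSeries.map_C, PowerSeries.map_X]
  rwa [h2] at h1

/-- restriction of the `ε`-adic order to the curve `U = 1` -/
theorem ord_res0 (v : kˣ) (g : RR2 k) (m : ℕ) (h : ep ^ m ∣ BT v g) :
    lin v ^ m ∣ EV (yV 1 0) g := by
  apply ord_res_aux v 0 1 0 _ g m h
  simp

/-- restriction of the `ε`-adic order to the curve `U = V/v` -/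
theorem ord_res1 (v : kˣ) (g : RR2 k) (m : ℕ) (h : ep ^ m ∣ BT v g) :
    lin v ^ m ∣ EV (yV v⁻¹ 1) g := by
  apply ord_res_aux v ((v⁻¹ : kˣ) : k) v⁻¹ 1 _ g m h
  rw [zpow_one, uv_val, mul_add, ← map_mul, Units.inv_mul, map_one, mul_comm]


/-! ### The swap -/

theorem swp_CC (b : LP k) : swp (LaurentPolynomial.C b) = LaurentPolynomial.eval₂ i2 uU b := by
  unfold swp
  rw [ev2_C]

theorem swp_C (a : k) : swp (LaurentPolynomial.C (LaurentPolynomial.C a)) =
    LaurentPolynomial.C (LaurentPolynomial.C a) := by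
  rw [swp_CC, ev2_C]
  rfl

theorem swp_V (n : ℤ) : swp (LaurentPolynomial.C (LaurentPolynomial.T n : LP k)) =
    LaurentPolynomial.T n := by
  rw [swp_CC, ev2_T]
  exact uT_zpow n

theorem swp_U : swp (LaurentPolynomial.T 1 : LP2 k) =
    LaurentPolynomial.C (LaurentPolynomial.T 1) := by
  unfold swp
  rw [ev2_T, zpow_one]
  rfl

theorem swp_swp : (swp (k := k)).comp swp = RingHom.id _ := by
  apply lp_hom_ext
  · intro a
    refine DFunLike.congr_fun (f := ((swp (k := k)).comp swp).comp LaurentPolynomial.C)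
      (g := (RingHom.id _).comp LaurentPolynomial.C) ?_ a
    apply lp_hom_ext
    · intro a
      simp only [RingHom.comp_apply, swp_C, RingHom.id_apply]
    · simp only [RingHom.comp_apply, swp_V, swp_U, RingHom.id_apply]
  · simp only [RingHom.comp_apply, swp_V, swp_U, RingHom.id_apply]

theorem Sw_Sw (f : RR2 k) : Sw (Sw f) = f := by
  unfold Sw
  rw [← RingHom.comp_apply, ← PowerSeries.map_comp, swp_swp]
  simp

theorem Sw_lin0 (y : kˣ) : Sw (lin (yV y 0)) = KK (lin y) := by
  unfold Sw lin KK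
  rw [PowerSeries.map_C, PowerSeries.map_C, map_sub swp, yV_val, LaurentPolynomial.T_zero,
    mul_one, swp_C, uT_val, swp_U, uT_val, map_sub LaurentPolynomial.C]

theorem KK_lin_prime (y : kˣ) : Prime (KK (lin y) : RR2 k) := by
  have h1 : Prime (lin (yV y 0)) := lin_prime _
  have h2 : Function.Bijective (Sw (k := k)) :=
    ⟨fun a b h => by rw [← Sw_Sw a, h, Sw_Sw], fun a => ⟨Sw a, Sw_Sw a⟩⟩
  have h3 := (MulEquiv.prime_iff (RingEquiv.ofBijective Sw h2)).mpr h1
  rw [← Sw_lin0]
  exact h3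

theorem Sw_lin1 (y : kˣ) : Sw (lin (yV y 1)) =
    PowerSeries.C (LaurentPolynomial.C (LaurentPolynomial.C (-(y : k)))) * lin (yV y⁻¹ 1) := by
  unfold Sw lin
  rw [PowerSeries.map_C, ← map_mul, map_sub, yV_val, yV_val, map_mul, map_mul, swp_C, swp_V,
    uT_val, swp_U]
  congr 1
  have h : (LaurentPolynomial.C (LaurentPolynomial.C (y : k)) : LP2 k) *
    LaurentPolynomial.C (LaurentPolynomial.C ((y⁻¹ : kˣ) : k)) = 1 := by
    rw [← map_mul, ← map_mul, Units.mul_inv, map_one, map_one]
  rw [map_mul, map_neg, map_neg]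
  linear_combination (-(LaurentPolynomial.C (LaurentPolynomial.T 1) : LP2 k)) * h

theorem sym0 {H : RR2 k} (hs : Sw H = H) {y : kˣ} {r : ℕ} (h : lin (yV y 0) ^ r ∣ H) :
    KK (lin y) ^ r ∣ H := by
  have h1 := map_dvd Sw h
  rwa [map_pow, hs, Sw_lin0] at h1

theorem sym1 {H : RR2 k} (hs : Sw H = H) {y : kˣ} {r : ℕ} (h : lin (yV y 1) ^ r ∣ H) :
    lin (yV y⁻¹ 1) ^ r ∣ H := by
  have h1 := map_dvd Sw h
  rw [map_pow, hs, Sw_lin1] at h1
  exact dvd_trans (pow_dvd_pow_of_dvd (Dvd.intro_left _ rfl) r) h1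

/-! ### Divisibility lemmas -/

theorem lp_CT_inj {a b : k} {m n : ℤ} (ha : a ≠ 0)
    (h : (LaurentPolynomial.C a * LaurentPolynomial.T m : LP k) =
      LaurentPolynomial.C b * LaurentPolynomial.T n) : a = b ∧ m = n := by
  rw [← LaurentPolynomial.single_eq_C_mul_T, ← LaurentPolynomial.single_eq_C_mul_T] at h
  have h1 := congrArg (fun z => z.coeff m) h
  simp only [AddMonoidAlgebra.coeff_single, Finsupp.single_apply] at h1
  by_cases hmn : m = n
  · subst hmn
    refine ⟨?_, rfl⟩
    simpa using h1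
  · exfalso
    apply ha
    rw [if_neg (Ne.symm hmn)] at h1
    simpa using h1

theorem not_dvd1 (y y' : kˣ) (e e' : ℤ) (h : e ≠ e') : ¬ lin (yV y e) ∣ lin (yV y' e') := by
  intro hd
  rw [← EV_eq_zero_iff, EV_lin] at hd
  have h1 := PowerSeries.C_injective (hd.trans (map_zero _).symm)
  rw [sub_eq_zero, yV_val, yV_val] at h1
  exact h (lp_CT_inj y.ne_zero h1).2

theorem not_dvd2 (w y c : kˣ) (e : ℤ) (h : c ≠ y * w ^ e) : ¬ KK (lin w) ∣ lin (yV y e) := by
  intro hd
  have h1 := map_dvd (EV w) (map_dvd (EV (yV c 0)) hd)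
  rw [EV_KK, EV_lin, EV_lin, sub_self, map_zero, zero_dvd_iff] at h1
  unfold EV at h1
  rw [PowerSeries.map_C, map_sub, yV_val, yV_val, map_mul, map_mul, ev2_C, ev2_T, ev2_C, ev2_T]
    at h1
  have h2 := PowerSeries.C_injective (h1.trans (map_zero _).symm)
  apply h
  rw [sub_eq_zero] at h2
  apply Units.ext
  simpa using h2

theorem ep_pow_dvd {a : Polynomial k} (ha : a ≠ 0) (m r : ℕ)
    (G : PowerSeries (PowerSeries (Polynomial k)))
    (h : ep ^ m ∣ (ep * PowerSeries.C (PowerSeries.C a)) ^ r * G) : ep ^ (m - r) ∣ G := by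
  rcases le_total m r with hmr | hmr
  · rw [Nat.sub_eq_zero_of_le hmr, pow_zero]
    exact one_dvd _
  · obtain ⟨t, rfl⟩ := Nat.exists_eq_add_of_le hmr
    rw [Nat.add_sub_cancel_left]
    rw [pow_add, mul_pow, mul_assoc] at h
    have h1 := (mul_dvd_mul_iff_left (pow_ne_zero r ep_prime.ne_zero)).mp h
    refine ep_prime.pow_dvd_of_dvd_mul_left t ?_ h1
    intro h2
    exact ep_not_dvd ha (ep_prime.dvd_of_dvd_pow h2)

theorem BT_lin1 (x : kˣ) : BT x (lin (yV x⁻¹ 1)) = ep * PowerSeries.C (PowerSeries.C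
    (Polynomial.X - Polynomial.C ((x⁻¹ : kˣ) : k))) := by
  unfold BT lin ep
  rw [PowerSeries.map_C, ← map_mul]
  congr 1
  rw [map_sub, yV_val, map_mul, map_mul]
  unfold bt
  rw [uT_val, ev2_T, ev2_C, ev2_C, ev2_C, ev2_T, zpow_one, zpow_one, uE_valG, vE_valG, map_sub]
  simp only [RingHom.comp_apply]
  have h : (PowerSeries.C (Polynomial.C ((x⁻¹ : kˣ) : k)) : PowerSeries (Polynomial k)) *
    PowerSeries.C (Polynomial.C (x : k)) = 1 := by
    rw [← map_mul, ← map_mul, Units.inv_mul, map_one, map_one]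
  linear_combination -h

theorem BT_lin0 (x : kˣ) : BT x (lin (yV 1 0)) = ep * PowerSeries.C (PowerSeries.C
    (Polynomial.X : Polynomial k)) := by
  unfold BT lin ep
  rw [PowerSeries.map_C, ← map_mul]
  congr 1
  rw [map_sub, yV_val, map_mul, map_mul, LaurentPolynomial.T_zero]
  unfold bt
  rw [uT_val, ev2_T, zpow_one, uE_valG]
  simp

theorem QP2_div_pow (y : kˣ) (e δ₁ δ₂ : ℤ) (C₀ : k) (g : RR2 k) (r : ℕ) (c : ℤ)
    (h : QP2 e δ₁ δ₂ c C₀ (lin (yV y e) ^ r * g)) : QP2 e δ₁ δ₂ (c - r * e) C₀ g := by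
  induction r generalizing c with
  | zero => simpa using h
  | succ r ih =>
    rw [pow_succ', mul_assoc] at h
    have h1 := ih _ (QP2_div y e δ₁ δ₂ c C₀ _ h)
    convert h1 using 1
    push_cast
    ring

/-- Step (a) of the induction. -/
theorem stepA (x : kˣ) (hx : x ≠ 1) (n r : ℕ) (C₁ : kˣ)
    (hC : ∀ i : ℤ, |i| ≤ n → x ^ i ≠ C₁ ^ 2) (H : RR2 k)
    (hQ : QP2 1 n n (18 * n) ((C₁ : k) ^ 2) H) (h1 : ep ^ (2 * n) ∣ BT x H)
    (hA : lin (yV x⁻¹ 1) ^ r ∣ H) (hV : KK (lin 1) ^ r ∣ H) :
    lin (yV x⁻¹ 1) ^ (r + 1) ∣ H := by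
  obtain ⟨g, rfl⟩ := hA
  have hV' : KK (lin 1) ^ r ∣ g := by
    refine (KK_lin_prime 1).pow_dvd_of_dvd_mul_left r ?_ hV
    intro h2
    refine not_dvd2 1 x⁻¹ 1 1 ?_ ((KK_lin_prime 1).dvd_of_dvd_pow h2)
    rw [one_zpow, mul_one]
    intro h3
    exact hx (by rw [← inv_inv x, ← h3, inv_one])
  have hg : ep ^ (2 * n - r) ∣ BT x g := by
    rw [map_mul, map_pow, BT_lin1] at h1
    exact ep_pow_dvd (Polynomial.X_sub_C_ne_zero _) _ _ _ h1
  have hq := QP2_res x⁻¹ 1 n n _ _ g (QP2_div_pow _ _ _ _ _ _ _ _ hQ)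
  have hz : EV (yV x⁻¹ 1) g = 0 := by
    refine RL (Finset.univ : Finset (Fin 2)) ![x, 1] ?_ ![2 * n - r, r] (2 * n)
      (18 * n - r * 1) (C₁ ^ 2 * x⁻¹ ^ (-(n : ℤ))) _ ?_ ?_ ?_
    · intro i _ j _ hij
      fin_cases i <;> fin_cases j <;> simp_all
    · convert hq using 1
      · push_cast
        ring
      · push_cast
        rfl
    · intro i _
      fin_cases i
      · exact ord_res1 x g _ hg
      · have := map_dvd (EV (yV x⁻¹ 1)) hV'
        rw [map_pow, EV_KK] at this
        exact this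
    · rw [Fin.sum_univ_two, Fin.prod_univ_two]
      simp only [Matrix.cons_val_zero, Matrix.cons_val_one]
      rcases lt_or_ge (2 * n) r with hr | hr
      · left
        omega
      · right
        refine ⟨by omega, ?_⟩
        intro h3
        refine hC ((n : ℤ) - r) ?_ ?_
        · rw [abs_le]
          constructor <;> omega
        · have h4 : (-x) ^ (2 * n - r) * (-1) ^ r = x ^ (2 * n - r) := by
            rw [neg_pow x, mul_right_comm, ← pow_add, Nat.sub_add_cancel hr, pow_mul]
            simp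
          rw [h4, inv_zpow, zpow_neg, inv_inv, ← zpow_natCast] at h3
          rw [zpow_sub, mul_inv_eq_iff_eq_mul]
          have h5 : x ^ (((2 * n - r : ℕ)) : ℤ) * (x ^ (r : ℤ)) = C₁ ^ 2 * x ^ (n : ℤ) * x ^ (r : ℤ) := by
            rw [h3]
          rw [← zpow_add] at h5
          have h6 : (((2 * n - r : ℕ)) : ℤ) + r = n + n := by omega
          rw [h6, zpow_add, mul_right_comm] at h5
          exact mul_right_cancel h5
  rw [EV_eq_zero_iff] at hz
  rw [pow_succ]
  exact mul_dvd_mul_left _ hz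

theorem noeth (A : Type*) [CommRing A] [IsNoetherianRing A] : IsNoetherianRing (LP A) :=
  IsLocalization.isNoetherianRing (Submonoid.powers (Polynomial.X : Polynomial A)) _ inferInstance

theorem eq_zero_of_pow (x : (LP k)ˣ) (H : RR2 k) (h : ∀ r : ℕ, lin x ^ r ∣ H) : H = 0 := by
  have : IsNoetherianRing (LP k) := noeth k
  have : IsNoetherianRing (LP2 k) := noeth (LP k)
  ext j : 1
  rw [map_zero]
  by_contra hne
  have hu : ¬ IsUnit (((uT : (LP2 k)ˣ) : LP2 k) - LaurentPolynomial.C (x : LP k)) := by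
    intro hu
    exact (lin_prime x).not_isUnit (hu.map PowerSeries.C)
  have hf := FiniteMultiplicity.of_not_isUnit hu hne
  obtain ⟨r, hr⟩ := hf
  apply hr
  obtain ⟨g, hg⟩ := h (r + 1)
  refine ⟨PowerSeries.coeff j g, ?_⟩
  rw [hg]
  unfold lin
  rw [← map_pow, PowerSeries.coeff_C_mul]

/-- The induction. -/
theorem H1_zero (ξ : kˣ) (hξ : ∀ i : ℤ, i ≠ 0 → ξ ^ i ≠ 1) (n : ℕ) (hn : 0 < n) (H : RR2 k)
    (hs : Sw H = H)
    (hQ : ∀ m l j : ℤ, c2 H m l (j - m)
      = ((-1) ^ n * ((ξ ^ (45 * n : ℤ) : kˣ) : k)) * c2 H (m + 19 * n) (l - 18 * n) j)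
    (h1 : ∀ j ∈ Finset.Icc (1 : ℕ) 9, ep ^ (2 * n) ∣ BT (ξ ^ (j : ℤ)) H)
    (h2 : ep ^ n ∣ BT (ξ ^ (-45 : ℤ)) H) : H = 0 := by
  have hinj : ∀ i j : ℤ, ξ ^ i = ξ ^ j → i = j := by
    intro i j hij
    by_contra hne
    apply hξ (i - j) (sub_ne_zero.mpr hne)
    rw [zpow_sub, hij, mul_inv_cancel]
  set C₁ : kˣ := (-1) ^ n * ξ ^ (45 * n : ℤ) with hC₁
  have hC₁v : ((C₁ : kˣ) : k) = (-1) ^ n * ((ξ ^ (45 * n : ℤ) : kˣ) : k) := by
    rw [hC₁]; push_cast; rfl
  obtain ⟨hQ0, hQ1⟩ := QP2_of_sym (n : ℤ) (C₁ : k) H hs (by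
    intro m l j
    rw [hQ, hC₁v])
  have hC2 : C₁ ^ 2 = ξ ^ (90 * n : ℤ) := by
    rw [hC₁, mul_pow, ← pow_mul, mul_comm n 2, pow_mul, ← zpow_natCast (ξ ^ (45 * n : ℤ)),
      ← zpow_mul]
    simp
    congr 1
    ring
  have key : ∀ r : ℕ, (∀ j ∈ Finset.Icc (1 : ℕ) 9, lin (yV (ξ ^ (j : ℤ))⁻¹ 1) ^ r ∣ H) ∧
      lin (yV 1 0) ^ r ∣ H := by
    intro r
    induction r with
    | zero => simp
    | succ r ih =>
      obtain ⟨ihA, ihB⟩ := ih
      have hV : KK (lin 1) ^ r ∣ H := sym0 hs ihB
      have hA : ∀ j ∈ Finset.Icc (1 : ℕ) 9, lin (yV (ξ ^ (j : ℤ))⁻¹ 1) ^ (r + 1) ∣ H := by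
        intro j hj
        have hj' := Finset.mem_Icc.mp hj
        refine stepA (ξ ^ (j : ℤ)) (hξ _ (by omega)) n r C₁ ?_ H hQ1 (h1 j hj) (ihA j hj) hV
        intro i hi h3
        rw [hC2, ← zpow_mul] at h3
        have h4 := hinj _ _ h3
        have h5 : |(j : ℤ) * i| ≤ 9 * n := by
          rw [abs_mul]
          refine mul_le_mul ?_ hi (abs_nonneg _) (by norm_num)
          rw [abs_of_nonneg (by omega)]
          omega
        rw [h4, abs_of_nonneg (by positivity)] at h5
        omega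
      refine ⟨hA, ?_⟩
      have hB : ∀ j ∈ Finset.Icc (1 : ℕ) 9, lin (yV (ξ ^ (j : ℤ)) 1) ^ (r + 1) ∣ H := by
        intro j hj
        have := sym1 hs (hA j hj)
        rwa [inv_inv] at this
      obtain ⟨g, rfl⟩ := ihB
      have hVg : KK (lin 1) ^ r ∣ g := by
        refine (KK_lin_prime 1).pow_dvd_of_dvd_mul_left r ?_ hV
        intro h2
        refine not_dvd2 1 1 (ξ ^ (1 : ℤ)) 0 ?_ ((KK_lin_prime 1).dvd_of_dvd_pow h2)
        simpa using hξ 1 one_ne_zero
      have hBg : ∀ j ∈ Finset.Icc (1 : ℕ) 9, lin (yV (ξ ^ (j : ℤ)) 1) ^ (r + 1) ∣ g := by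
        intro j hj
        refine (lin_prime _).pow_dvd_of_dvd_mul_left (r + 1) ?_ (hB j hj)
        intro h2
        exact not_dvd1 _ _ 1 0 one_ne_zero ((lin_prime _).dvd_of_dvd_pow h2)
      have hq := QP2_res 1 0 (-18 * n) (19 * n) _ _ g (QP2_div_pow _ _ _ _ _ _ _ _ hQ0)
      have hz : EV (yV 1 0) g = 0 := by
        refine RL (insert (-45) (Finset.Icc (-9) 9)) (fun i : ℤ => ξ ^ i) ?_
          (fun i : ℤ => if i = -45 then n - r else if i = 0 then r else if 0 < i then 2 * n - r
            else r + 1) (19 * n) 0 C₁ _ ?_ ?_ ?_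
        · intro i _ j _ hij
          exact hinj i j hij
        · convert hq using 1
          · push_cast
            ring
          · ring
          · simp
        · intro i hi
          rw [Finset.mem_insert, Finset.mem_Icc] at hi
          by_cases hi45 : i = -45
          · subst hi45
            simp only [if_true]
            apply ord_res0
            apply ep_pow_dvd Polynomial.X_ne_zero
            rw [map_mul, map_pow, BT_lin0] at h2
            exact h2
          · rw [if_neg hi45]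
            by_cases hi0 : i = 0
            · subst hi0
              simp only [if_true]
              have := map_dvd (EV (yV 1 0)) hVg
              rw [map_pow, EV_KK] at this
              simpa using this
            · rw [if_neg hi0]
              by_cases hip : 0 < i
              · rw [if_pos hip]
                obtain ⟨j, rfl⟩ := Int.eq_ofNat_of_zero_le hip.le
                apply ord_res0
                apply ep_pow_dvd Polynomial.X_ne_zero
                have h3 := h1 j (Finset.mem_Icc.mpr ⟨by omega, by omega⟩)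
                rw [map_mul, map_pow, BT_lin0] at h3
                exact h3
              · rw [if_neg hip]
                obtain ⟨j, hj⟩ := Int.eq_ofNat_of_zero_le (show 0 ≤ -i by omega)
                have hij : i = -(j : ℤ) := by omega
                subst hij
                have h3 := map_dvd (EV (yV 1 0)) (hBg j (Finset.mem_Icc.mpr ⟨by omega, by omega⟩))
                rw [map_pow, EV_lin] at h3
                refine dvd_trans (pow_dvd_pow_of_dvd ?_ _) h3
                refine ⟨PowerSeries.C (LaurentPolynomial.C (-((ξ ^ (j : ℤ) : kˣ) : k))), ?_⟩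
                unfold lin
                rw [← map_mul]
                congr 1
                rw [yV_val, yV_val, uT_val, LaurentPolynomial.T_zero, zpow_neg]
                have h : (LaurentPolynomial.C ((ξ ^ (j : ℤ) : kˣ) : k) : LP k) *
                    LaurentPolynomial.C ((((ξ ^ (j : ℤ))⁻¹ : kˣ)) : k) = 1 := by
                  rw [← map_mul, Units.mul_inv, map_one]
                rw [map_neg, Units.val_one, map_one]
                linear_combination -h
        · left
          rw [Finset.sum_insert (by decide)]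
          have hI : (Finset.Icc (-9) 9 : Finset ℤ) = {-9, -8, -7, -6, -5, -4, -3, -2, -1, 0, 1, 2,
            3, 4, 5, 6, 7, 8, 9} := by decide
          rw [hI]
          simp
          omega
      rw [EV_eq_zero_iff] at hz
      rw [pow_succ]
      exact mul_dvd_mul_left _ hz
  exact eq_zero_of_pow (yV 1 0) H fun r => (key r).2

end Main

end Pool.Agent.H957R2.SE
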