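import Pool.Agent.H957R2.SE.Quot
import Pool.Agent.H957R2.SE.Induct

noncomputable section

open PowerSeries

namespace Pool.Agent.H957R2.SE

variable {k : Type*} [Field k]

theorem H_zero (ξ : kˣ) (hξ : ∀ i : ℤ, i ≠ 0 → ξ ^ i ≠ 1) (n : ℕ) (hn : 0 < n) (H : RR2 k)
    (hs : Sw H = H)
    (hQ : ∀ m l j : ℤ, c2 H m l (j - m) = c2 H (m + 370 * n) (l + 333 * n) j)
    (hd : ∀ j ∈ Finset.range 10, zUV (lin (ξ ^ ee j)) ^ mm n j ∣ H)
    (ho : ∀ j ∈ Finset.range 10, ep ^ (37 * n) ∣ BT (ξ ^ ee j) H) : H = 0 := by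
  obtain ⟨H₁, h1, h2⟩ := exists_H1 ξ hξ n hn H hQ hd
  have hs1 : Sw H₁ = H₁ := by
    have h3 : Theta ξ n * Sw H₁ = Theta ξ n * H₁ := by
      rw [← h1, ← hs]
      conv_rhs => rw [h1]
      rw [map_mul, Sw_Theta]
    exact mul_left_cancel₀ (Theta_ne_zero ξ n) h3
  have hz : H₁ = 0 := by
    apply H1_zero ξ hξ n hn H₁ hs1 h2
    · intro j hj
      rw [Finset.mem_Icc] at hj
      have hj' : j ∈ Finset.range 10 := by rw [Finset.mem_range]; omega
      have he : ee j = (j : ℤ) := by unfold ee; rw [if_neg (by omega)]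
      have hm : mm n j = 35 * n := by unfold mm; rw [if_neg (by omega)]
      have := order_H1 ξ hξ n H₁ j hj' (2 * n) (by
        rw [← h1, hm]
        have := ho j hj'
        rwa [show 35 * n + 2 * n = 37 * n by ring])
      rwa [he] at this
    · have h0 : (0 : ℕ) ∈ Finset.range 10 := by simp
      have := order_H1 ξ hξ n H₁ 0 h0 n (by
        rw [← h1]
        have := ho 0 h0
        have hm : mm n 0 = 36 * n := by simp [mm]
        rw [hm]
        rwa [show 36 * n + n = 37 * n by ring])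
      have he : ee 0 = -45 := by simp [ee]
      rwa [he] at this
  rw [h1, hz, mul_zero]

end Pool.Agent.H957R2.SE
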