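import Pool.Agent.H957R2.SE.RL
import Pool.Agent.H957R2.SE.QP2

noncomputable section

open PowerSeries

namespace Pool.Agent.H957R2.SE

section

variable {B : Type*} [CommRing B] {S S' : Type*} [CommRing S] [CommRing S']

theorem eval₂_comp (φ : S →+* S') (i : B →+* S) (u : Sˣ) (p : LP B) :
    φ (LaurentPolynomial.eval₂ i u p)
      = LaurentPolynomial.eval₂ (φ.comp i) (Units.map φ.toMonoidHom u) p := by
  induction p using LaurentPolynomial.induction_on' with
  | add p q hp hq => rw [map_add, map_add, map_add, hp, hq]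
  | C_mul_T n a =>
    rw [LaurentPolynomial.eval₂_C_mul_T, LaurentPolynomial.eval₂_C_mul_T, map_mul, ← map_zpow]
    rfl

theorem map_zs (φ : S →+* S') (i : B →+* S) (u : Sˣ) (f : RR B) :
    PowerSeries.map φ (zs i u f) = zs (φ.comp i) (Units.map φ.toMonoidHom u) f := by
  ext j
  unfold zs
  rw [PowerSeries.coeff_map, PowerSeries.coeff_map, PowerSeries.coeff_map, eval₂_comp]

theorem EV_eq_zs (x : Bˣ) (f : RR B) : EV x f = zs (RingHom.id B) x f := rfl

theorem map_EV (φ : B →+* S) (x : Bˣ) (f : RR B) :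
    PowerSeries.map φ (EV x f) = zs φ (Units.map φ.toMonoidHom x) f := by
  rw [EV_eq_zs, map_zs]
  rfl

end

section

variable {k : Type*} [CommRing k]

theorem swp_comp_i2 : (swp : LP2 k →+* LP2 k).comp i2 = i2 := by
  ext a : 1
  show swp (LaurentPolynomial.C (LaurentPolynomial.C a)) = _
  unfold swp
  rw [LaurentPolynomial.eval₂_C, LaurentPolynomial.eval₂_C]

theorem swp_uU : Units.map (swp : LP2 k →+* LP2 k).toMonoidHom uU = uV := by
  ext : 1
  show swp (LaurentPolynomial.T 1) = _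
  unfold swp
  rw [LaurentPolynomial.eval₂_T]; simp

theorem swp_uV : Units.map (swp : LP2 k →+* LP2 k).toMonoidHom uV = uU := by
  ext : 1
  show swp (LaurentPolynomial.C (LaurentPolynomial.T 1)) = _
  unfold swp
  rw [LaurentPolynomial.eval₂_C, LaurentPolynomial.eval₂_T]; simp

theorem Sw_zU (f : RR k) : Sw (zU f) = zV f := by
  unfold Sw zU zV
  rw [map_zs, swp_comp_i2, swp_uU]

theorem Sw_zV (f : RR k) : Sw (zV f) = zU f := by
  unfold Sw zU zV
  rw [map_zs, swp_comp_i2, swp_uV]

theorem Sw_zUV (f : RR k) : Sw (zUV f) = zUV f := by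
  unfold Sw zUV
  rw [map_zs, swp_comp_i2, map_mul, swp_uU, swp_uV, mul_comm uV]

/-- the unit `x / V` -/
def xV (x : kˣ) : (LP k)ˣ := uC x * uT⁻¹

theorem zUV_theta (x : kˣ) : zUV (theta x) = theta (xV x) := by
  unfold zUV
  rw [zs_theta]
  unfold theta
  congr 1
  unfold xV uU uV
  rw [uC_mul, uC_inv, mul_inv, inv_inv]
  have : Units.map (i2 : k →+* LP2 k).toMonoidHom x = uC (uC x) := by
    ext : 1; rfl
  rw [this]
  rw [mul_assoc, mul_comm (uC uT)]

theorem zUV_lin (x : kˣ) :
    zUV (lin x) = PowerSeries.C (((uU * uV : (LP2 k)ˣ) : LP2 k) - i2 (x : k)) := by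
  unfold zUV; rw [zs_lin]

theorem zUV_lin' (x : kˣ) :
    zUV (lin x) = PowerSeries.C ((uV : (LP2 k)ˣ) : LP2 k) * lin (xV x) := by
  rw [zUV_lin]
  unfold lin
  rw [← map_mul]
  congr 1
  rw [mul_sub, Units.val_mul]
  have h1 : ((uV : (LP2 k)ˣ) : LP2 k) * LaurentPolynomial.C ((xV x : (LP k)ˣ) : LP k) = i2 (x : k) := by
    show LaurentPolynomial.C ((uT : (LP k)ˣ) : LP k) * LaurentPolynomial.C ((xV x : (LP k)ˣ) : LP k) = _
    rw [← map_mul, ← Units.val_mul]
    have : uT * xV x = uC x := by unfold xV; rw [mul_comm (uC x), mul_inv_cancel_left]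
    rw [this]; rfl
  rw [h1, mul_comm]; rfl

theorem uV_isUnit : IsUnit (PowerSeries.C ((uV : (LP2 k)ˣ) : LP2 k)) :=
  (uV : (LP2 k)ˣ).isUnit.map _

theorem lin_xV_dvd_iff (x : kˣ) (f : RR2 k) : lin (xV x) ∣ f ↔ zUV (lin x) ∣ f := by
  rw [zUV_lin']
  exact (uV_isUnit.mul_left_dvd).symm

theorem lin_xV_pow_dvd_iff (x : kˣ) (n : ℕ) (f : RR2 k) :
    lin (xV x) ^ n ∣ f ↔ zUV (lin x) ^ n ∣ f := by
  rw [zUV_lin', mul_pow]
  exact ((uV_isUnit.pow n).mul_left_dvd).symm

/-- Restricting a function of `UV` to `UV = x`. -/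
theorem EV_xV_zUV (x : kˣ) (f : RR k) : EV (xV x) (zUV f) = KK (EV x f) := by
  have h1 : EV (xV x) (zUV f) = PowerSeries.map (LaurentPolynomial.eval₂ (RingHom.id (LP k)) (xV x))
    (zs i2 (uU * uV) f) := rfl
  rw [h1, map_zs]
  unfold KK
  rw [map_EV]
  congr 1
  · congr 1
    · ext a : 1
      show LaurentPolynomial.eval₂ (RingHom.id (LP k)) (xV x)
        (LaurentPolynomial.C (LaurentPolynomial.C a)) = _
      rw [LaurentPolynomial.eval₂_C]; rfl
    · ext : 1
      show LaurentPolynomial.eval₂ (RingHom.id (LP k)) (xV x)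
        ((LaurentPolynomial.T 1) * LaurentPolynomial.C (LaurentPolynomial.T 1)) = _
      rw [map_mul, LaurentPolynomial.eval₂_C, LaurentPolynomial.eval₂_T, zpow_one]
      show ((xV x : (LP k)ˣ) : LP k) * ((uT : (LP k)ˣ) : LP k) = _
      rw [← Units.val_mul]
      have : xV x * uT = uC x := by unfold xV; rw [inv_mul_cancel_right]
      rw [this]; rfl

/-! ### the order at the points `(1, v)` -/

/-- coefficients -/
def bc : k →+* PowerSeries (Polynomial k) := (PowerSeries.C : Polynomial k →+* _).comp Polynomial.C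

theorem vE_val (v : kˣ) : ((vE v : (PowerSeries (Polynomial k))ˣ) : PowerSeries (Polynomial k))
    = bc (v : k) + PowerSeries.X := by
  unfold vE; rw [IsUnit.unit_spec]; rfl

theorem uE_val : ((uE : (PowerSeries (Polynomial k))ˣ) : PowerSeries (Polynomial k))
    = 1 + PowerSeries.X * PowerSeries.C Polynomial.X := by
  unfold uE; rw [IsUnit.unit_spec]

theorem bt_comp_i2 (v : kˣ) : (bt v : LP2 k →+* _).comp i2 = bc := by
  ext a : 1
  show bt v (LaurentPolynomial.C (LaurentPolynomial.C a)) = _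
  unfold bt
  rw [LaurentPolynomial.eval₂_C, LaurentPolynomial.eval₂_C]; rfl

theorem bt_uU (v : kˣ) : Units.map (bt v : LP2 k →+* _).toMonoidHom uU = uE := by
  ext : 1
  show bt v (LaurentPolynomial.T 1) = _
  unfold bt
  rw [LaurentPolynomial.eval₂_T, zpow_one]

theorem bt_uV (v : kˣ) : Units.map (bt v : LP2 k →+* _).toMonoidHom uV = vE v := by
  ext : 1
  show bt v (LaurentPolynomial.C (LaurentPolynomial.T 1)) = _
  unfold bt
  rw [LaurentPolynomial.eval₂_C, LaurentPolynomial.eval₂_T, zpow_one]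

theorem BT_zs (v : kˣ) (u : (LP2 k)ˣ) (f : RR k) :
    BT v (zs i2 u f) = zs bc (Units.map (bt v : LP2 k →+* _).toMonoidHom u) f := by
  unfold BT
  rw [map_zs, bt_comp_i2]

theorem ep_dvd_iff (f : PowerSeries (PowerSeries (Polynomial k))) :
    ep ∣ f ↔ PowerSeries.map (PowerSeries.constantCoeff) f = 0 := by
  unfold ep
  rw [C_dvd_iff]
  constructor
  · intro h
    ext j : 1
    rw [PowerSeries.coeff_map, map_zero]
    exact PowerSeries.X_dvd_iff.mp (h j)
  · intro h j
    rw [PowerSeries.X_dvd_iff]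
    have := congrArg (PowerSeries.coeff j) h
    rwa [PowerSeries.coeff_map, map_zero] at this

theorem cc_comp_bc : (PowerSeries.constantCoeff : PowerSeries (Polynomial k) →+* _).comp bc
    = Polynomial.C := by
  ext a : 1
  show PowerSeries.constantCoeff (PowerSeries.C (Polynomial.C a)) = _
  rw [PowerSeries.constantCoeff_C]

theorem cc_uE : Units.map (PowerSeries.constantCoeff : PowerSeries (Polynomial k) →+* _).toMonoidHom
    uE = 1 := by
  ext : 1
  show PowerSeries.constantCoeff ((uE : (PowerSeries (Polynomial k))ˣ) : PowerSeries (Polynomial k)) = _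
  rw [uE_val]; simp

theorem cc_vE (v : kˣ) : Units.map
    (PowerSeries.constantCoeff : PowerSeries (Polynomial k) →+* _).toMonoidHom (vE v)
      = Units.map (Polynomial.C : k →+* Polynomial k).toMonoidHom v := by
  ext : 1
  show PowerSeries.constantCoeff ((vE v : (PowerSeries (Polynomial k))ˣ) : PowerSeries (Polynomial k))
    = Polynomial.C (v : k)
  rw [vE_val]; simp [bc]

end

section

variable {k : Type*} [Field k]

theorem ep_prime_aux : Prime (ep (k := k)) := prime_C_of_prime PowerSeries.X_prime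

theorem map_C_injective {A A' : Type*} [CommRing A] [CommRing A'] (φ : A →+* A')
    (hφ : Function.Injective φ) : Function.Injective (PowerSeries.map φ) := by
  intro f g h
  ext j
  apply hφ
  have := congrArg (PowerSeries.coeff j) h
  rwa [PowerSeries.coeff_map, PowerSeries.coeff_map] at this

theorem ep_dvd_BT_zUV (v : kˣ) (f : RR k) : ep ∣ BT v (zUV f) ↔ lin v ∣ f := by
  unfold zUV
  rw [ep_dvd_iff, BT_zs, map_zs, cc_comp_bc, map_mul, map_mul, bt_uU, bt_uV, cc_uE, cc_vE, one_mul,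
    ← map_EV, ← EV_eq_zero_iff]
  constructor
  · intro h
    apply map_C_injective _ Polynomial.C_injective
    rw [h, map_zero]
  · intro h; rw [h, map_zero]

theorem ep_dvd_BT_zV (v : kˣ) (f : RR k) : ep ∣ BT v (zV f) ↔ lin v ∣ f := by
  unfold zV
  rw [ep_dvd_iff, BT_zs, map_zs, cc_comp_bc, bt_uV, cc_vE, ← map_EV, ← EV_eq_zero_iff]
  constructor
  · intro h
    apply map_C_injective _ Polynomial.C_injective
    rw [h, map_zero]
  · intro h; rw [h, map_zero]

theorem ep_dvd_BT_zU (v : kˣ) (f : RR k) : ep ∣ BT v (zU f) ↔ lin (1 : kˣ) ∣ f := by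
  unfold zU
  rw [ep_dvd_iff, BT_zs, map_zs, cc_comp_bc, bt_uU, cc_uE]
  have h1 : (1 : (Polynomial k)ˣ) = Units.map (Polynomial.C : k →+* Polynomial k).toMonoidHom 1 := by
    rw [map_one]
  rw [h1, ← map_EV, ← EV_eq_zero_iff]
  constructor
  · intro h
    apply map_C_injective _ Polynomial.C_injective
    rw [h, map_zero]
  · intro h; rw [h, map_zero]

/-- exact order of `UV - v` at `(1, v)` -/
theorem BT_zUV_lin (v : kˣ) : ∃ w : PowerSeries (PowerSeries (Polynomial k)),
    BT v (zUV (lin v)) = ep * w ∧ ¬ ep ∣ w := by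
  refine ⟨PowerSeries.C (1 + PowerSeries.C Polynomial.X * ((vE v : (PowerSeries (Polynomial k))ˣ) :
    PowerSeries (Polynomial k))), ?_, ?_⟩
  · unfold zUV
    rw [BT_zs, zs_lin, map_mul, bt_uU, bt_uV, Units.val_mul, uE_val, vE_val]
    unfold ep
    rw [← map_mul]
    congr 1
    ring
  · rw [ep_dvd_iff, PowerSeries.map_C, map_add, map_mul, map_one, PowerSeries.constantCoeff_C,
      vE_val, map_add PowerSeries.constantCoeff, PowerSeries.constantCoeff_X, add_zero]
    have h1 : PowerSeries.constantCoeff (bc (v : k)) = Polynomial.C (v : k) := by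
      show PowerSeries.constantCoeff (PowerSeries.C (Polynomial.C (v : k))) = _
      rw [PowerSeries.constantCoeff_C]
    rw [h1]
    intro h
    have h2 := congrArg (PowerSeries.constantCoeff) h
    rw [PowerSeries.constantCoeff_C, map_zero] at h2
    have h3 := congrArg (Polynomial.coeff · 0) h2
    simp at h3

theorem ep_order_zUV_theta (v : kˣ) (m n : ℕ) (g : PowerSeries (PowerSeries (Polynomial k)))
    (h : ep ^ (m + n) ∣ BT v (zUV (theta v)) ^ m * g) : ep ^ n ∣ g := by
  obtain ⟨u, hu⟩ := theta_lin v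
  obtain ⟨w, hw, hw'⟩ := BT_zUV_lin v
  have hu' : IsUnit (BT v (zUV (u : RR k))) := (u.isUnit.map (zUV : RR k →+* _)).map (BT v)
  rw [hu, map_mul, map_mul, hw, mul_assoc, mul_pow, mul_assoc, pow_add] at h
  have h1 := (mul_dvd_mul_iff_left (pow_ne_zero m ep_prime_aux.ne_zero)).mp h
  refine Prime.pow_dvd_of_dvd_mul_left ep_prime_aux n ?_ h1
  intro h2
  have h3 := ep_prime_aux.dvd_of_dvd_pow h2
  rcases ep_prime_aux.dvd_or_dvd h3 with h4 | h4
  · exact hw' h4
  · exact ep_prime_aux.not_isUnit (isUnit_of_dvd_unit h4 hu')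

end

end Pool.Agent.H957R2.SE
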