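import Pool.Agent.H957R2.SE.Basic

noncomputable section

open PowerSeries

namespace Pool.Agent.H957R2.SE

/-! ### coefficientwise divisibility -/

theorem C_dvd_of_map_eq_zero {A A' : Type*} [CommRing A] [CommRing A'] (φ : A →+* A') (p : A)
    (h : ∀ a, φ a = 0 → p ∣ a) (f : PowerSeries A) (hf : PowerSeries.map φ f = 0) :
    PowerSeries.C p ∣ f := by
  have h1 : ∀ j, p ∣ PowerSeries.coeff j f := fun j => h _ (by
    have := congrArg (PowerSeries.coeff j) hf
    rwa [PowerSeries.coeff_map, map_zero] at this)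
  choose g hg using h1
  refine ⟨PowerSeries.mk g, ?_⟩
  ext j
  rw [PowerSeries.coeff_C_mul, PowerSeries.coeff_mk, hg j]

theorem C_dvd_iff {A : Type*} [CommRing A] (p : A) (f : PowerSeries A) :
    PowerSeries.C p ∣ f ↔ ∀ j, p ∣ PowerSeries.coeff j f := by
  constructor
  · rintro ⟨g, rfl⟩ j
    rw [PowerSeries.coeff_C_mul]
    exact dvd_mul_right _ _
  · intro h1
    choose g hg using h1
    refine ⟨PowerSeries.mk g, ?_⟩
    ext j
    rw [PowerSeries.coeff_C_mul, PowerSeries.coeff_mk, hg j]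

theorem prime_of_ker {A A' : Type*} [CommRing A] [CommRing A'] [IsDomain A'] (φ : A →+* A') (p : A)
    (hp : p ≠ 0) (h0 : φ p = 0) (h : ∀ a, φ a = 0 → p ∣ a) : Prime p := by
  refine ⟨hp, ?_, ?_⟩
  · intro hu
    have := hu.map φ
    rw [h0] at this
    exact not_isUnit_zero this
  · intro a b hab
    have h1 : φ (a * b) = 0 := by
      obtain ⟨c, hc⟩ := hab
      rw [hc, map_mul, h0, zero_mul]
    rw [map_mul] at h1
    rcases mul_eq_zero.mp h1 with h2 | h2
    · exact Or.inl (h _ h2)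
    · exact Or.inr (h _ h2)

theorem prime_C_of_prime {A : Type*} [CommRing A] [IsDomain A] {p : A} (hp : Prime p) :
    Prime (PowerSeries.C p) := by
  have hP : (Ideal.span {p}).IsPrime := (Ideal.span_singleton_prime hp.ne_zero).mpr hp
  have := Ideal.Quotient.isDomain (Ideal.span {p})
  apply prime_of_ker (PowerSeries.map (Ideal.Quotient.mk (Ideal.span {p})))
  · intro h
    apply hp.ne_zero
    have := congrArg (PowerSeries.constantCoeff) h
    simpa using this
  · rw [PowerSeries.map_C, Ideal.Quotient.eq_zero_iff_mem.mpr (Ideal.mem_span_singleton_self p),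
      map_zero]
  · intro a ha
    apply C_dvd_of_map_eq_zero (Ideal.Quotient.mk (Ideal.span {p})) p _ a ha
    intro b hb
    rw [Ideal.Quotient.eq_zero_iff_mem, Ideal.mem_span_singleton] at hb
    exact hb

section One

variable {B : Type*} [CommRing B] {S S' : Type*} [CommRing S] [CommRing S']

theorem uT_val : ((uT : (LP B)ˣ) : LP B) = LaurentPolynomial.T 1 := rfl

theorem uT_zpow (n : ℤ) : ((uT ^ n : (LP B)ˣ) : LP B) = LaurentPolynomial.T n := by
  cases n with
  | ofNat n =>
    rw [Int.ofNat_eq_natCast, zpow_natCast, Units.val_pow_eq_pow_val, uT_val,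
      LaurentPolynomial.T_pow]; simp
  | negSucc n =>
    rw [zpow_negSucc, ← inv_pow, Units.val_pow_eq_pow_val]
    show (LaurentPolynomial.T (-1)) ^ (n + 1) = _
    rw [LaurentPolynomial.T_pow]
    congr 1
    rw [Int.negSucc_eq]; push_cast; ring

theorem uC_val (x : Bˣ) : ((uC x : (LP B)ˣ) : LP B) = LaurentPolynomial.C (x : B) := rfl

theorem uC_zpow (x : Bˣ) (n : ℤ) : uC x ^ n = uC (x ^ n) := by
  unfold uC; rw [map_zpow]

theorem uC_mul (x y : Bˣ) : uC (x * y) = uC x * uC y := by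
  unfold uC; rw [map_mul]

theorem uC_inv (x : Bˣ) : uC x⁻¹ = (uC x)⁻¹ := by
  unfold uC; rw [map_inv]

theorem uC_one : uC (1 : Bˣ) = 1 := by
  unfold uC; rw [map_one]

theorem unit_sub_dvd_zpow_sub {R : Type*} [CommRing R] (u v : Rˣ) (n : ℤ) :
    ((u : R) - v) ∣ ((u ^ n : Rˣ) : R) - ((v ^ n : Rˣ) : R) := by
  cases n with
  | ofNat n =>
    simp only [Int.ofNat_eq_natCast, zpow_natCast, Units.val_pow_eq_pow_val]
    exact sub_dvd_pow_sub_pow _ _ _
  | negSucc n =>
    simp only [zpow_negSucc]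
    have h := sub_dvd_pow_sub_pow (u : R) (v : R) (n + 1)
    have : (((u ^ (n + 1))⁻¹ : Rˣ) : R) - (((v ^ (n + 1))⁻¹ : Rˣ) : R)
        = - (((u ^ (n + 1))⁻¹ : Rˣ) : R) * (((v ^ (n + 1))⁻¹ : Rˣ) : R)
          * ((u : R) ^ (n + 1) - (v : R) ^ (n + 1)) := by
      rw [← Units.val_pow_eq_pow_val, ← Units.val_pow_eq_pow_val, mul_sub]
      have h1 := Units.inv_mul (u ^ (n + 1))
      have h2 := Units.inv_mul (v ^ (n + 1))
      linear_combination (((v ^ (n + 1))⁻¹ : Rˣ) : R) * h1
        - (((u ^ (n + 1))⁻¹ : Rˣ) : R) * h2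
    rw [this]
    exact Dvd.dvd.mul_left h _

theorem lin_dvd_aux (x : Bˣ) (p : LP B) :
    (((uT : (LP B)ˣ) : LP B) - LaurentPolynomial.C (x : B)) ∣
      p - LaurentPolynomial.C (LaurentPolynomial.eval₂ (RingHom.id B) x p) := by
  induction p using LaurentPolynomial.induction_on' with
  | add p q hp hq =>
    rw [map_add, map_add]
    have := dvd_add hp hq
    convert this using 1; ring
  | C_mul_T n a =>
    rw [LaurentPolynomial.eval₂_C_mul_T, RingHom.id_apply, map_mul, ← mul_sub]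
    apply Dvd.dvd.mul_left
    have := unit_sub_dvd_zpow_sub (uT : (LP B)ˣ) (uC x) n
    rw [uT_zpow, uC_zpow, uC_val, uC_val] at this
    exact this

theorem EV_KK (x : Bˣ) (a : PowerSeries B) : EV x (KK a) = a := by
  ext j
  unfold EV KK
  rw [PowerSeries.coeff_map, PowerSeries.coeff_map, LaurentPolynomial.eval₂_C]
  rfl

theorem zs_KK (i : B →+* S) (u : Sˣ) (a : PowerSeries B) : zs i u (KK a) = PowerSeries.map i a := by
  ext j
  unfold zs KK
  rw [PowerSeries.coeff_map, PowerSeries.coeff_map, LaurentPolynomial.eval₂_C, PowerSeries.coeff_map]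

theorem lin_dvd_sub (x : Bˣ) (f : RR B) : lin x ∣ f - KK (EV x f) := by
  unfold lin
  rw [C_dvd_iff]
  intro j
  have := lin_dvd_aux x (PowerSeries.coeff j f)
  rw [map_sub]
  unfold KK EV
  rw [PowerSeries.coeff_map, PowerSeries.coeff_map]
  exact this

theorem EV_lin (y x : Bˣ) : EV y (lin x) = PowerSeries.C ((y : B) - x) := by
  unfold EV lin
  rw [PowerSeries.map_C, map_sub, uT_val, LaurentPolynomial.eval₂_T, LaurentPolynomial.eval₂_C]
  simp

theorem EV_lin_self (x : Bˣ) : EV x (lin x) = 0 := by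
  rw [EV_lin]; simp

theorem EV_eq_zero_iff (x : Bˣ) (f : RR B) : EV x f = 0 ↔ lin x ∣ f := by
  constructor
  · intro h
    have := lin_dvd_sub x f
    rwa [h, map_zero, sub_zero] at this
  · rintro ⟨g, rfl⟩
    rw [map_mul, EV_lin_self, zero_mul]

theorem zs_lin (i : B →+* S) (u : Sˣ) (x : Bˣ) :
    zs i u (lin x) = PowerSeries.C ((u : S) - i x) := by
  unfold zs lin
  rw [PowerSeries.map_C, map_sub, uT_val, LaurentPolynomial.eval₂_T, LaurentPolynomial.eval₂_C]
  simp

theorem lin_ne_zero [Nontrivial B] (x : Bˣ) : lin x ≠ 0 := by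
  intro h
  unfold lin at h
  have h1 := congrArg (PowerSeries.constantCoeff) h
  rw [PowerSeries.constantCoeff_C, map_zero] at h1
  have h2 := congrArg (fun p : LP B => p.coeff 1) h1
  have h3 : ((LaurentPolynomial.T 1 : LP B) - LaurentPolynomial.C (x : B)).coeff 1 = 1 := by
    rw [AddMonoidAlgebra.coeff_sub, Finsupp.sub_apply, LaurentPolynomial.T_apply,
      LaurentPolynomial.C_apply]
    simp
  rw [uT_val] at h2
  simp only [h3] at h2
  exact one_ne_zero h2

theorem lin_prime [IsDomain B] (x : Bˣ) : Prime (lin x) :=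
  prime_of_ker (EV x) _ (lin_ne_zero x) (EV_lin_self x) fun a ha => (EV_eq_zero_iff x a).mp ha

end One

end Pool.Agent.H957R2.SE
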