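import Pool.Agent.H957R2.SE.Special

noncomputable section

open PowerSeries

namespace Pool.Agent.H957R2.SE

variable {k : Type*} [Field k]

theorem ex3_inj {D : ℕ} {p q : ℕ × ℕ} (h : ex3 D p = ex3 D q) : p = q := by
  have h0 := DFunLike.congr_fun h 0
  have h1 := DFunLike.congr_fun h 1
  rw [ex3_zero, ex3_zero] at h0
  rw [ex3_one, ex3_one] at h1
  exact Prod.ext h0 h1

theorem coeff_FF (D : ℕ) (v : ℕ × ℕ → PowerSeries k) (p : ℕ × ℕ) (hp : p ∈ tri D) :
    (FF D v).coeff (ex3 D p) = v p := by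
  classical
  have h1 : FF D v = ∑ q ∈ tri D, MvPolynomial.monomial (ex3 D q) (v q) := by
    unfold FF ev3
    apply Finset.sum_congr rfl
    intro q _
    unfold ex3
    rw [MvPolynomial.X_pow_eq_monomial, MvPolynomial.X_pow_eq_monomial,
      MvPolynomial.X_pow_eq_monomial, MvPolynomial.C_mul_monomial, MvPolynomial.monomial_mul,
      MvPolynomial.monomial_mul, mul_one, mul_one, mul_one]
  rw [h1, MvPolynomial.coeff_sum, Finset.sum_eq_single p]
  · rw [MvPolynomial.coeff_monomial, if_pos rfl]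
  · intro q _ hqp
    rw [MvPolynomial.coeff_monomial, if_neg]
    intro h
    exact hqp (ex3_inj h)
  · intro h
    exact absurd hp h

theorem Van.coeff {D m : ℕ} {u : ℕ × ℕ → Polynomial (PowerSeries k)} {x₀ y₀ z₀ : PowerSeries k}
    (h : Van D m u (Polynomial.C x₀) (Polynomial.C y₀) (Polynomial.C z₀)) (c : ℕ) :
    Van D m (fun p => (u p).coeff c) x₀ y₀ z₀ := by
  intro i j hij
  have := congrArg (fun q : Polynomial (PowerSeries k) => q.coeff c) (h i j hij)
  simp only [Polynomial.finsetSum_coeff, Polynomial.coeff_zero] at this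
  rw [← this]
  apply Finset.sum_congr rfl
  intro p _
  have e : u p * ((p.1.choose i : ℕ) : Polynomial (PowerSeries k)) * ((p.2.choose j : ℕ) : Polynomial _)
      * Polynomial.C x₀ ^ (p.1 - i) * Polynomial.C y₀ ^ (p.2 - j) * Polynomial.C z₀ ^ (D - p.1 - p.2)
      = u p * Polynomial.C (((p.1.choose i : ℕ) : PowerSeries k) * ((p.2.choose j : ℕ) : PowerSeries k)
        * x₀ ^ (p.1 - i) * y₀ ^ (p.2 - j) * z₀ ^ (D - p.1 - p.2)) := by
    simp only [map_mul, map_pow, map_natCast]; ring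
  rw [e, Polynomial.coeff_mul_C]
  ring

/-- the core contradiction -/
theorem core (a : kˣ) (ha : a ^ 2 ≠ 1) (g : Fin 9 → PowerSeries k)
    (hg : cub (fun i => KK (g i)) (Ex a) Ey (Ez a) = 0)
    (ξ : kˣ) (hξ : ∀ i : ℤ, i ≠ 0 → ξ ^ i ≠ 1)
    (hlam : ∀ j ∈ Finset.range 10, EV (ξ ^ ee j) (lam a g) ≠ 0)
    (hz : ∀ j ∈ Finset.range 10, EV (ξ ^ ee j) (Ez a) ≠ 0) (n : ℕ) (hn : 0 < n)
    (u : ℕ × ℕ → Polynomial (PowerSeries k))
    (hu0 : Van (111 * n) (36 * n) u (Polynomial.C (EV (ξ ^ ee 0) (Ex a)))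
      (Polynomial.C (EV (ξ ^ ee 0) Ey) + Polynomial.X) (Polynomial.C (EV (ξ ^ ee 0) (Ez a))))
    (hu : ∀ j ∈ Finset.range 10, j ≠ 0 → Van (111 * n) (35 * n) u
      (Polynomial.C (EV (ξ ^ ee j) (Ex a))) (Polynomial.C (EV (ξ ^ ee j) Ey))
      (Polynomial.C (EV (ξ ^ ee j) (Ez a))))
    (p₁ : ℕ × ℕ) (hp₁ : p₁ ∈ tri (111 * n)) : (u p₁).coeff 0 = 0 := by
  by_contra hne
  have hF0 : FF (111 * n) (fun p => (u p).coeff 0) ≠ 0 := by
    intro h
    apply hne
    rw [← coeff_FF (111 * n) (fun p => (u p).coeff 0) p₁ hp₁, h, MvPolynomial.coeff_zero]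
  obtain ⟨w, G, h3, hG1, hG2, i₁, hi₁, hne₁⟩ := wlem a ha g hg (111 * n)
    (fun c p => (u p).coeff c) hF0
  have hwN : w ≤ 37 * n := by omega
  have h0r : (0 : ℕ) ∈ Finset.range 10 := by simp
  have he0 : ee 0 = -45 := by simp [ee]
  set c : kˣ := ξ ^ ee 0 with hc
  have hc1 : c ≠ 1 := hξ _ (by rw [he0]; norm_num)
  -- orders of the `G i` at the nine points
  have hord : ∀ j ∈ Finset.range 10, j ≠ 0 → ∀ i ≤ w, lin (ξ ^ ee j) ^ (35 * n - i) ∣ evE a (G i) := by
    intro j hj hj0 i hi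
    exact order_G a g hg (ξ ^ ee j) (hlam j hj) (hz j hj) (111 * n) (35 * n) i _
      ((hu j hj hj0).coeff (w - i)) (G i) (hG2 i hi)
  have hQd : ∀ j ∈ Finset.range 10, j ≠ 0 → lin (ξ ^ ee j) ∣ QQ ξ := by
    intro j hj hj0
    rw [Finset.mem_range] at hj
    have he : ee j = (j : ℤ) := by unfold ee; rw [if_neg hj0]
    rw [he]
    exact lin_dvd_QQ ξ j (by rw [Finset.mem_Icc]; omega)
  have hfib := fibre_c a g hg c (QQ ξ) (hlam 0 h0r) (hz 0 h0r) (37 * n) (111 * n) (36 * n) w
    (by omega) hwN h3 u hu0 G hG1 hG2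
  set lc := EV c (lam a g) with hlc
  set qc := EV c (QQ ξ) * PowerSeries.C ((c⁻¹ : kˣ) : k) with hqc
  have hlc0 : lc ≠ 0 := hlam 0 h0r
  have hQ0 : EV c (QQ ξ) ≠ 0 := by
    unfold QQ
    rw [map_prod, Finset.prod_ne_zero_iff]
    intro j hj
    rw [EV_theta]
    apply Th_ne_zero
    intro h
    have h1 : c * (ξ ^ (j : ℤ))⁻¹ = 1 := Units.ext h
    rw [hc, he0, ← zpow_neg, ← zpow_add] at h1
    refine hξ _ ?_ h1
    omega
  have hqc0 : qc ≠ 0 := by
    rw [hqc]
    apply mul_ne_zero hQ0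
    intro h
    have := congrArg PowerSeries.constantCoeff h
    rw [PowerSeries.constantCoeff_C, map_zero] at this
    exact (c⁻¹).ne_zero this
  have hQf0 : QQ ξ ≠ 0 := by
    intro h
    rw [h, map_zero] at hQ0
    exact hQ0 rfl
  have hzero : HH a c (37 * n) (111 * n) w lc qc (QQ ξ) G = 0 := by
    apply H_zero ξ hξ n hn
    · exact Sw_HH _ _ _ _ _ _ _ _ _
    · intro m l j
      have hqp := QP_HH a ξ n w hwN lc qc G hG1
      rw [← he0, ← hc] at hqp
      have := c2_of_QP _ _ _ _ hqp m l j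
      rw [this, Units.val_one, one_mul, sub_neg_eq_add]
    · intro j hj
      by_cases hj0 : j = 0
      · subst hj0
        have hm : mm n 0 = 36 * n := by simp [mm]
        rw [hm]
        exact hfib
      · have hm : mm n j = 35 * n := by unfold mm; rw [if_neg hj0]
        rw [hm]
        exact HH_fibre a c _ _ _ _ _ _ _ _ _ (hQd j hj hj0) (hord j hj hj0)
    · intro j hj
      by_cases hj0 : j = 0
      · subst hj0
        exact HH_order_c a c _ _ _ hwN _ _ _ _
      · exact HH_order a c _ _ _ (35 * n) hwN _ _ _ _ _ (hQd j hj hj0) (hord j hj hj0)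
  exact hne₁ (HH_eq_zero a c hc1 _ _ _ hwN _ _ hlc0 hqc0 _ hQf0 G hzero i₁ hi₁)

theorem special (y : kˣ) (hy : ∀ i : ℤ, i ≠ 0 → y ^ i ≠ 1) :
    ∃ P : Fin 10 → Fin 3 → Polynomial (PowerSeries k), (∀ i, P i 2 ≠ 0) ∧
      ∀ n : ℕ, 0 < n → ∀ u : ℕ × ℕ → Polynomial (PowerSeries k),
        (∀ i, Van (111 * n) ((if i = 0 then 36 else 35) * n) u (P i 0) (P i 1) (P i 2)) →
        ∀ p ∈ tri (111 * n), u p = 0 := by
  have ha : y ^ 2 ≠ 1 := by
    have := hy 2 (by norm_num)
    rwa [zpow_ofNat] at this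
  obtain ⟨g, hg, hg3⟩ := exists_cub y ha
  -- the test function
  have hy1 : (y : k) ≠ 1 := by
    intro h
    apply hy 1 (by norm_num)
    rw [zpow_one]; exact Units.ext h
  have hyi : ((y⁻¹ : kˣ) : k) ≠ 1 := by
    intro h
    apply hy (-1) (by norm_num)
    rw [zpow_neg_one]; exact Units.ext h
  have hy2 : (((y ^ (-2 : ℤ))⁻¹ : kˣ) : k) ≠ 1 := by
    intro h
    apply hy 2 (by norm_num)
    have h1 : (y ^ (-2 : ℤ))⁻¹ = 1 := Units.ext h
    rw [← zpow_neg] at h1
    simpa using h1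
  have hccEV : ∀ (x : kˣ) (f : RR k), PowerSeries.constantCoeff (EV x f)
      = LaurentPolynomial.eval₂ (RingHom.id k) x (PowerSeries.constantCoeff f) := by
    intro x f
    unfold EV
    rw [← PowerSeries.coeff_zero_eq_constantCoeff_apply, PowerSeries.coeff_map,
      PowerSeries.coeff_zero_eq_constantCoeff_apply]
  set l : LP k := PowerSeries.constantCoeff (lam y g * Ez y) with hl
  have hl0 : l ≠ 0 := by
    intro h0
    have h1 := hccEV 1 (lam y g * Ez y)
    rw [← hl, h0, map_zero] at h1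
    have hx0 : EV (1 : kˣ) (Ex y) = 0 := by
      unfold Ex
      rw [map_mul, map_mul, EV_theta, inv_one, mul_one, Th_one, zero_mul, zero_mul]
    have hy0 : EV (1 : kˣ) (Ey : RR k) = 0 := by
      unfold Ey
      rw [map_pow, EV_theta, inv_one, mul_one, Th_one, zero_pow (by norm_num)]
    have hlam1 : EV (1 : kˣ) (lam y g) = g 3 * EV (1 : kˣ) (Ez y) ^ 2 := by
      unfold lam
      rw [map_dcub, hx0, hy0]
      unfold dcub
      simp only [EV_KK]
      ring
    rw [map_mul, hlam1] at h1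
    have hz1 : PowerSeries.constantCoeff (EV (1 : kˣ) (Ez y)) ≠ 0 := by
      unfold Ez
      rw [map_mul, map_pow, EV_theta, EV_theta, map_mul, map_pow, constantCoeff_Th,
        constantCoeff_Th, one_mul, one_mul]
      apply mul_ne_zero
      · apply pow_ne_zero
        intro h; exact hyi (by linear_combination -h)
      · intro h; exact hy2 (by linear_combination -h)
    rw [map_mul, map_mul, map_pow] at h1
    exact mul_ne_zero (mul_ne_zero hg3 (pow_ne_zero _ hz1)) hz1 h1
  obtain ⟨ξ, hξ, hval⟩ := exists_xi y hy l hl0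
  have hprod : ∀ j ∈ Finset.range 10, EV (ξ ^ ee j) (lam y g * Ez y) ≠ 0 := by
    intro j hj h
    apply hval j hj
    rw [hl, ← hccEV, h, map_zero]
  have hlam : ∀ j ∈ Finset.range 10, EV (ξ ^ ee j) (lam y g) ≠ 0 := by
    intro j hj h
    apply hprod j hj
    rw [map_mul, h, zero_mul]
  have hz : ∀ j ∈ Finset.range 10, EV (ξ ^ ee j) (Ez y) ≠ 0 := by
    intro j hj h
    apply hprod j hj
    rw [map_mul, h, mul_zero]
  refine ⟨fun i => if i = 0 then
      ![Polynomial.C (EV (ξ ^ ee 0) (Ex y)), Polynomial.C (EV (ξ ^ ee 0) Ey) + Polynomial.X,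
        Polynomial.C (EV (ξ ^ ee 0) (Ez y))]
    else ![Polynomial.C (EV (ξ ^ ee i.val) (Ex y)), Polynomial.C (EV (ξ ^ ee i.val) Ey),
        Polynomial.C (EV (ξ ^ ee i.val) (Ez y))], ?_, ?_⟩
  · intro i
    by_cases hi : i = 0
    · simp only [hi, if_true]
      show Polynomial.C (EV (ξ ^ ee 0) (Ez y)) ≠ 0
      rw [Polynomial.C_ne_zero]
      exact hz 0 (by simp)
    · simp only [hi, if_false]
      show Polynomial.C (EV (ξ ^ ee i.val) (Ez y)) ≠ 0
      rw [Polynomial.C_ne_zero]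
      exact hz i.val (by rw [Finset.mem_range]; exact i.isLt)
  · intro n hn u hu
    by_contra hcon
    push Not at hcon
    obtain ⟨p₀, hp₀, hup₀⟩ := hcon
    -- largest power of X dividing everything
    have hex : ∃ t : ℕ, ¬ ∀ p ∈ tri (111 * n), Polynomial.X ^ t ∣ u p := by
      refine ⟨(u p₀).natDegree + 1, ?_⟩
      intro h
      have h1 := h p₀ hp₀
      have h2 := Polynomial.natDegree_le_of_dvd h1 hup₀
      rw [Polynomial.natDegree_X_pow] at h2
      omega
    classical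
    have hfind := Nat.find_spec hex
    have hmin : ∀ t < Nat.find hex, ∀ p ∈ tri (111 * n), Polynomial.X ^ t ∣ u p := by
      intro t ht
      have := Nat.find_min hex ht
      push Not at this
      exact this
    have hpos : 0 < Nat.find hex := by
      rw [Nat.pos_iff_ne_zero]
      intro h0
      rw [h0] at hfind
      apply hfind
      intro p _
      simp
    obtain ⟨t, ht⟩ : ∃ t, Nat.find hex = t + 1 := ⟨Nat.find hex - 1, by omega⟩
    have hdiv : ∀ p ∈ tri (111 * n), ∃ r, u p = Polynomial.X ^ t * r := fun p hp =>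
      hmin t (by omega) p hp
    choose! r hr using hdiv
    rw [ht] at hfind
    push Not at hfind
    obtain ⟨p₁, hp₁, hnd⟩ := hfind
    have hVan : ∀ (m : ℕ) (x₀ y₀ z₀ : Polynomial (PowerSeries k)),
        Van (111 * n) m u x₀ y₀ z₀ → Van (111 * n) m r x₀ y₀ z₀ := by
      intro m x₀ y₀ z₀ h i j hij
      have h1 := h i j hij
      have h2 : Polynomial.X ^ t * ∑ p ∈ tri (111 * n), r p * (p.1.choose i : Polynomial (PowerSeries k))
          * (p.2.choose j : Polynomial (PowerSeries k)) * x₀ ^ (p.1 - i) * y₀ ^ (p.2 - j)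
          * z₀ ^ (111 * n - p.1 - p.2) = 0 := by
        rw [← h1, Finset.mul_sum]
        apply Finset.sum_congr rfl
        intro p hp
        rw [hr p hp]; ring
      exact (mul_eq_zero.mp h2).resolve_left (pow_ne_zero _ Polynomial.X_ne_zero)
    have hcore := core y ha g hg ξ hξ hlam hz n hn r
      (by
        have := hVan _ _ _ _ (hu 0)
        simpa using this)
      (by
        intro j hj hj0
        rw [Finset.mem_range] at hj
        have := hVan _ _ _ _ (hu ⟨j, hj⟩)
        have hne : (⟨j, hj⟩ : Fin 10) ≠ 0 := by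
          intro h
          apply hj0
          have := congrArg Fin.val h
          simpa using this
        simpa [hne] using this)
      p₁ hp₁
    apply hnd
    rw [hr p₁ hp₁, pow_succ]
    exact mul_dvd_mul_left _ (Polynomial.X_dvd_iff.mpr hcore)

end Pool.Agent.H957R2.SE
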