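import Pool.Agent.H957R2.SE.Theta

noncomputable section

open PowerSeries

namespace Pool.Agent.H957R2.SE

/-- terms of pairwise distinct `π`-adic orders are linearly independent -/
theorem ord_indep {R S ι : Type*} [CommRing R] [IsDomain R] [CommRing S] [IsDomain S]
    (ev : R →+* S) (K : S →+* R) (hK : ∀ a, ev (K a) = a) (p : R) (hp : p ≠ 0) (hp0 : ev p = 0)
    (s : Finset ι) (o : ι → ℕ) (ho : Set.InjOn o s) (c : ι → S) (v : ι → R)
    (hv : ∀ i ∈ s, ev (v i) ≠ 0) (h : ∑ i ∈ s, K (c i) * (p ^ o i * v i) = 0) :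
    ∀ i ∈ s, c i = 0 := by
  classical
  by_contra hcon
  push Not at hcon
  obtain ⟨i1, hi1, hc1⟩ := hcon
  obtain ⟨i0, hi0, hmin⟩ := Finset.exists_min_image (s.filter fun i => c i ≠ 0) o
    ⟨i1, Finset.mem_filter.mpr ⟨hi1, hc1⟩⟩
  rw [Finset.mem_filter] at hi0
  have h1 : ∑ i ∈ s, K (c i) * (p ^ o i * v i)
      = p ^ o i0 * ∑ i ∈ s, K (c i) * (p ^ (o i - o i0) * v i) := by
    rw [Finset.mul_sum]
    apply Finset.sum_congr rfl
    intro i hi
    by_cases hc : c i = 0
    · rw [hc, map_zero]; ring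
    · have hle := hmin i (Finset.mem_filter.mpr ⟨hi, hc⟩)
      have : p ^ o i = p ^ o i0 * p ^ (o i - o i0) := by
        rw [← pow_add]; congr 1; omega
      rw [this]; ring
  rw [h1] at h
  have h2 := (mul_eq_zero.mp h).resolve_left (pow_ne_zero _ hp)
  have h3 := congrArg ev h2
  rw [map_sum, map_zero, Finset.sum_eq_single i0] at h3
  · rw [map_mul, map_mul, hK, Nat.sub_self, pow_zero, map_one, one_mul] at h3
    rcases mul_eq_zero.mp h3 with h4 | h4
    · exact hi0.2 h4
    · exact hv i0 hi0.1 h4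
  · intro i hi hne
    rw [map_mul, map_mul, hK, map_pow, hp0]
    by_cases hc : c i = 0
    · rw [hc, zero_mul]
    · have hle := hmin i (Finset.mem_filter.mpr ⟨hi, hc⟩)
      have : o i ≠ o i0 := fun he => hne (ho hi hi0.1 he)
      rw [zero_pow (by omega)]; ring
  · intro hn
    exact absurd hi0.1 hn

/-- exponents of the ten cubic monomials -/
def exx : Fin 10 → ℕ := ![3, 0, 1, 2, 0, 1, 2, 0, 1, 0]
def exy : Fin 10 → ℕ := ![0, 0, 0, 0, 1, 1, 1, 2, 2, 3]
def exz : Fin 10 → ℕ := ![0, 3, 2, 1, 2, 1, 0, 1, 0, 0]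

/-- the ten cubic monomials -/
def mon {S : Type*} [CommRing S] (i : Fin 10) (x y z : S) : S := x ^ exx i * y ^ exy i * z ^ exz i

theorem cub_eq_sum {S : Type*} [CommRing S] (g : Fin 9 → S) (x y z : S) :
    cub g x y z = x ^ 3 + ∑ i : Fin 9, g i * mon i.succ x y z := by
  simp only [cub, mon, exx, exy, exz, Fin.sum_univ_succ, Fin.sum_univ_zero]
  simp [Fin.succ, Matrix.cons_val]
  ring

section

variable {k : Type*} [Field k]

/-- the coefficient of `T^m` as a power series in `q` -/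
def pc (f : RR k) (m : ℤ) : PowerSeries k := PowerSeries.mk fun j => cf f m j

theorem pc_add (f g : RR k) (m : ℤ) : pc (f + g) m = pc f m + pc g m := by
  ext j; simp [pc, cf_add]

theorem pc_sum {ι : Type*} (s : Finset ι) (f : ι → RR k) (m : ℤ) :
    pc (∑ i ∈ s, f i) m = ∑ i ∈ s, pc (f i) m := by
  ext j; simp [pc, cf_sum, map_sum]

theorem pc_KK_mul (a : PowerSeries k) (f : RR k) (m : ℤ) : pc (KK a * f) m = a * pc f m := by
  ext j
  unfold pc
  rw [PowerSeries.coeff_mk, cf_nat, PowerSeries.coeff_mul, PowerSeries.coeff_mul,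
    AddMonoidAlgebra.coeff_sum, Finsupp.finsetSum_apply]
  apply Finset.sum_congr rfl
  rintro ⟨i, i'⟩ _
  simp only
  rw [PowerSeries.coeff_mk, cf_nat]
  unfold KK
  rw [PowerSeries.coeff_map]
  rw [← LaurentPolynomial.smul_eq_C_mul]
  rfl

theorem QP9_zero {f : RR k} (hf : QP 9 0 (-1) f) (h : ∀ i : Fin 9, pc f ((i : ℕ) + 1 : ℤ) = 0) :
    f = 0 := by
  have h0 : ∀ m : ℤ, 1 ≤ m → m ≤ 9 → ∀ j : ℤ, cf f m j = 0 := by
    intro m h1 h2 j
    by_cases hj : 0 ≤ j
    · obtain ⟨j, rfl⟩ := Int.eq_ofNat_of_zero_le hj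
      have := h ⟨(m - 1).toNat, by omega⟩
      have h3 : (((m - 1).toNat : ℕ) : ℤ) + 1 = m := by omega
      simp only [h3] at this
      have h4 := congrArg (PowerSeries.coeff j) this
      unfold pc at h4
      rwa [PowerSeries.coeff_mk, map_zero] at h4
    · exact cf_of_neg f m (not_le.mp hj)
  have h1 : ∀ t : ℤ, ∀ m : ℤ, 1 ≤ m → m ≤ 9 → ∀ j : ℤ, cf f (m + 9 * t) j = 0 := by
    intro t
    induction t using Int.induction_on with
    | zero => intro m a b j; simpa using h0 m a b j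
    | succ t ih =>
      intro m a b j
      have := hf (m + 9 * t) j
      rw [ih m a b, sub_zero, show m + 9 * (t : ℤ) + 9 = m + 9 * (t + 1) by ring] at this
      linear_combination this
    | pred t ih =>
      intro m a b j
      have := hf (m + 9 * (-t - 1)) (j + (m + 9 * (-t - 1)))
      rw [show m + 9 * (-(t : ℤ) - 1) + 9 = m + 9 * (-t) by ring, ih m a b, add_sub_cancel_right] at this
      rw [this]; ring
  apply cf_ext
  intro m j _
  rw [cf_zero]
  have := h1 ((m - 1) / 9) ((m - 1) % 9 + 1) (by omega) (by omega) j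
  rwa [show (m - 1) % 9 + 1 + 9 * ((m - 1) / 9) = m by omega] at this

theorem QP.congr {d c d' c' : ℤ} {C C' : k} {f : RR k} (h : QP d c C f) (hd : d = d')
    (hc : c = c') (hC : C = C') : QP d' c' C' f := by
  subst hd hc hC; exact h

theorem QP_Ex (a : kˣ) : QP 3 0 (-1) (Ex a) := by
  have h := ((theta_QP (1 : kˣ)).mul (theta_QP a)).mul (theta_QP a⁻¹)
  refine h.congr (by norm_num) (by norm_num) ?_
  have := a.mul_inv
  simp only [Units.val_one]
  linear_combination -this

theorem QP_Ey : QP 3 0 (-1) (Ey (k := k)) := by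
  have h := (theta_QP (1 : kˣ)).pow 3
  refine h.congr (by norm_num) (by norm_num) ?_
  simp only [Units.val_one]
  norm_num

theorem QP_Ez (a : kˣ) : QP 3 0 (-1) (Ez a) := by
  have h := ((theta_QP a).pow 2).mul (theta_QP (a ^ (-2 : ℤ)))
  refine h.congr (by norm_num) (by norm_num) ?_
  have h1 : (a : k) ^ 2 * ((a ^ (-2 : ℤ) : kˣ) : k) = 1 := by
    rw [← Units.val_pow_eq_pow_val, ← Units.val_mul]
    have : a ^ 2 * a ^ (-2 : ℤ) = 1 := by
      rw [show (a ^ 2 : kˣ) = a ^ (2 : ℤ) from rfl, ← zpow_add]; simp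
    rw [this]; rfl
  linear_combination -h1

theorem exs_sum : ∀ i : Fin 10, exx i + exy i + exz i = 3 := by decide

theorem QP_mon (a : kˣ) (i : Fin 10) : QP 9 0 (-1) (mon i (Ex a) Ey (Ez a)) := by
  have h := (((QP_Ex a).pow (exx i)).mul ((QP_Ey (k := k)).pow (exy i))).mul ((QP_Ez a).pow (exz i))
  have hi := exs_sum i
  refine h.congr ?_ ?_ ?_
  · rw [← add_mul, ← add_mul]
    rw [← Nat.cast_add, ← Nat.cast_add, hi]; norm_num
  · ring
  · rw [← pow_add, ← pow_add, hi]; norm_num

/-- orders of the ten monomials at `T = 1` -/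
def ordm (i : Fin 10) : ℕ := exx i + 3 * exy i

theorem ordm_inj0 : Set.InjOn ordm ((Finset.univ.erase (0 : Fin 10) : Finset (Fin 10)) : Set (Fin 10)) := by
  intro i hi j hj h
  simp only [Finset.coe_erase, Finset.coe_univ, Set.mem_sdiff, Set.mem_univ, Set.mem_singleton_iff,
    true_and] at hi hj
  revert i j
  decide

theorem ordm_inj4 : Set.InjOn ordm ((Finset.univ.erase (4 : Fin 10) : Finset (Fin 10)) : Set (Fin 10)) := by
  intro i hi j hj h
  simp only [Finset.coe_erase, Finset.coe_univ, Set.mem_sdiff, Set.mem_univ, Set.mem_singleton_iff,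
    true_and] at hi hj
  revert i j
  decide

theorem constantCoeff_KK (a : PowerSeries k) :
    PowerSeries.constantCoeff (KK a) = LaurentPolynomial.C (PowerSeries.constantCoeff a) := by
  unfold KK
  rw [← PowerSeries.coeff_zero_eq_constantCoeff_apply, PowerSeries.coeff_map,
    PowerSeries.coeff_zero_eq_constantCoeff_apply]

/-- evaluation at `T = 1` of Laurent polynomials -/
def ev1 : LP k →+* k := LaurentPolynomial.eval₂ (RingHom.id k) 1

theorem ev1_C (a : k) : ev1 (LaurentPolynomial.C a) = a := by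
  unfold ev1; rw [LaurentPolynomial.eval₂_C]; rfl

theorem ev1_T (n : ℤ) : ev1 (LaurentPolynomial.T n : LP k) = 1 := by
  unfold ev1; rw [LaurentPolynomial.eval₂_T]; simp

/-- the local parameter `T - 1` -/
def pi1 : LP k := LaurentPolynomial.T 1 - LaurentPolynomial.C 1

theorem pi1_ne_zero : (pi1 : LP k) ≠ 0 := by
  intro h
  have h2 := congrArg (fun p : LP k => p.coeff 1) h
  have h3 : (pi1 : LP k).coeff 1 = 1 := by
    unfold pi1
    rw [AddMonoidAlgebra.coeff_sub, Finsupp.sub_apply, LaurentPolynomial.T_apply,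
      LaurentPolynomial.C_apply]
    simp
  simp only [h3] at h2
  exact one_ne_zero h2

theorem ev1_pi1 : ev1 (pi1 : LP k) = 0 := by
  unfold pi1; rw [map_sub, ev1_T, ev1_C, sub_self]

theorem mon_red (a : kˣ) (ha : a ^ 2 ≠ 1) (i : Fin 10) : ∃ v : LP k, ev1 v ≠ 0 ∧
    PowerSeries.constantCoeff (mon i (Ex a) Ey (Ez a)) = pi1 ^ ordm i * v := by
  have ha1 : (a : k) ≠ 1 := by
    intro h
    apply ha
    have : a = 1 := Units.ext h
    rw [this]; simp
  have ha2 : (a : k) ^ 2 ≠ 1 := by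
    intro h
    apply ha
    exact Units.ext (by rw [Units.val_pow_eq_pow_val, h]; rfl)
  have hai : ((a⁻¹ : kˣ) : k) ≠ 1 := by
    intro h
    apply ha1
    have := a.mul_inv
    rw [h, mul_one] at this
    exact this
  let x1 : LP k := -((1 - LaurentPolynomial.T 1 * LaurentPolynomial.C ((a⁻¹ : kˣ) : k)) *
    (1 - LaurentPolynomial.T 1 * LaurentPolynomial.C (((a⁻¹)⁻¹ : kˣ) : k)))
  let y1 : LP k := -1
  let z1 : LP k := (1 - LaurentPolynomial.T 1 * LaurentPolynomial.C ((a⁻¹ : kˣ) : k)) ^ 2 *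
    (1 - LaurentPolynomial.T 1 * LaurentPolynomial.C ((((a ^ (-2 : ℤ) : kˣ))⁻¹ : kˣ) : k))
  have h1 : PowerSeries.constantCoeff (theta (1 : kˣ)) = - pi1 := by
    rw [constantCoeff_theta]
    unfold pi1
    simp
  have hx : PowerSeries.constantCoeff (Ex a) = pi1 * x1 := by
    unfold Ex
    rw [map_mul, map_mul, h1, constantCoeff_theta, constantCoeff_theta]
    simp only [x1]; ring
  have hy : PowerSeries.constantCoeff (Ey (k := k)) = pi1 ^ 3 * y1 := by
    unfold Ey
    rw [map_pow, h1]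
    simp only [y1]; ring
  have hz : PowerSeries.constantCoeff (Ez a) = z1 := by
    unfold Ez
    rw [map_mul, map_pow, constantCoeff_theta, constantCoeff_theta]
  have ex1 : ev1 x1 ≠ 0 := by
    simp only [x1, map_neg, map_mul, map_sub, map_one, ev1_T, ev1_C, one_mul, inv_inv]
    exact neg_ne_zero.mpr (mul_ne_zero (sub_ne_zero.mpr (Ne.symm hai)) (sub_ne_zero.mpr (Ne.symm ha1)))
  have ey1 : ev1 y1 ≠ 0 := by
    simp only [y1, map_neg, map_one]
    exact neg_ne_zero.mpr one_ne_zero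
  have ez1 : ev1 z1 ≠ 0 := by
    simp only [z1, map_mul, map_pow, map_sub, map_one, ev1_T, ev1_C, one_mul]
    refine mul_ne_zero (pow_ne_zero _ (sub_ne_zero.mpr (Ne.symm hai))) (sub_ne_zero.mpr (Ne.symm ?_))
    rw [← zpow_neg]
    simpa using ha2
  refine ⟨x1 ^ exx i * y1 ^ exy i * z1 ^ exz i, ?_, ?_⟩
  · rw [map_mul, map_mul, map_pow, map_pow, map_pow]
    exact mul_ne_zero (mul_ne_zero (pow_ne_zero _ ex1) (pow_ne_zero _ ey1)) (pow_ne_zero _ ez1)
  · unfold mon ordm
    rw [map_mul, map_mul, map_pow, map_pow, map_pow, hx, hy, hz, pow_add, pow_mul]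
    ring_nf

theorem KK_X_pow (N : ℕ) : KK ((PowerSeries.X : PowerSeries k) ^ N) = PowerSeries.X ^ N := by
  unfold KK
  rw [map_pow, PowerSeries.map_X]

theorem exists_cub (a : kˣ) (ha : a ^ 2 ≠ 1) :
    ∃ g : Fin 9 → PowerSeries k, cub (fun i => KK (g i)) (Ex a) Ey (Ez a) = 0 ∧
      PowerSeries.constantCoeff (g 3) ≠ 0 := by
  classical
  -- a linear relation
  have hdep : ¬ LinearIndependent (PowerSeries k)
      (fun (i : Fin 10) (m : Fin 9) => pc (mon i (Ex a) Ey (Ez a)) ((m : ℕ) + 1 : ℤ)) := by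
    intro hli
    have := hli.fintype_card_le_finrank
    simp at this
  rw [Fintype.not_linearIndependent_iff] at hdep
  obtain ⟨γ, hγ, i1, hi1⟩ := hdep
  -- divide by the largest power of `q`
  have hex : ∃ n : ℕ, ¬ ∀ i, (PowerSeries.X : PowerSeries k) ^ n ∣ γ i := by
    by_contra hcon
    push Not at hcon
    apply hi1
    ext j
    exact PowerSeries.X_pow_dvd_iff.mp (hcon (j + 1) i1) j (by omega)
  obtain ⟨N, hN⟩ : ∃ N, Nat.find hex = N + 1 := by
    refine ⟨Nat.find hex - 1, ?_⟩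
    have : Nat.find hex ≠ 0 := by
      intro h0
      have := Nat.find_spec hex
      rw [h0] at this
      exact this (fun i => by simp)
    omega
  have hN1 : ∀ i, (PowerSeries.X : PowerSeries k) ^ N ∣ γ i := by
    have := Nat.find_min hex (show N < Nat.find hex by omega)
    push Not at this
    exact this
  have hN2 : ¬ ∀ i, (PowerSeries.X : PowerSeries k) ^ (N + 1) ∣ γ i := by
    have := Nat.find_spec hex
    rwa [hN] at this
  choose δ hδ using hN1
  have hrel : ∑ i : Fin 10, KK (δ i) * mon i (Ex a) Ey (Ez a) = 0 := by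
    have h1 : ∑ i : Fin 10, KK (γ i) * mon i (Ex a) Ey (Ez a) = 0 := by
      apply QP9_zero
      · exact QP.sum _ fun i _ => (QP_mon a i).KK_mul _
      · intro m
        rw [pc_sum]
        have := congrFun hγ m
        rw [Finset.sum_apply] at this
        rw [← this.trans (by rfl : (0 : Fin 9 → PowerSeries k) m = 0)]
        apply Finset.sum_congr rfl
        intro i _
        rw [pc_KK_mul]
        rfl
    have h2 : (PowerSeries.X : RR k) ^ N * ∑ i : Fin 10, KK (δ i) * mon i (Ex a) Ey (Ez a) = 0 := by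
      rw [← h1, Finset.mul_sum]
      apply Finset.sum_congr rfl
      intro i _
      rw [hδ i, map_mul, KK_X_pow]; ring
    exact (mul_eq_zero.mp h2).resolve_left (pow_ne_zero _ PowerSeries.X_ne_zero)
  obtain ⟨i2, hi2⟩ : ∃ i, PowerSeries.constantCoeff (δ i) ≠ 0 := by
    by_contra hcon
    push Not at hcon
    apply hN2
    intro i
    rw [hδ i, pow_succ]
    exact mul_dvd_mul_left _ (PowerSeries.X_dvd_iff.mpr (hcon i))
  -- reduce modulo `q`
  choose v hv hmv using fun i => mon_red a ha i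
  have hred : ∑ i : Fin 10, LaurentPolynomial.C (PowerSeries.constantCoeff (δ i)) *
      (pi1 ^ ordm i * v i) = 0 := by
    have := congrArg (PowerSeries.constantCoeff) hrel
    rw [map_sum, map_zero] at this
    rw [← this]
    apply Finset.sum_congr rfl
    intro i _
    rw [map_mul, constantCoeff_KK, hmv]
  have key : ∀ i0 : Fin 10, Set.InjOn ordm
      ((Finset.univ.erase i0 : Finset (Fin 10)) : Set (Fin 10)) →
      PowerSeries.constantCoeff (δ i0) = 0 → ∀ i, PowerSeries.constantCoeff (δ i) = 0 := by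
    intro i0 hinj h0 i
    by_cases hi : i = i0
    · rw [hi, h0]
    · have h2 : ∑ i ∈ Finset.univ.erase i0, LaurentPolynomial.C (PowerSeries.constantCoeff (δ i)) *
          (pi1 ^ ordm i * v i) = 0 := by
        rw [← Finset.add_sum_erase _ _ (Finset.mem_univ i0), h0, map_zero, zero_mul, zero_add] at hred
        exact hred
      exact ord_indep (ev1 (k := k)) (LaurentPolynomial.C) ev1_C pi1 pi1_ne_zero ev1_pi1 _ ordm hinj
        (fun i => PowerSeries.constantCoeff (δ i)) v (fun i _ => hv i) h2 i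
        (Finset.mem_erase.mpr ⟨hi, Finset.mem_univ i⟩)
  have h0 : PowerSeries.constantCoeff (δ 0) ≠ 0 := fun h => hi2 (key 0 ordm_inj0 h i2)
  have h4 : PowerSeries.constantCoeff (δ 4) ≠ 0 := fun h => hi2 (key 4 ordm_inj4 h i2)
  have hu : IsUnit (δ 0) := by
    rw [PowerSeries.isUnit_iff_constantCoeff]
    exact isUnit_iff_ne_zero.mpr h0
  obtain ⟨w, hw⟩ := hu.exists_left_inv
  refine ⟨fun i => w * δ i.succ, ?_, ?_⟩
  · rw [cub_eq_sum]
    have h5 : KK w * ∑ i : Fin 10, KK (δ i) * mon i (Ex a) Ey (Ez a) = 0 := by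
      rw [hrel, mul_zero]
    rw [Fin.sum_univ_succ, mul_add, ← mul_assoc, ← map_mul, hw, map_one, one_mul,
      Finset.mul_sum] at h5
    have h6 : mon 0 (Ex a) Ey (Ez a) = Ex a ^ 3 := by
      simp [mon, exx, exy, exz]
    rw [h6] at h5
    rw [← h5]
    refine congrArg (fun t => Ex a ^ 3 + t) (Finset.sum_congr rfl fun i _ => ?_)
    show KK (w * δ i.succ) * mon i.succ (Ex a) Ey (Ez a)
      = KK w * (KK (δ i.succ) * mon i.succ (Ex a) Ey (Ez a))
    rw [map_mul, mul_assoc]
  · show PowerSeries.constantCoeff (w * δ (Fin.succ 3)) ≠ 0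
    rw [map_mul]
    refine mul_ne_zero ?_ h4
    intro h
    have := congrArg (PowerSeries.constantCoeff) hw
    rw [map_mul, h, zero_mul, map_one] at this
    exact zero_ne_one this

end

end Pool.Agent.H957R2.SE
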