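import Pool.Agent.H957R2.SE.ModI

noncomputable section

open PowerSeries

namespace Pool.Agent.H957R2.SE

theorem map_cub {S S' : Type*} [CommRing S] [CommRing S'] (φ : S →+* S') (g : Fin 9 → S) (x y z : S) :
    φ (cub g x y z) = cub (fun i => φ (g i)) (φ x) (φ y) (φ z) := by
  simp only [cub, map_add, map_mul, map_pow]

section Division

variable {S : Type*} [CommRing S]

/-- The cubic form over a general ring. -/
def PhiS (g : Fin 9 → S) : MvPolynomial (Fin 3) S :=
  cub (fun i => MvPolynomial.C (g i)) (MvPolynomial.X 0) (MvPolynomial.X 1) (MvPolynomial.X 2)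

/-- exponent vectors of the ten cubic monomials -/
def mexp (i : Fin 10) : Fin 3 →₀ ℕ :=
  Finsupp.single 0 (exx i) + Finsupp.single 1 (exy i) + Finsupp.single 2 (exz i)

theorem mon_X (i : Fin 10) : mon i (MvPolynomial.X 0) (MvPolynomial.X 1) (MvPolynomial.X 2)
    = (MvPolynomial.monomial (mexp i) 1 : MvPolynomial (Fin 3) S) := by
  unfold mon mexp
  rw [MvPolynomial.X_pow_eq_monomial, MvPolynomial.X_pow_eq_monomial,
    MvPolynomial.X_pow_eq_monomial, MvPolynomial.monomial_mul, MvPolynomial.monomial_mul]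
  simp

/-- division with remainder of `X₀`-degree at most two -/
def Dv (g : Fin 9 → S) (D : ℕ) (F : MvPolynomial (Fin 3) S) : Prop :=
  ∃ G r : MvPolynomial (Fin 3) S, G.IsHomogeneous (D - 3) ∧ r.IsHomogeneous D ∧
    (∀ d, r.coeff d ≠ 0 → d 0 ≤ 2) ∧ F = PhiS g * G + r

theorem Dv.zero (g : Fin 9 → S) (D : ℕ) : Dv g D 0 :=
  ⟨0, 0, MvPolynomial.isHomogeneous_zero _ _ _, MvPolynomial.isHomogeneous_zero _ _ _,
    fun d hd => absurd (MvPolynomial.coeff_zero d) hd, by simp⟩

theorem Dv.add {g : Fin 9 → S} {D : ℕ} {F F' : MvPolynomial (Fin 3) S} (h : Dv g D F)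
    (h' : Dv g D F') : Dv g D (F + F') := by
  obtain ⟨G, r, hG, hr, hd, rfl⟩ := h
  obtain ⟨G', r', hG', hr', hd', rfl⟩ := h'
  refine ⟨G + G', r + r', hG.add hG', hr.add hr', ?_, by ring⟩
  intro d h
  by_cases h1 : r.coeff d = 0
  · apply hd'
    intro h2
    apply h
    rw [MvPolynomial.coeff_add, h1, h2, add_zero]
  · exact hd d h1

theorem Dv.neg {g : Fin 9 → S} {D : ℕ} {F : MvPolynomial (Fin 3) S} (h : Dv g D F) :
    Dv g D (-F) := by
  obtain ⟨G, r, hG, hr, hd, rfl⟩ := h
  refine ⟨-G, -r, hG.neg, hr.neg, ?_, by ring⟩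
  intro d h
  apply hd
  intro h2
  apply h
  rw [MvPolynomial.coeff_neg, h2, neg_zero]

theorem Dv.sum {ι : Type*} (s : Finset ι) {g : Fin 9 → S} {D : ℕ} {F : ι → MvPolynomial (Fin 3) S}
    (h : ∀ i ∈ s, Dv g D (F i)) : Dv g D (∑ i ∈ s, F i) := by
  classical
  induction s using Finset.induction_on with
  | empty => simpa using Dv.zero g D
  | insert a s ha ih =>
    rw [Finset.sum_insert ha]
    exact (h a (Finset.mem_insert_self a s)).add (ih fun i hi => h i (Finset.mem_insert_of_mem hi))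

theorem Phi_mul_monomial (g : Fin 9 → S) (d : Fin 3 →₀ ℕ) (c : S) :
    PhiS g * MvPolynomial.monomial d c = MvPolynomial.monomial (d + Finsupp.single 0 3) c
      + ∑ i : Fin 9, MvPolynomial.monomial (mexp i.succ + d) (g i * c) := by
  unfold PhiS
  rw [cub_eq_sum, add_mul, Finset.sum_mul]
  congr 1
  · rw [MvPolynomial.X_pow_eq_monomial, MvPolynomial.monomial_mul, one_mul, add_comm]
  · apply Finset.sum_congr rfl
    intro i _
    rw [mon_X, MvPolynomial.C_mul_monomial, MvPolynomial.monomial_mul, mul_one]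

theorem exx_succ_le : ∀ i : Fin 9, exx i.succ ≤ 2 := by decide

theorem mexp_zero (i : Fin 10) : mexp i 0 = exx i := by
  simp [mexp]

theorem mexp_degree (i : Fin 10) : (mexp i).degree = 3 := by
  have := exs_sum i
  unfold mexp
  simpa [map_add] using this

theorem Dv.monomial (g : Fin 9 → S) (D : ℕ) (n : ℕ) : ∀ (d : Fin 3 →₀ ℕ) (c : S), d 0 = n →
    d.degree = D → Dv g D (MvPolynomial.monomial d c) := by
  induction n using Nat.strong_induction_on with
  | _ n ih =>
    intro d c hn hD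
    by_cases h2 : n ≤ 2
    · refine ⟨0, MvPolynomial.monomial d c, MvPolynomial.isHomogeneous_zero _ _ _,
        MvPolynomial.isHomogeneous_monomial c hD, ?_, by simp⟩
      intro d' hd'
      classical
      rw [MvPolynomial.coeff_monomial] at hd'
      by_cases he : d = d'
      · rw [← he, hn]; exact h2
      · rw [if_neg he] at hd'
        exact absurd rfl hd'
    · obtain ⟨d', rfl⟩ : ∃ d', d = d' + Finsupp.single 0 3 := by
        refine ⟨d - Finsupp.single 0 3, ?_⟩
        rw [tsub_add_cancel_of_le]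
        rw [Finsupp.single_le_iff]
        omega
      have hd0 : (d' + Finsupp.single (0 : Fin 3) 3 : Fin 3 →₀ ℕ) 0 = d' 0 + 3 := by simp
      rw [hd0] at hn
      have hdeg : (d' + Finsupp.single (0 : Fin 3) 3).degree = d'.degree + 3 := by
        simp [map_add]
      rw [hdeg] at hD
      have h1 := Phi_mul_monomial g d' c
      have h3 : MvPolynomial.monomial (d' + Finsupp.single 0 3) c
          = PhiS g * MvPolynomial.monomial d' c
            + -∑ i : Fin 9, MvPolynomial.monomial (mexp i.succ + d') (g i * c) := by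
        rw [h1]; ring
      rw [h3]
      apply Dv.add
      · exact ⟨MvPolynomial.monomial d' c, 0, MvPolynomial.isHomogeneous_monomial c (by omega),
          MvPolynomial.isHomogeneous_zero _ _ _, fun d hd => absurd (MvPolynomial.coeff_zero d) hd,
          by simp⟩
      · apply Dv.neg
        apply Dv.sum
        intro i _
        have h4 : (mexp i.succ + d') 0 = exx i.succ + d' 0 := by
          rw [Finsupp.add_apply, mexp_zero]
        have h5 := exx_succ_le i
        exact ih ((mexp i.succ + d') 0) (by omega) _ _ rfl (by rw [map_add, mexp_degree]; omega)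

theorem Dv.of_homogeneous (g : Fin 9 → S) (D : ℕ) (F : MvPolynomial (Fin 3) S)
    (hF : F.IsHomogeneous D) : Dv g D F := by
  rw [← MvPolynomial.support_sum_monomial_coeff F]
  apply Dv.sum
  intro d hd
  apply Dv.monomial g D (d 0) d _ rfl
  rw [Finsupp.degree_eq_weight_one]
  exact hF (MvPolynomial.mem_support_iff.mp hd)

end Division

section J
variable {k : Type*} [Field k]

/-- The cubic form. -/
def Phi (g : Fin 9 → PowerSeries k) : MvPolynomial (Fin 3) (PowerSeries k) :=
  cub (fun i => MvPolynomial.C (g i)) (MvPolynomial.X 0) (MvPolynomial.X 1) (MvPolynomial.X 2)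

/-- Evaluation of forms on the curve. -/
def evE (a : kˣ) : MvPolynomial (Fin 3) (PowerSeries k) →+* RR k :=
  MvPolynomial.eval₂Hom KK ![Ex a, Ey, Ez a]

theorem Th_ne_zero {u : kˣ} (hu : (u : k) ≠ 1) : Th u ≠ 0 := by
  intro h
  have := constantCoeff_Th u
  rw [h, map_zero] at this
  exact hu (by linear_combination this)

theorem evE_inj (a : kˣ) (ha : a ^ 2 ≠ 1) (D : ℕ) (r : MvPolynomial (Fin 3) (PowerSeries k))
    (hr : r.IsHomogeneous D) (hd : ∀ d, r.coeff d ≠ 0 → d 0 ≤ 2) (h0 : evE a r = 0) : r = 0 := by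
  have ha1 : (a : k) ≠ 1 := by
    intro h
    apply ha
    have : a = 1 := Units.ext h
    rw [this]; simp
  have ha2 : (a : k) ^ 2 ≠ 1 := by
    intro h
    apply ha
    exact Units.ext (by rw [Units.val_pow_eq_pow_val, h]; rfl)
  have hai : ((a⁻¹ : kˣ) : k) ≠ 1 := by
    intro h
    apply ha1
    have := a.mul_inv
    rw [h, mul_one] at this
    exact this
  obtain ⟨u1, hu1⟩ := theta_lin (1 : kˣ)
  have eu1 : EV (1 : kˣ) (u1 : RR k) ≠ 0 := (u1.isUnit.map (EV (1 : kˣ))).ne_zero
  have eta : EV (1 : kˣ) (theta a) ≠ 0 := by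
    rw [EV_theta, one_mul]; exact Th_ne_zero hai
  have etai : EV (1 : kˣ) (theta a⁻¹) ≠ 0 := by
    rw [EV_theta, one_mul, inv_inv]; exact Th_ne_zero ha1
  have etz : EV (1 : kˣ) (theta (a ^ (-2 : ℤ))) ≠ 0 := by
    rw [EV_theta, one_mul]
    apply Th_ne_zero
    rw [← zpow_neg]
    simpa using ha2
  set ux : RR k := u1 * theta a * theta a⁻¹ with hux
  set uy : RR k := (u1 : RR k) ^ 3 with huy
  have eux : EV (1 : kˣ) ux ≠ 0 := by
    rw [hux, map_mul, map_mul]; exact mul_ne_zero (mul_ne_zero eu1 eta) etai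
  have euy : EV (1 : kˣ) uy ≠ 0 := by
    rw [huy, map_pow]; exact pow_ne_zero _ eu1
  have euz : EV (1 : kˣ) (Ez a) ≠ 0 := by
    unfold Ez
    rw [map_mul, map_pow]; exact mul_ne_zero (pow_ne_zero _ eta) etz
  have hx : Ex a = lin 1 * ux := by
    unfold Ex; rw [hu1, hux]; ring
  have hy : Ey (k := k) = lin 1 ^ 3 * uy := by
    unfold Ey; rw [hu1, huy]; ring
  clear_value ux uy
  have h1 : ∑ d ∈ r.support, KK (r.coeff d) * (lin (1 : kˣ) ^ (d 0 + 3 * d 1)
      * (ux ^ d 0 * uy ^ d 1 * Ez a ^ d 2)) = 0 := by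
    rw [← h0]
    unfold evE
    rw [MvPolynomial.coe_eval₂Hom, MvPolynomial.eval₂_eq']
    apply Finset.sum_congr rfl
    intro d _
    rw [Fin.prod_univ_three]
    simp only [Matrix.cons_val_zero, Matrix.cons_val_one, Matrix.cons_val]
    rw [hx, hy, mul_pow, mul_pow, ← pow_mul, pow_add]
    ring
  have h2 : Set.InjOn (fun d : Fin 3 →₀ ℕ => d 0 + 3 * d 1) (r.support : Set (Fin 3 →₀ ℕ)) := by
    intro d hds d' hds' he
    simp only at he
    have hc := MvPolynomial.mem_support_iff.mp hds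
    have hc' := MvPolynomial.mem_support_iff.mp hds'
    have a1 := hd d hc
    have a2 := hd d' hc'
    have b1 : d.degree = D := by rw [Finsupp.degree_eq_weight_one]; exact hr hc
    have b2 : d'.degree = D := by rw [Finsupp.degree_eq_weight_one]; exact hr hc'
    rw [Finsupp.degree_eq_sum, Fin.sum_univ_three] at b1 b2
    ext i
    fin_cases i
    · show d 0 = d' 0
      omega
    · show d 1 = d' 1
      omega
    · show d 2 = d' 2
      omega
  have h3 := ord_indep (EV (1 : kˣ)) KK (EV_KK 1) (lin 1) (lin_ne_zero 1) (EV_lin_self 1) r.support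
    _ h2 (fun d => r.coeff d) (fun d => ux ^ d 0 * uy ^ d 1 * Ez a ^ d 2) (fun d _ => by
      rw [map_mul, map_mul, map_pow, map_pow, map_pow]
      exact mul_ne_zero (mul_ne_zero (pow_ne_zero _ eux) (pow_ne_zero _ euy)) (pow_ne_zero _ euz)) h1
  ext1 d
  rw [MvPolynomial.coeff_zero]
  by_contra hne
  exact hne (h3 d (MvPolynomial.mem_support_iff.mpr hne))

theorem evE_ker (a : kˣ) (ha : a ^ 2 ≠ 1) (g : Fin 9 → PowerSeries k)
    (hg : cub (fun i => KK (g i)) (Ex a) Ey (Ez a) = 0)
    (D : ℕ) (F : MvPolynomial (Fin 3) (PowerSeries k)) (hF : F.IsHomogeneous D)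
    (h0 : evE a F = 0) : ∃ G : MvPolynomial (Fin 3) (PowerSeries k),
      G.IsHomogeneous (D - 3) ∧ F = Phi g * G := by
  obtain ⟨G, r, hG, hr, hd, hFe⟩ := Dv.of_homogeneous g D F hF
  refine ⟨G, hG, ?_⟩
  have h1 : evE a (PhiS g) = 0 := by
    unfold PhiS
    rw [map_cub, ← hg]
    unfold evE
    simp only [MvPolynomial.coe_eval₂Hom, MvPolynomial.eval₂_C, MvPolynomial.eval₂_X]
    rfl
  have h2 : evE a r = 0 := by
    rw [hFe, map_add, map_mul, h1, zero_mul, zero_add] at h0
    exact h0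
  have h3 := evE_inj a ha D r hr hd h2
  rw [hFe, h3, add_zero]
  rfl

end J

end Pool.Agent.H957R2.SE
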