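import Pool.Agent.H957R2.SE.HZero
import Pool.Agent.H957R2.SE.FFdef

noncomputable section

open PowerSeries

namespace Pool.Agent.H957R2.SE

section
variable {k : Type*} [Field k]

theorem coeff_C_mul' (a : k) (p : LP k) (m : ℤ) :
    (LaurentPolynomial.C a * p).coeff m = a * p.coeff m := by
  rw [← LaurentPolynomial.smul_eq_C_mul]; rfl

theorem coeff_CT_mono {B : Type*} [CommRing B] (a : B) (n m : ℤ) :
    ((LaurentPolynomial.C a * LaurentPolynomial.T n : LP B)).coeff m = if m = n then a else 0 := by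
  rw [← LaurentPolynomial.single_eq_C_mul_T, AddMonoidAlgebra.coeff_single, Finsupp.single_apply]
  simp only [eq_comm]

theorem coeff_eval_UV (p : LP k) (m : ℤ) :
    (LaurentPolynomial.eval₂ (i2 : k →+* LP2 k) (uU * uV) p).coeff m
      = LaurentPolynomial.C (p.coeff m) * LaurentPolynomial.T m := by
  induction p using LaurentPolynomial.induction_on' with
  | add p q hp hq =>
    rw [map_add, AddMonoidAlgebra.coeff_add, Finsupp.add_apply, hp, hq, AddMonoidAlgebra.coeff_add,
      Finsupp.add_apply, map_add]; ring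
  | C_mul_T n a =>
    have hz : ((uU * uV : (LP2 k)ˣ) ^ n) = uU ^ n * uV ^ n := mul_zpow (α := (LP2 k)ˣ) uU uV n
    rw [LaurentPolynomial.eval₂_C_mul_T, coeff_CT_mono, hz, Units.val_mul]
    have h1 : ((uU ^ n : (LP2 k)ˣ) : LP2 k) = LaurentPolynomial.T n := uT_zpow n
    have h2 : ((uV ^ n : (LP2 k)ˣ) : LP2 k) = LaurentPolynomial.C (LaurentPolynomial.T n) := by
      unfold uV; rw [uC_zpow, uC_val, uT_zpow]
    rw [h1, h2]
    have h3 : (i2 a : LP2 k) * (LaurentPolynomial.T n * LaurentPolynomial.C (LaurentPolynomial.T n))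
      = LaurentPolynomial.C (LaurentPolynomial.C a * LaurentPolynomial.T n) *
        LaurentPolynomial.T n := by
      unfold i2
      rw [RingHom.comp_apply, map_mul]; ring
    rw [h3, coeff_CT_mono]
    by_cases h : m = n
    · subst h; simp
    · simp [h]

theorem coeff_eval_U (p : LP k) (m : ℤ) :
    (LaurentPolynomial.eval₂ (i2 : k →+* LP2 k) uU p).coeff m = LaurentPolynomial.C (p.coeff m) := by
  induction p using LaurentPolynomial.induction_on' with
  | add p q hp hq =>
    rw [map_add, AddMonoidAlgebra.coeff_add, Finsupp.add_apply, hp, hq, AddMonoidAlgebra.coeff_add,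
      Finsupp.add_apply, map_add]
  | C_mul_T n a =>
    rw [LaurentPolynomial.eval₂_C_mul_T, coeff_CT_mono]
    have h1 : ((uU ^ n : (LP2 k)ˣ) : LP2 k) = LaurentPolynomial.T n := uT_zpow n
    rw [h1]
    have h3 : (i2 a : LP2 k) * (LaurentPolynomial.T n)
      = LaurentPolynomial.C (LaurentPolynomial.C a) * LaurentPolynomial.T n := by
      unfold i2
      rw [RingHom.comp_apply]
    rw [h3, coeff_CT_mono]
    by_cases h : m = n
    · subst h; simp
    · simp [h]

theorem cf_zUV (f : RR k) (m j : ℤ) :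
    cf (zUV f) m j = LaurentPolynomial.C (cf f m j) * LaurentPolynomial.T m := by
  unfold cf zUV zs
  by_cases h : 0 ≤ j
  · rw [if_pos h, if_pos h, PowerSeries.coeff_map, coeff_eval_UV]
  · rw [if_neg h, if_neg h]; simp

theorem cf_zU (f : RR k) (m j : ℤ) : cf (zU f) m j = LaurentPolynomial.C (cf f m j) := by
  unfold cf zU zs
  by_cases h : 0 ≤ j
  · rw [if_pos h, if_pos h, PowerSeries.coeff_map, coeff_eval_U]
  · rw [if_neg h, if_neg h]; simp

theorem QP_zUV {d c : ℤ} {γ : k} {f : RR k} (h : QP d c γ f) :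
    QP d c (LaurentPolynomial.C γ * LaurentPolynomial.T (-d)) (zUV f) := by
  intro m j
  rw [cf_zUV, cf_zUV, h m j, map_mul]
  have : (LaurentPolynomial.T m : LP k) = LaurentPolynomial.T (-d) * LaurentPolynomial.T (m + d) := by
    rw [← LaurentPolynomial.T_add]; congr 1; ring
  rw [this]; ring

theorem QP_zU {d c : ℤ} {γ : k} {f : RR k} (h : QP d c γ f) :
    QP d c (LaurentPolynomial.C γ) (zU f) := by
  intro m j
  rw [cf_zU, cf_zU, h m j, map_mul]

theorem eval₂_C_uT (p : LP k) : LaurentPolynomial.eval₂ (LaurentPolynomial.C : k →+* LP k) uT p = p := by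
  induction p using LaurentPolynomial.induction_on' with
  | add p q hp hq => rw [map_add, hp, hq]
  | C_mul_T n a => rw [LaurentPolynomial.eval₂_C_mul_T, uT_zpow]

theorem zs_C_uT (f : RR k) : zs (LaurentPolynomial.C : k →+* LP k) uT f = f := by
  ext j : 1
  unfold zs
  rw [PowerSeries.coeff_map, eval₂_C_uT]

theorem zV_eq_KK (f : RR k) : zV f = KK f := by
  unfold zV KK
  have : (i2 : k →+* LP2 k) = (LaurentPolynomial.C : LP k →+* LP2 k).comp LaurentPolynomial.C := rfl
  rw [this]
  have h2 : (uV : (LP2 k)ˣ) = Units.map (LaurentPolynomial.C : LP k →+* LP2 k).toMonoidHom uT := rfl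
  rw [h2, ← map_zs, zs_C_uT]

theorem QP_zV (f : RR k) : QP 0 0 1 (zV f) := by
  rw [zV_eq_KK]; exact QP.KK f

theorem zUV_KK (z : PowerSeries k) : zUV (KK z) = KK (KK z) := by
  unfold zUV
  rw [zs_KK]
  unfold KK i2
  rw [PowerSeries.map_comp]; rfl

theorem EV_uU (x : (LP k)ˣ) (f : RR k) : EV x (zU f) = zs LaurentPolynomial.C x f := by
  have h1 : EV x (zU f) = PowerSeries.map (LaurentPolynomial.eval₂ (RingHom.id (LP k)) x)
    (zs i2 uU f) := rfl
  rw [h1, map_zs]
  congr 1
  congr 1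
  · ext a : 1
    show LaurentPolynomial.eval₂ (RingHom.id (LP k)) x
      (LaurentPolynomial.C (LaurentPolynomial.C a)) = _
    rw [LaurentPolynomial.eval₂_C]; rfl
  · ext : 1
    show LaurentPolynomial.eval₂ (RingHom.id (LP k)) x (LaurentPolynomial.T 1) = _
    rw [LaurentPolynomial.eval₂_T, zpow_one]

theorem EV_zV (x : (LP k)ˣ) (f : RR k) : EV x (zV f) = f := by
  rw [zV_eq_KK, EV_KK]

theorem EV_one_zUV (f : RR k) : EV (1 : (LP k)ˣ) (zUV f) = f := by
  have h1 : EV (1 : (LP k)ˣ) (zUV f) = PowerSeries.map (LaurentPolynomial.eval₂ (RingHom.id (LP k)) 1)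
    (zs i2 (uU * uV) f) := rfl
  rw [h1, map_zs]
  conv_rhs => rw [← zs_C_uT f]
  congr 1
  congr 1
  · ext a : 1
    show LaurentPolynomial.eval₂ (RingHom.id (LP k)) 1
      (LaurentPolynomial.C (LaurentPolynomial.C a)) = _
    rw [LaurentPolynomial.eval₂_C]; rfl
  · ext : 1
    show LaurentPolynomial.eval₂ (RingHom.id (LP k)) 1
      ((LaurentPolynomial.T 1) * LaurentPolynomial.C (LaurentPolynomial.T 1)) = _
    rw [map_mul, LaurentPolynomial.eval₂_C, LaurentPolynomial.eval₂_T, one_zpow]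
    simp [uT_val]

theorem QP_evE (a : kˣ) (D : ℕ) (G : MvPolynomial (Fin 3) (PowerSeries k)) (hG : G.IsHomogeneous D) :
    QP (3 * D) 0 ((-1) ^ D) (evE a G) := by
  unfold evE
  rw [MvPolynomial.coe_eval₂Hom, MvPolynomial.eval₂_eq']
  apply QP.sum
  intro d hd
  have b1 : d.degree = D := by
    rw [Finsupp.degree_eq_weight_one]; exact hG (MvPolynomial.mem_support_iff.mp hd)
  rw [Finsupp.degree_eq_sum, Fin.sum_univ_three] at b1
  apply QP.KK_mul
  rw [Fin.prod_univ_three]
  have h1 := ((QP_Ex a).pow (d 0)).mul ((QP_Ey (k := k)).pow (d 1))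
  have h2 := h1.mul ((QP_Ez a).pow (d 2))
  refine h2.congr ?_ ?_ ?_
  · rw [← b1]; push_cast; ring
  · ring
  · rw [← b1]; ring

end

end Pool.Agent.H957R2.SE
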