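import Pool.Agent.H957R2.SE.Hom

noncomputable section

open PowerSeries

namespace Pool.Agent.H957R2.SE

variable {k : Type*} [Field k]

/-- the exponents `-45, 1, …, 9` of the ten points `ξ^e` -/
def ee (j : ℕ) : ℤ := if j = 0 then -45 else j

/-- the multiplicities `36 n, 35 n, …, 35 n` of the fibres -/
def mm (n j : ℕ) : ℕ := if j = 0 then 36 * n else 35 * n

theorem ee_inj {i j : ℕ} (_ : i ∈ Finset.range 10) (_ : j ∈ Finset.range 10) (h : ee i = ee j) :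
    i = j := by
  unfold ee at h
  split_ifs at h <;> omega

theorem sum_mm (n : ℕ) : ∑ j ∈ Finset.range 10, mm n j = 351 * n := by
  simp only [Finset.sum_range_succ, Finset.sum_range_zero, mm]
  norm_num
  ring

theorem sum_ee_mm (n : ℕ) : ∑ j ∈ Finset.range 10, (-(ee j) * (mm n j : ℤ)) = 45 * n := by
  simp only [Finset.sum_range_succ, Finset.sum_range_zero, mm, ee]
  norm_num
  ring

theorem prod_zpow_eq {G ι : Type*} [CommGroup G] (s : Finset ι) (a : G) (f : ι → ℤ) :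
    ∏ i ∈ s, a ^ f i = a ^ (∑ i ∈ s, f i) := by
  classical
  induction s using Finset.induction_on with
  | empty => simp
  | insert b s hb ih => rw [Finset.prod_insert hb, Finset.sum_insert hb, zpow_add, ih]

theorem xpow_inj (ξ : kˣ) (hξ : ∀ i : ℤ, i ≠ 0 → ξ ^ i ≠ 1) {a b : ℤ} (h : ξ ^ a = ξ ^ b) :
    a = b := by
  by_contra hab
  apply hξ (a - b) (sub_ne_zero.mpr hab)
  rw [zpow_sub, h, mul_inv_cancel]

theorem xV_injective {x y : kˣ} (h : xV x = xV y) : x = y := by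
  unfold xV at h
  have h1 := mul_right_cancel h
  unfold uC at h1
  have h2 := congrArg (fun u : (LP k)ˣ => (u : LP k).coeff 0) h1
  ext
  simpa [LaurentPolynomial.C_apply] using h2

theorem coeff_T_mul' (N : ℤ) (g : LP k) (m : ℤ) :
    (LaurentPolynomial.T N * g).coeff m = g.coeff (m - N) := coeff_T_mul N g m

theorem QP_of_c2 (d ν : ℤ) (γ : kˣ) (H : RR2 k)
    (hQ : ∀ m l j : ℤ, c2 H m l (j - m) = (γ : k) * c2 H (m + d) (l - ν) j) :
    QP d 0 ((uC γ * uT ^ ν : (LP k)ˣ) : LP k) H := by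
  intro m j
  apply LaurentPolynomial.ext
  intro l
  have := hQ m l j
  unfold c2 at this
  rw [this, sub_zero, Units.val_mul, uT_zpow, uC_val, mul_assoc]
  rw [← coeff_T_mul ν (cf H (m + d) j) l]
  generalize LaurentPolynomial.T ν * cf H (m + d) j = p
  have h1 : (LaurentPolynomial.C (γ : k) * p).coeff l = (γ : k) * p.coeff l := by
    rw [← LaurentPolynomial.smul_eq_C_mul]; rfl
  rw [h1]

theorem c2_of_QP (d ν : ℤ) (γ : kˣ) (H : RR2 k)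
    (hQ : QP d 0 ((uC γ * uT ^ ν : (LP k)ˣ) : LP k) H) (m l j : ℤ) :
    c2 H m l (j - m) = (γ : k) * c2 H (m + d) (l - ν) j := by
  unfold c2
  rw [hQ m j, sub_zero, Units.val_mul, uT_zpow, uC_val, mul_assoc]
  rw [← coeff_T_mul ν (cf H (m + d) j) l]
  generalize LaurentPolynomial.T ν * cf H (m + d) j = p
  rw [← LaurentPolynomial.smul_eq_C_mul]; rfl

/-- The product of the fibre thetas. -/
def Theta (ξ : kˣ) (n : ℕ) : RR2 k := ∏ j ∈ Finset.range 10, theta (xV (ξ ^ ee j)) ^ mm n j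

theorem Theta_ne_zero (ξ : kˣ) (n : ℕ) : Theta ξ n ≠ 0 := by
  unfold Theta
  rw [Finset.prod_ne_zero_iff]
  intro j _
  apply pow_ne_zero
  intro h
  exact theta_not_X_dvd (xV (ξ ^ ee j)) (h ▸ dvd_zero _)

theorem Theta_eq (ξ : kˣ) (n : ℕ) :
    Theta ξ n = zUV (∏ j ∈ Finset.range 10, theta (ξ ^ ee j) ^ mm n j) := by
  unfold Theta
  rw [map_prod]
  apply Finset.prod_congr rfl
  intro j _
  rw [map_pow, zUV_theta]

theorem Sw_Theta (ξ : kˣ) (n : ℕ) : Sw (Theta ξ n) = Theta ξ n := by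
  rw [Theta_eq, Sw_zUV]

theorem mult_calc (ξ : kˣ) (n : ℕ) :
    ((uC 1 * uT ^ (-(333 * n : ℤ)) : (LP k)ˣ) *
      ∏ j ∈ Finset.range 10, ((-(xV (ξ ^ ee j)))⁻¹) ^ mm n j)
    = uC ((-1) ^ n * ξ ^ (45 * n : ℤ)) * uT ^ (18 * n : ℤ) := by
  have h1 : ∀ j, ((-(xV (ξ ^ ee j)))⁻¹ : (LP k)ˣ) ^ mm n j
      = (-1) ^ mm n j * (uC ξ) ^ (-(ee j) * (mm n j : ℤ)) * uT ^ mm n j := by
    intro j
    have h2 : ((-(xV (ξ ^ ee j)))⁻¹ : (LP k)ˣ) = (-1) * (uC ξ) ^ (-(ee j)) * uT := by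
      unfold xV
      rw [← uC_zpow, inv_neg, mul_inv, inv_inv, zpow_neg]
      rw [neg_one_mul, neg_mul]
    rw [h2, mul_pow, mul_pow, zpow_mul, zpow_natCast]
  simp only [h1]
  rw [Finset.prod_mul_distrib, Finset.prod_mul_distrib, Finset.prod_pow_eq_pow_sum,
    Finset.prod_pow_eq_pow_sum, prod_zpow_eq, sum_mm, sum_ee_mm, uC_one, one_mul]
  have h3 : ((-1 : (LP k)ˣ)) ^ (351 * n) = (-1) ^ n := by
    have h31 : (-1 : (LP k)ˣ) ^ 351 = -1 := Odd.neg_one_pow ⟨175, by norm_num⟩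
    rw [pow_mul, h31]
  have h4 : (uT : (LP k)ˣ) ^ (351 * n) = uT ^ (351 * n : ℤ) := by
    rw [← zpow_natCast]; push_cast; rfl
  have h5 : (uC ((-1 : kˣ) ^ n * ξ ^ (45 * n : ℤ)) : (LP k)ˣ) = (-1) ^ n * uC ξ ^ (45 * n : ℤ) := by
    rw [uC_mul, ← uC_zpow]
    congr 1
    unfold uC
    rw [map_pow]
    congr 1
    ext : 1
    simp
  rw [h3, h4, h5]
  have h6 : (uT : (LP k)ˣ) ^ (18 * n : ℤ) = uT ^ (-(333 * n : ℤ)) * uT ^ (351 * n : ℤ) := by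
    rw [← zpow_add]; congr 1; ring
  rw [h6]
  rw [mul_left_comm]

theorem exists_H1 (ξ : kˣ) (hξ : ∀ i : ℤ, i ≠ 0 → ξ ^ i ≠ 1) (n : ℕ) (hn : 0 < n) (H : RR2 k)
    (hQ : ∀ m l j : ℤ, c2 H m l (j - m) = c2 H (m + 370 * n) (l + 333 * n) j)
    (hd : ∀ j ∈ Finset.range 10, zUV (lin (ξ ^ ee j)) ^ mm n j ∣ H) :
    ∃ H₁ : RR2 k, H = Theta ξ n * H₁ ∧
      ∀ m l j : ℤ, c2 H₁ m l (j - m)
        = ((-1) ^ n * ((ξ ^ (45 * n : ℤ) : kˣ) : k)) * c2 H₁ (m + 19 * n) (l - 18 * n) j := by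
  have hq : QP (370 * n) 0 ((uC 1 * uT ^ (-(333 * n : ℤ)) : (LP k)ˣ) : LP k) H := by
    apply QP_of_c2
    intro m l j
    rw [Units.val_one, one_mul, sub_neg_eq_add]
    exact hQ m l j
  obtain ⟨H₁, h1, h2⟩ := DLs (Finset.range 10) (fun j => xV (ξ ^ ee j))
    (by
      intro i hi j hj hij
      exact ee_inj hi hj (xpow_inj ξ hξ (xV_injective hij)))
    (mm n) (370 * n) 0 (uC 1 * uT ^ (-(333 * n : ℤ)))
    (by rw [sum_mm]; push_cast; omega) H hq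
    (fun j hj => (lin_xV_pow_dvd_iff _ _ _).mpr (hd j hj))
  refine ⟨H₁, h1, ?_⟩
  rw [sum_mm, mult_calc] at h2
  have h3 := c2_of_QP _ _ _ _ h2
  intro m l j
  rw [h3]
  have e1 : m + (370 * (n : ℤ) - ((351 * n : ℕ) : ℤ)) = m + 19 * n := by push_cast; ring
  rw [e1]
  push_cast
  rfl

theorem order_H1 (ξ : kˣ) (hξ : ∀ i : ℤ, i ≠ 0 → ξ ^ i ≠ 1) (n : ℕ) (H₁ : RR2 k) (i : ℕ)
    (hi : i ∈ Finset.range 10) (N : ℕ)
    (h : ep ^ (mm n i + N) ∣ BT (ξ ^ ee i) (Theta ξ n * H₁)) : ep ^ N ∣ BT (ξ ^ ee i) H₁ := by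
  rw [Theta_eq, map_mul, ← Finset.mul_prod_erase _ _ hi, map_mul, map_mul, map_pow, map_pow,
    mul_assoc] at h
  have h1 := ep_order_zUV_theta (ξ ^ ee i) (mm n i) N _ h
  refine Prime.pow_dvd_of_dvd_mul_left ep_prime_aux N ?_ h1
  rw [ep_dvd_BT_zUV]
  intro h2
  obtain ⟨j, hj, h4⟩ := (Prime.dvd_finsetProd_iff (lin_prime _) _).mp h2
  have h5 := (lin_prime _).dvd_of_dvd_pow h4
  refine lin_not_dvd_theta ?_ h5
  intro h6
  rw [Finset.mem_erase] at hj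
  exact hj.1 (ee_inj hj.2 hi (xpow_inj ξ hξ h6.symm))

end Pool.Agent.H957R2.SE
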