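import Pool.Agent.H957R2.SE.DL

noncomputable section

open PowerSeries

namespace Pool.Agent.H957R2.SE

variable {k : Type*} [Field k]

/-- Laurent polynomials: product with a polynomial. -/
theorem exists_T_mul_toLaurent (g : LP k) (hg : g ≠ 0) :
    ∃ (N : ℤ) (p : Polynomial k), p.coeff 0 ≠ 0 ∧ g = LaurentPolynomial.T N * Polynomial.toLaurent p := by
  obtain ⟨n, f, hf⟩ := LaurentPolynomial.exists_T_pow g
  have hf0 : f ≠ 0 := by
    rintro rfl
    rw [map_zero] at hf
    apply hg
    have h2 : g * LaurentPolynomial.T (n : ℤ) * LaurentPolynomial.T (-(n : ℤ)) = 0 := by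
      rw [← hf, zero_mul]
    rw [LaurentPolynomial.mul_T_assoc, add_neg_cancel, LaurentPolynomial.T_zero, mul_one] at h2
    exact h2
  obtain ⟨p, hp, hp'⟩ := Polynomial.exists_eq_pow_rootMultiplicity_mul_and_not_dvd f hf0 0
  refine ⟨(Polynomial.rootMultiplicity 0 f : ℤ) - n, p, ?_, ?_⟩
  · intro h
    apply hp'
    rw [map_zero, sub_zero]
    exact Polynomial.X_dvd_iff.mpr h
  · have h2 : g = Polynomial.toLaurent f * LaurentPolynomial.T (-(n : ℤ)) := by
      rw [hf, LaurentPolynomial.mul_T_assoc, add_neg_cancel, LaurentPolynomial.T_zero, mul_one]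
    rw [h2]
    conv_lhs => rw [hp]
    rw [map_mul, map_pow, map_sub, Polynomial.toLaurent_X, map_zero, map_zero, sub_zero,
      LaurentPolynomial.T_pow, mul_one, sub_eq_add_neg, LaurentPolynomial.T_add]
    ring

theorem coeff_T_mul (N : ℤ) (g : LP k) (m : ℤ) :
    (LaurentPolynomial.T N * g).coeff m = g.coeff (m - N) := by
  rw [show (LaurentPolynomial.T N : LP k) = LaurentPolynomial.C 1 * LaurentPolynomial.T N by simp,
    ← LaurentPolynomial.single_eq_C_mul_T, AddMonoidAlgebra.coeff_single_mul_apply, one_mul]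
  congr 1; ring

theorem coeff_toLaurent_nat (p : Polynomial k) (n : ℕ) :
    (Polynomial.toLaurent p).coeff (n : ℤ) = p.coeff n := by
  induction p using Polynomial.induction_on' with
  | add p q hp hq => rw [map_add, AddMonoidAlgebra.coeff_add, Finsupp.add_apply, hp, hq,
      Polynomial.coeff_add]
  | monomial m a =>
    rw [← Polynomial.C_mul_X_pow_eq_monomial, Polynomial.toLaurent_C_mul_X_pow,
      ← LaurentPolynomial.single_eq_C_mul_T, AddMonoidAlgebra.coeff_single,
      Polynomial.coeff_C_mul_X_pow]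
    by_cases h : n = m
    · subst h; simp
    · rw [Finsupp.single_eq_of_ne (by exact_mod_cast h), if_neg h]

/-- The reduction lemma for Laurent polynomials. -/
theorem RL_aux (P : Polynomial k) (hP : P.Monic) (hP0 : P.coeff 0 ≠ 0) (g h : LP k)
    (hg : g ≠ 0) (hh : h = Polynomial.toLaurent P * g) (c : ℤ) (d : ℕ) (C₀ : k)
    (hlow : ∀ m, m < c → h.coeff m = 0) (hhigh : ∀ m, c + d < m → h.coeff m = 0)
    (hmid : h.coeff c = C₀ * h.coeff (c + d)) :
    P.natDegree < d ∨ (P.natDegree = d ∧ P.coeff 0 = C₀) := by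
  obtain ⟨N, p, hp0, hp⟩ := exists_T_mul_toLaurent g hg
  have hp1 : p ≠ 0 := by rintro rfl; simp at hp0
  have h1 : h = LaurentPolynomial.T N * Polynomial.toLaurent (P * p) := by
    rw [hh, hp, map_mul]; ring
  have h2 : ∀ n : ℕ, h.coeff (N + n) = (P * p).coeff n := by
    intro n
    rw [h1, coeff_T_mul, add_sub_cancel_left, coeff_toLaurent_nat]
  have h3 : h.coeff N = P.coeff 0 * p.coeff 0 := by
    have := h2 0
    rwa [Nat.cast_zero, add_zero, Polynomial.mul_coeff_zero] at this
  have h4 : h.coeff (N + (P.natDegree + p.natDegree : ℕ)) = p.leadingCoeff := by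
    rw [h2, Polynomial.coeff_mul_degree_add_degree, hP.leadingCoeff, one_mul]
  have h5 : c ≤ N := by
    by_contra hc
    have := hlow N (by omega)
    rw [h3] at this
    exact mul_ne_zero hP0 hp0 this
  have h6 : N + (P.natDegree + p.natDegree : ℕ) ≤ c + d := by
    by_contra hc
    have := hhigh _ (not_le.mp hc)
    rw [h4] at this
    exact hp1 (Polynomial.leadingCoeff_eq_zero.mp this)
  rcases Nat.lt_or_ge P.natDegree d with h7 | h7
  · exact Or.inl h7
  · right
    have h8 : P.natDegree = d := by push_cast at h6; omega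
    have h9 : p.natDegree = 0 := by push_cast at h6; omega
    have h10 : N = c := by push_cast at h6; omega
    refine ⟨h8, ?_⟩
    subst h10
    rw [h9, add_zero, h8] at h4
    rw [h3, h4, Polynomial.leadingCoeff, h9] at hmid
    exact mul_right_cancel₀ hp0 hmid

theorem isCoprime_lin {x y : kˣ} (h : x ≠ y) : IsCoprime (lin x) (lin y) := by
  have h1 : (y : k) - x ≠ 0 := by
    rw [sub_ne_zero]
    intro h'
    exact h (Units.ext h'.symm)
  have h2 : IsUnit (lin x - lin y) := by
    have : lin x - lin y = PowerSeries.C (LaurentPolynomial.C ((y : k) - x)) := by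
      unfold lin
      rw [← map_sub]
      congr 1
      rw [map_sub]; ring
    rw [this]
    exact ((isUnit_iff_ne_zero.mpr h1).map (LaurentPolynomial.C : k →+* LP k)).map
      (PowerSeries.C : LP k →+* _)
  obtain ⟨u, hu⟩ := h2
  refine ⟨((u⁻¹ : (RR k)ˣ) : RR k), -((u⁻¹ : (RR k)ˣ) : RR k), ?_⟩
  have := Units.inv_mul u
  rw [hu] at this
  linear_combination this

theorem lin_eq_toLaurent (x : kˣ) :
    lin x = PowerSeries.C (Polynomial.toLaurent (Polynomial.X - Polynomial.C (x : k))) := by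
  unfold lin
  rw [map_sub (Polynomial.toLaurent : Polynomial k →+* LP k), Polynomial.toLaurent_X,
    Polynomial.toLaurent_C, uT_val]

theorem RL {ι : Type*} (s : Finset ι) (x : ι → kˣ) (hx : Set.InjOn x s) (μ : ι → ℕ) (d : ℕ)
    (c : ℤ) (C₀ : kˣ) (h : RR k) (hq : QP d c (C₀ : k) h) (hd : ∀ i ∈ s, lin (x i) ^ μ i ∣ h)
    (hdeg : d < ∑ i ∈ s, μ i ∨ (d = ∑ i ∈ s, μ i ∧ ∏ i ∈ s, (-(x i)) ^ μ i ≠ C₀)) :
    h = 0 := by
  classical
  by_contra h0
  -- remove the power of q
  obtain ⟨N, h', hh', hN⟩ : ∃ (N : ℕ) (h' : RR k), h = PowerSeries.X ^ N * h' ∧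
      PowerSeries.constantCoeff h' ≠ 0 := by
    refine ⟨h.order.toNat, PowerSeries.divXPowOrder h, PowerSeries.X_pow_order_mul_divXPowOrder.symm, ?_⟩
    intro h1
    exact h0 (PowerSeries.constantCoeff_divXPowOrder_eq_zero_iff.mp h1)
  have hq' : QP d c (C₀ : k) h' := QP.of_X_pow_mul N (hh' ▸ hq)
  have hd' : ∀ i ∈ s, lin (x i) ^ μ i ∣ h' := by
    intro i hi
    have h1 := hd i hi
    rw [hh'] at h1
    refine Prime.pow_dvd_of_dvd_mul_left (lin_prime (x i)) _ ?_ h1
    intro h2
    have h3 := (lin_prime (x i)).dvd_of_dvd_pow h2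
    rw [← EV_eq_zero_iff] at h3
    have h4 : EV (x i) (PowerSeries.X : RR k) = PowerSeries.X := by
      unfold EV; rw [PowerSeries.map_X]
    rw [h4] at h3
    exact PowerSeries.X_ne_zero h3
  have hprod : (∏ i ∈ s, lin (x i) ^ μ i) ∣ h' := by
    apply Finset.prod_dvd_of_coprime _ hd'
    intro i hi j hj hij
    exact (isCoprime_lin (fun h => hij (hx hi hj h))).pow
  obtain ⟨g, hg⟩ := hprod
  set P : Polynomial k := ∏ i ∈ s, (Polynomial.X - Polynomial.C ((x i : kˣ) : k)) ^ μ i with hP
  have hPm : P.Monic := Polynomial.monic_prod_of_monic _ _ fun i _ =>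
    (Polynomial.monic_X_sub_C _).pow _
  have hPd : P.natDegree = ∑ i ∈ s, μ i := by
    rw [hP, Polynomial.natDegree_prod_of_monic _ _ fun i _ => (Polynomial.monic_X_sub_C _).pow _]
    apply Finset.sum_congr rfl
    intro i _
    rw [Polynomial.natDegree_pow, Polynomial.natDegree_X_sub_C, mul_one]
  have hP0 : P.coeff 0 = ((∏ i ∈ s, (-(x i)) ^ μ i : kˣ) : k) := by
    rw [Polynomial.coeff_zero_eq_eval_zero, hP, Polynomial.eval_prod, Units.coe_prod]
    apply Finset.prod_congr rfl
    intro i _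
    rw [Polynomial.eval_pow, Polynomial.eval_sub, Polynomial.eval_X, Polynomial.eval_C, zero_sub,
      Units.val_pow_eq_pow_val, Units.val_neg]
  have hg' : PowerSeries.constantCoeff h' = Polynomial.toLaurent P * PowerSeries.constantCoeff g := by
    have := congrArg (PowerSeries.constantCoeff) hg
    rw [map_mul, map_prod] at this
    rw [this, hP, map_prod]
    congr 1
    apply Finset.prod_congr rfl
    intro i _
    rw [map_pow, lin_eq_toLaurent, PowerSeries.constantCoeff_C, map_pow]
  have hg0 : PowerSeries.constantCoeff g ≠ 0 := by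
    intro h1
    rw [h1, mul_zero] at hg'
    exact hN hg'
  have key := RL_aux P hPm (by rw [hP0]; exact Units.ne_zero _) (PowerSeries.constantCoeff g)
    (PowerSeries.constantCoeff h') hg0 hg' c d (C₀ : k)
    (fun m hm => by rw [← cf_zero_eq]; exact hq'.low hm)
    (fun m hm => by rw [← cf_zero_eq]; exact hq'.high hm)
    (by rw [← cf_zero_eq, ← cf_zero_eq]; exact hq'.mid)
  rw [hPd, hP0] at key
  rcases hdeg with h1 | ⟨h1, h2⟩
  · omega
  · rcases key with h3 | ⟨h3, h4⟩
    · omega
    · exact h2 (Units.ext h4)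

end Pool.Agent.H957R2.SE
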