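import Pool.Agent.H957R2.SE.HZero

/-! Module N1: the choice of the parameter. -/

noncomputable section

open PowerSeries

namespace Pool.Agent.H957R2.SE

variable {k : Type*} [Field k]

/-- a nonzero Laurent polynomial has finitely many roots among the units -/
theorem roots_finite (l : LP k) (hl : l ≠ 0) :
    {u : kˣ | LaurentPolynomial.eval₂ (RingHom.id k) u l = 0}.Finite := by
  classical
  obtain ⟨n, f, hf⟩ := LaurentPolynomial.exists_T_pow l
  have hf0 : f ≠ 0 := by
    rintro rfl
    rw [map_zero] at hf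
    exact hl ((mul_eq_zero.mp hf.symm).resolve_right (LaurentPolynomial.isUnit_T _).ne_zero)
  have h1 : {u : kˣ | LaurentPolynomial.eval₂ (RingHom.id k) u l = 0} ⊆
      (fun u : kˣ => (u : k)) ⁻¹' (f.roots.toFinset : Set k) := by
    intro u hu
    have hu' : LaurentPolynomial.eval₂ (RingHom.id k) u l = 0 := hu
    rw [Set.mem_preimage, Finset.mem_coe, Multiset.mem_toFinset, Polynomial.mem_roots hf0]
    have := congrArg (LaurentPolynomial.eval₂ (RingHom.id k) u) hf
    rw [map_mul, hu', zero_mul, LaurentPolynomial.eval₂_toLaurent] at this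
    rw [Polynomial.IsRoot.def, Polynomial.eval, ← this]
  exact (Set.Finite.preimage Units.val_injective.injOn (Finset.finite_toSet _)).subset h1

/-- N1 -/
theorem exists_xi (y : kˣ) (hy : ∀ i : ℤ, i ≠ 0 → y ^ i ≠ 1) (l : LP k) (hl : l ≠ 0) :
    ∃ ξ : kˣ, (∀ i : ℤ, i ≠ 0 → ξ ^ i ≠ 1) ∧
      ∀ j ∈ Finset.range 10, LaurentPolynomial.eval₂ (RingHom.id k) (ξ ^ ee j) l ≠ 0 := by
  classical
  have hyinj : ∀ a b : ℤ, y ^ a = y ^ b → a = b := by
    intro a b hab
    by_contra hne
    apply hy (a - b) (by omega)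
    rw [zpow_sub, hab]; group
  have hee : ∀ j ∈ Finset.range 10, ee j ≠ 0 := by
    decide
  have hbad : ∀ j ∈ Finset.range 10,
      {N : ℕ | LaurentPolynomial.eval₂ (RingHom.id k) ((y ^ (N : ℤ)) ^ ee j) l = 0}.Finite := by
    intro j hj
    have hinj : Function.Injective (fun N : ℕ => (y ^ (N : ℤ)) ^ ee j) := by
      intro a b hab
      simp only [← zpow_mul] at hab
      have h1 := hyinj _ _ hab
      have h2 := mul_right_cancel₀ (hee j hj) h1
      exact_mod_cast h2
    exact Set.Finite.preimage hinj.injOn (roots_finite l hl)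
  have hfin : (⋃ j ∈ Finset.range 10,
      {N : ℕ | LaurentPolynomial.eval₂ (RingHom.id k) ((y ^ (N : ℤ)) ^ ee j) l = 0}).Finite :=
    Set.Finite.biUnion (Finset.finite_toSet _) hbad
  obtain ⟨N, hN⟩ := (hfin.union (Set.finite_singleton 0)).infinite_compl.nonempty
  rw [Set.mem_compl_iff, Set.mem_union, not_or] at hN
  refine ⟨y ^ (N : ℤ), ?_, ?_⟩
  · intro i hi
    rw [← zpow_mul]
    apply hy
    apply mul_ne_zero _ hi
    intro h
    exact hN.2 (by exact_mod_cast h)
  · intro j hj h
    apply hN.1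
    exact Set.mem_biUnion (show j ∈ (Finset.range 10 : Set ℕ) from hj) h

end Pool.Agent.H957R2.SE
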