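import Pool.Agent.H957R2.SE.Fibre
import Pool.Agent.H957R2.SE.Xi
import Pool.Agent.H957R2.SE.Descent

noncomputable section

open PowerSeries

namespace Pool.Agent.H957R2.SE

variable {k : Type*} [Field k]

/-! ### quasi-periodicity of `HH` -/

theorem prod_pts (ξ : kˣ) : ∏ j ∈ Finset.Icc (1 : ℕ) 9, (-(((ξ ^ (j : ℤ) : kˣ)) : k))
    = -((ξ ^ (45 : ℤ) : kˣ) : k) := by
  have h : ∀ j : ℕ, -(((ξ ^ (j : ℤ) : kˣ)) : k) = -((ξ : k) ^ j) := by
    intro j; rw [zpow_natCast, Units.val_pow_eq_pow_val]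
  simp only [h]
  rw [show (45 : ℤ) = ((45 : ℕ) : ℤ) from rfl, h]
  rw [show Finset.Icc 1 9 = Finset.Ico 1 10 from rfl, Finset.prod_Ico_eq_prod_range]
  simp only [Finset.prod_range_succ, Finset.prod_range_zero, Nat.reduceSub]
  ring

theorem QP_QQ (ξ : kˣ) : QP 9 0 (-((ξ ^ (45 : ℤ) : kˣ) : k)) (QQ ξ) := by
  unfold QQ
  have := QP.prod (Finset.Icc (1 : ℕ) 9) (d := fun _ => 1) (c := fun _ => 0)
    (C₀ := fun j => -(((ξ ^ (j : ℤ) : kˣ)) : k)) (f := fun j => theta (ξ ^ (j : ℤ)))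
    (fun j _ => theta_QP _)
  refine this.congr ?_ ?_ ?_
  · simp
  · simp
  · exact prod_pts ξ

theorem QP_AA (c : kˣ) : QP 1 0 (LaurentPolynomial.C (-(c : k))) (AA c) := by
  unfold AA
  have := (QP_zU (theta_QP c)).mul (QP_zV (theta c))
  simpa using this

theorem QP_congr' {d c d' c' : ℤ} {B : Type*} [CommRing B] {C C' : B} {f : RR B}
    (h : QP d c C f) (hd : d = d') (hc : c = c') (hC : C = C') : QP d' c' C' f := by
  subst hd hc hC; exact h

theorem mult_id (ξ : kˣ) (n i : ℕ) (hi : i ≤ 37 * n) :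
    (LaurentPolynomial.C ((-1 : k) ^ (111 * n - 3 * i)) *
      LaurentPolynomial.T (-(3 * ((111 * n - 3 * i : ℕ) : ℤ)))) *
      (LaurentPolynomial.C (-((ξ ^ (45 : ℤ) : kˣ) : k)) * LaurentPolynomial.T (-9)) ^ i *
      (LaurentPolynomial.C (-((ξ ^ (-45 : ℤ) : kˣ) : k))) ^ i *
      (LaurentPolynomial.C (-((1 : kˣ) : k))) ^ (37 * n - i)
    = ((uC 1 * uT ^ (-(333 * n : ℤ)) : (LP k)ˣ) : LP k) := by
  have h1 : ((ξ ^ (45 : ℤ) : kˣ) : k) * ((ξ ^ (-45 : ℤ) : kˣ) : k) = 1 := by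
    rw [← Units.val_mul, ← zpow_add]; simp
  obtain ⟨e, he⟩ := Nat.exists_eq_add_of_le hi
  have e1 : 111 * n - 3 * i = 3 * e := by omega
  have e2 : 37 * n - i = e := by omega
  rw [e1, e2, mul_pow, LaurentPolynomial.T_pow, uC_one, one_mul, uT_zpow, Units.val_one]
  have h2 : (LaurentPolynomial.T (-(3 * ((3 * e : ℕ) : ℤ))) : LP k) * LaurentPolynomial.T ((i : ℤ) * -9)
      = LaurentPolynomial.T (-(333 * n : ℤ)) := by
    rw [← LaurentPolynomial.T_add]; congr 1; push_cast; omega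
  have h3 : (LaurentPolynomial.C (-((ξ ^ (45 : ℤ) : kˣ) : k)) : LP k) ^ i
      * (LaurentPolynomial.C (-((ξ ^ (-45 : ℤ) : kˣ) : k))) ^ i = 1 := by
    rw [← mul_pow, ← map_mul, neg_mul_neg, h1, map_one, one_pow]
  have h4 : (LaurentPolynomial.C ((-1 : k) ^ (3 * e)) : LP k) * (LaurentPolynomial.C (-(1 : k))) ^ e = 1 := by
    rw [← map_pow, ← map_mul, ← pow_add]
    have : (-1 : k) ^ (3 * e + e) = 1 := by
      rw [show 3 * e + e = 2 * (2 * e) by ring, pow_mul]; simp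
    rw [this, map_one]
  rw [← h2]
  generalize (LaurentPolynomial.C (-((ξ ^ (45 : ℤ) : kˣ) : k)) : LP k) = a1 at h3 ⊢
  generalize (LaurentPolynomial.C (-((ξ ^ (-45 : ℤ) : kˣ) : k)) : LP k) = a2 at h3 ⊢
  generalize (LaurentPolynomial.C ((-1 : k) ^ (3 * e)) : LP k) = a3 at h4 ⊢
  generalize (LaurentPolynomial.C (-(1 : k)) : LP k) = a4 at h4 ⊢
  generalize (LaurentPolynomial.T (-(3 * ((3 * e : ℕ) : ℤ))) : LP k) = t1
  generalize (LaurentPolynomial.T ((i : ℤ) * -9) : LP k) = t2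
  linear_combination (t1 * t2 * a3 * a4 ^ e) * h3 + t1 * t2 * h4

theorem QP_HH (a ξ : kˣ) (n w : ℕ) (hw : w ≤ 37 * n) (lc qc : PowerSeries k)
    (G : ℕ → MvPolynomial (Fin 3) (PowerSeries k))
    (hG1 : ∀ i ≤ w, (G i).IsHomogeneous (111 * n - 3 * i)) :
    QP (370 * n) 0 ((uC 1 * uT ^ (-(333 * n : ℤ)) : (LP k)ˣ) : LP k)
      (HH a (ξ ^ (-45 : ℤ)) (37 * n) (111 * n) w lc qc (QQ ξ) G) := by
  unfold HH
  apply QP.sum
  intro i hi
  rw [Finset.mem_range] at hi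
  have h1 := QP_zUV (QP.KK (lc ^ i * qc ^ (111 * n - i)))
  have h2 := h1.mul (QP_zUV (QP_evE a _ (G i) (hG1 i (by omega))))
  have h3 := h2.mul ((QP_zUV (QP_QQ ξ)).pow i)
  have h4 := h3.mul ((QP_AA (ξ ^ (-45 : ℤ))).pow i)
  have h5 := h4.mul ((QP_AA (1 : kˣ)).pow (37 * n - i))
  refine QP_congr' h5 ?_ ?_ ?_
  · push_cast [Nat.cast_sub (show 3 * i ≤ 111 * n by omega), Nat.cast_sub (show i ≤ 37 * n by omega)]
    ring
  · ring
  · rw [← mult_id ξ n i (by omega), map_one, neg_zero, LaurentPolynomial.T_zero, one_mul, one_mul]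

theorem Sw_AA (c : kˣ) : Sw (AA c) = AA c := by
  unfold AA; rw [map_mul, Sw_zU, Sw_zV, mul_comm]

theorem Sw_HH (a c : kˣ) (N D w : ℕ) (lc qc : PowerSeries k) (Qf : RR k)
    (G : ℕ → MvPolynomial (Fin 3) (PowerSeries k)) :
    Sw (HH a c N D w lc qc Qf G) = HH a c N D w lc qc Qf G := by
  unfold HH
  rw [map_sum]
  apply Finset.sum_congr rfl
  intro i _
  rw [map_mul, map_mul, map_mul, map_mul, map_pow, map_pow, map_pow, Sw_AA, Sw_AA, Sw_zUV, Sw_zUV,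
    K2_apply, Sw_zUV]

/-! ### orders of `HH` -/

theorem lin_dvd_theta (x : kˣ) : lin x ∣ theta x := by
  obtain ⟨u, hu⟩ := theta_lin x
  exact ⟨u, hu⟩

theorem lin_dvd_QQ (ξ : kˣ) (j : ℕ) (hj : j ∈ Finset.Icc (1 : ℕ) 9) : lin (ξ ^ (j : ℤ)) ∣ QQ ξ :=
  (lin_dvd_theta _).trans (Finset.dvd_prod_of_mem (fun j : ℕ => theta (ξ ^ (j : ℤ))) hj)

theorem HH_fibre (a c : kˣ) (N D w m : ℕ) (lc qc : PowerSeries k) (Qf : RR k)
    (G : ℕ → MvPolynomial (Fin 3) (PowerSeries k)) (x : kˣ) (hQ : lin x ∣ Qf)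
    (hG : ∀ i ≤ w, lin x ^ (m - i) ∣ evE a (G i)) :
    zUV (lin x) ^ m ∣ HH a c N D w lc qc Qf G := by
  unfold HH
  apply Finset.dvd_sum
  intro i hi
  rw [Finset.mem_range] at hi
  apply Dvd.dvd.mul_right
  apply Dvd.dvd.mul_right
  rw [mul_assoc]
  apply Dvd.dvd.mul_left
  rw [← map_pow, ← map_pow, ← map_mul]
  apply map_dvd
  have h1 : lin x ^ ((m - i) + i) ∣ evE a (G i) * Qf ^ i := by
    rw [pow_add]
    exact mul_dvd_mul (hG i (by omega)) (pow_dvd_pow_of_dvd hQ i)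
  exact (pow_dvd_pow _ (by omega)).trans h1

theorem HH_order (a c : kˣ) (N D w m : ℕ) (hwN : w ≤ N) (lc qc : PowerSeries k)
    (Qf : RR k) (G : ℕ → MvPolynomial (Fin 3) (PowerSeries k)) (x : kˣ) (hQ : lin x ∣ Qf)
    (hG : ∀ i ≤ w, lin x ^ (m - i) ∣ evE a (G i)) :
    ep ^ N ∣ BT x (HH a c N D w lc qc Qf G) := by
  unfold HH
  rw [map_sum]
  apply Finset.dvd_sum
  intro i hi
  rw [Finset.mem_range] at hi
  have h0 : ep ∣ BT x (AA (1 : kˣ)) := by
    unfold AA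
    rw [map_mul]
    exact Dvd.dvd.mul_right ((ep_dvd_BT_zU x _).mpr (lin_dvd_theta 1)) _
  have h1 : lin x ^ ((m - i) + i) ∣ evE a (G i) * Qf ^ i := by
    rw [pow_add]
    exact mul_dvd_mul (hG i (by omega)) (pow_dvd_pow_of_dvd hQ i)
  have h2 : ep ^ ((m - i) + i) ∣ BT x (zUV (evE a (G i) * Qf ^ i)) := by
    have h3 : ep ∣ BT x (zUV (lin x)) := (ep_dvd_BT_zUV x _).mpr dvd_rfl
    have h4 : BT x (zUV (lin x)) ^ ((m - i) + i) ∣ BT x (zUV (evE a (G i) * Qf ^ i)) := by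
      rw [← map_pow, ← map_pow]
      exact map_dvd _ (map_dvd _ h1)
    exact (pow_dvd_pow_of_dvd h3 _).trans h4
  have h5 : BT x (K2 (lc ^ i * qc ^ (D - i)) * zUV (evE a (G i)) * zUV Qf ^ i * AA c ^ i * AA 1 ^ (N - i))
      = BT x (zUV (evE a (G i) * Qf ^ i)) * BT x (AA 1) ^ (N - i)
        * (BT x (K2 (lc ^ i * qc ^ (D - i))) * BT x (AA c) ^ i) := by
    rw [map_mul, map_mul, map_mul, map_mul, map_mul zUV, map_mul (BT x) (zUV (evE a (G i))),
      map_pow, map_pow, map_pow, map_pow, map_pow]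
    ring
  rw [h5]
  apply Dvd.dvd.mul_right
  have h6 : ep ^ (((m - i) + i) + (N - i)) ∣ BT x (zUV (evE a (G i) * Qf ^ i)) * BT x (AA 1) ^ (N - i) := by
    rw [pow_add]
    exact mul_dvd_mul h2 (pow_dvd_pow_of_dvd h0 _)
  exact (pow_dvd_pow _ (by omega)).trans h6

theorem HH_order_c (a c : kˣ) (N D w : ℕ) (hwN : w ≤ N) (lc qc : PowerSeries k)
    (Qf : RR k) (G : ℕ → MvPolynomial (Fin 3) (PowerSeries k)) :
    ep ^ N ∣ BT c (HH a c N D w lc qc Qf G) := by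
  unfold HH
  rw [map_sum]
  apply Finset.dvd_sum
  intro i hi
  rw [Finset.mem_range] at hi
  have h0 : ep ∣ BT c (AA (1 : kˣ)) := by
    unfold AA
    rw [map_mul]
    exact Dvd.dvd.mul_right ((ep_dvd_BT_zU c _).mpr (lin_dvd_theta 1)) _
  have h1 : ep ∣ BT c (AA c) := by
    unfold AA
    rw [map_mul]
    exact Dvd.dvd.mul_left ((ep_dvd_BT_zV c _).mpr (lin_dvd_theta c)) _
  rw [mul_assoc, map_mul]
  apply Dvd.dvd.mul_left
  rw [map_mul, map_pow, map_pow]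
  have h6 : ep ^ (i + (N - i)) ∣ BT c (AA c) ^ i * BT c (AA 1) ^ (N - i) := by
    rw [pow_add]
    exact mul_dvd_mul (pow_dvd_pow_of_dvd h1 _) (pow_dvd_pow_of_dvd h0 _)
  exact (pow_dvd_pow _ (by omega)).trans h6

/-! ### non-vanishing of `HH` -/

theorem EV_one_AA (c : kˣ) : EV (1 : (LP k)ˣ) (AA c) = Th (uC c)⁻¹ * theta c := by
  unfold AA
  rw [map_mul, EV_uU, EV_zV, zs_theta, one_mul]
  rfl

theorem HH_eq_zero (a c : kˣ) (hc : c ≠ 1) (N D w : ℕ) (hwN : w ≤ N) (lc qc : PowerSeries k)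
    (hlc : lc ≠ 0) (hqc : qc ≠ 0) (Qf : RR k) (hQf : Qf ≠ 0)
    (G : ℕ → MvPolynomial (Fin 3) (PowerSeries k)) (h : HH a c N D w lc qc Qf G = 0) :
    ∀ i ≤ w, evE a (G i) = 0 := by
  have hAAc : EV (1 : (LP k)ˣ) (AA c) ≠ 0 := by
    rw [EV_one_AA]
    apply mul_ne_zero
    · intro h
      have h2 := congrArg (PowerSeries.constantCoeff) h
      rw [constantCoeff_Th, map_zero, sub_eq_zero, ← uC_inv, uC_val] at h2
      apply hc
      have h3 := congrArg (fun p : LP k => p.coeff 0) h2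
      have h4 : (1 : LP k).coeff 0 = 1 := by
        rw [← LaurentPolynomial.T_zero, LaurentPolynomial.T_apply]; simp
      simp only [h4, LaurentPolynomial.C_apply, if_true] at h3
      have h5 : c⁻¹ = 1 := Units.ext h3.symm
      exact inv_eq_one.mp h5
    · intro h
      exact theta_not_X_dvd c (h ▸ dvd_zero _)
  have hAA1 : EV (1 : (LP k)ˣ) (AA 1) = 0 := by
    rw [EV_one_AA, uC_one, inv_one, Th_one, zero_mul]
  have hAA1' : (AA (1 : kˣ) : RR2 k) ≠ 0 := by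
    intro h
    apply AA_ne_zero (k := k) c
    rw [h, map_zero]
  -- descending induction
  by_contra hcon
  push Not at hcon
  obtain ⟨i, hi, hi0⟩ := hcon
  classical
  let S : Finset ℕ := (Finset.range (w + 1)).filter fun i => evE a (G i) ≠ 0
  have hS : S.Nonempty := ⟨i, by simp only [S, Finset.mem_filter, Finset.mem_range]; exact ⟨by omega, hi0⟩⟩
  set i₀ := S.max' hS with hi₀
  have hmem := S.max'_mem hS
  simp only [S, Finset.mem_filter, Finset.mem_range] at hmem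
  rw [← hi₀] at hmem
  have hgt : ∀ i, i₀ < i → i < w + 1 → evE a (G i) = 0 := by
    intro i h1 h2
    by_contra h3
    have h4 : i ∈ S := by simp only [S, Finset.mem_filter, Finset.mem_range]; exact ⟨h2, h3⟩
    have := S.le_max' i h4
    omega
  have h1 : HH a c N D w lc qc Qf G = AA 1 ^ (N - i₀) * ∑ i ∈ Finset.range (i₀ + 1),
      K2 (lc ^ i * qc ^ (D - i)) * zUV (evE a (G i)) * zUV Qf ^ i * AA c ^ i * AA 1 ^ (i₀ - i) := by
    unfold HH
    rw [Finset.mul_sum]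
    rw [← Finset.sum_subset (Finset.range_mono (show i₀ + 1 ≤ w + 1 by omega))]
    · apply Finset.sum_congr rfl
      intro i hi
      rw [Finset.mem_range] at hi
      have : (AA (1 : kˣ) : RR2 k) ^ (N - i) = AA 1 ^ (N - i₀) * AA 1 ^ (i₀ - i) := by
        rw [← pow_add]; congr 1; omega
      rw [this]; ring
    · intro i h1 h2
      rw [Finset.mem_range] at h1 h2
      rw [hgt i (by omega) h1, map_zero]; ring
  rw [h1] at h
  have h2 := (mul_eq_zero.mp h).resolve_left (pow_ne_zero _ hAA1')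
  have h3 := congrArg (EV (1 : (LP k)ˣ)) h2
  rw [map_sum, map_zero, Finset.sum_range_succ, Finset.sum_eq_zero, zero_add] at h3
  · rw [Nat.sub_self, pow_zero, mul_one, map_mul, map_mul, map_mul, map_pow, map_pow, K2_apply,
      EV_one_zUV, EV_one_zUV, EV_one_zUV] at h3
    have h4 : (KK (lc ^ i₀ * qc ^ (D - i₀)) : RR k) ≠ 0 := by
      intro h
      exact mul_ne_zero (pow_ne_zero _ hlc) (pow_ne_zero _ hqc) (KK_inj h)
    exact mul_ne_zero (mul_ne_zero (mul_ne_zero h4 hmem.2) (pow_ne_zero _ hQf))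
      (pow_ne_zero _ hAAc) h3
  · intro i hi
    rw [Finset.mem_range] at hi
    rw [map_mul, map_pow, hAA1, zero_pow (by omega), mul_zero]

end Pool.Agent.H957R2.SE
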