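import Pool.Agent.H957R2.SE.Ker

noncomputable section

open PowerSeries

namespace Pool.Agent.H957R2.SE

theorem tri_finite (j : ℤ) : {m : ℤ | m * (m - 1) = 2 * j}.Finite := by
  refine (Set.finite_Icc (-(2 * j + 1)) (2 * j + 1)).subset ?_
  intro m hm
  simp only [Set.mem_ofPred_eq] at hm
  simp only [Set.mem_Icc]
  constructor
  · by_contra h
    push Not at h
    have h1 : 0 ≤ m * (m - 1) := by
      rcases le_or_gt m 0 with h0 | h0
      · nlinarith
      · nlinarith
    nlinarith
  · by_contra h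
    push Not at h
    have h1 : 0 ≤ m * (m - 1) := by
      rcases le_or_gt m 0 with h0 | h0
      · nlinarith
      · nlinarith
    nlinarith

section

variable {S S' : Type*} [CommRing S] [CommRing S']

theorem Th_supp (u : Sˣ) (j : ℤ) : (Function.support fun m : ℤ =>
    if m * (m - 1) = 2 * j then (((-u) ^ m : Sˣ) : S) else 0).Finite := by
  refine (tri_finite j).subset ?_
  intro m hm
  rw [Function.mem_support] at hm
  simp only [Set.mem_ofPred_eq]
  by_contra h
  exact hm (if_neg h)

theorem coeff_Th (u : Sˣ) (j : ℕ) : PowerSeries.coeff j (Th u)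
    = ∑ᶠ m : ℤ, if m * (m - 1) = 2 * (j : ℤ) then (((-u) ^ m : Sˣ) : S) else 0 := by
  unfold Th; rw [PowerSeries.coeff_mk]

theorem Th_map (φ : S →+* S') (u : Sˣ) :
    PowerSeries.map φ (Th u) = Th (Units.map φ.toMonoidHom u) := by
  ext j
  rw [PowerSeries.coeff_map, coeff_Th, coeff_Th]
  have := AddMonoidHom.map_finsum φ.toAddMonoidHom (Th_supp u j)
  rw [show φ (∑ᶠ m : ℤ, if m * (m - 1) = 2 * (j : ℤ) then (((-u) ^ m : Sˣ) : S) else 0)
    = φ.toAddMonoidHom (∑ᶠ m : ℤ, if m * (m - 1) = 2 * (j : ℤ) then (((-u) ^ m : Sˣ) : S) else 0)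
      from rfl, this]
  apply finsum_congr
  intro m
  by_cases h : m * (m - 1) = 2 * (j : ℤ)
  · rw [if_pos h, if_pos h]
    show φ (((-u) ^ m : Sˣ) : S) = _
    have h1 : (-(Units.map φ.toMonoidHom u)) = Units.map φ.toMonoidHom (-u) := by
      ext; simp
    rw [h1, ← map_zpow]
    rfl
  · rw [if_neg h, if_neg h]
    exact map_zero φ

theorem Th_inv (u : Sˣ) : Th u⁻¹ = - PowerSeries.C ((u⁻¹ : Sˣ) : S) * Th u := by
  ext j
  rw [neg_mul, map_neg, PowerSeries.coeff_C_mul, coeff_Th, coeff_Th, mul_finsum' _ _ (Th_supp u j),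
    ← finsum_neg_distrib, ← finsum_comp_equiv (Equiv.subLeft (1 : ℤ))]
  apply finsum_congr
  intro m
  rw [Equiv.subLeft_apply]
  have hc : (1 - m) * (1 - m - 1) = 2 * (j : ℤ) ↔ m * (m - 1) = 2 * (j : ℤ) := by
    constructor <;> intro h <;> linear_combination h
  by_cases h : m * (m - 1) = 2 * (j : ℤ)
  · rw [if_pos h, if_pos (hc.mpr h)]
    have : (-u⁻¹) ^ (1 - m) = (-u)⁻¹ * (-u) ^ m := by
      rw [← inv_neg, inv_zpow', zpow_neg, zpow_sub, zpow_one]; group
    rw [this, inv_neg]
    push_cast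
    ring
  · rw [if_neg h, if_neg (fun h' => h (hc.mp h'))]
    simp

theorem Th_one : Th (1 : Sˣ) = 0 := by
  have h1 : Th (1 : ℤˣ) = 0 := by
    have := Th_inv (1 : ℤˣ)
    rw [inv_one] at this
    simp only [Units.val_one, map_one, neg_mul, one_mul] at this
    have h2 : (2 : PowerSeries ℤ) * Th (1 : ℤˣ) = 0 := by linear_combination this
    rcases mul_eq_zero.mp h2 with h | h
    · exfalso
      have := congrArg (PowerSeries.constantCoeff) h
      rw [map_ofNat, map_zero] at this
      norm_num at this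
    · exact h
  have h2 := Th_map (Int.castRingHom S) (1 : ℤˣ)
  rw [h1, map_zero, map_one] at h2
  exact h2.symm

theorem constantCoeff_Th (u : Sˣ) : PowerSeries.constantCoeff (Th u) = 1 - (u : S) := by
  rw [← PowerSeries.coeff_zero_eq_constantCoeff_apply, coeff_Th]
  rw [finsum_eq_sum_of_support_subset (s := {0, 1})]
  · rw [Finset.sum_pair (by norm_num)]
    simp [sub_eq_add_neg]
  · intro m hm
    rw [Function.mem_support] at hm
    have : m * (m - 1) = 2 * ((0 : ℕ) : ℤ) := by
      by_contra h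
      exact hm (if_neg h)
    simp only [Nat.cast_zero, mul_zero, mul_eq_zero, sub_eq_zero] at this
    simpa using this

end

section

variable {B : Type*} [CommRing B] {S : Type*} [CommRing S]

theorem zs_theta (i : B →+* S) (u : Sˣ) (x : Bˣ) :
    zs i u (theta x) = Th (u * (Units.map i.toMonoidHom x)⁻¹) := by
  unfold zs theta
  rw [Th_map]
  congr 1
  rw [map_mul, map_inv]
  congr 1
  · ext
    show LaurentPolynomial.eval₂ i u (LaurentPolynomial.T 1) = u
    rw [LaurentPolynomial.eval₂_T]; simp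
  · congr 1
    ext
    show LaurentPolynomial.eval₂ i u (LaurentPolynomial.C (x : B)) = i x
    rw [LaurentPolynomial.eval₂_C]

theorem EV_theta (y x : Bˣ) : EV y (theta x) = Th (y * x⁻¹) := by
  have := zs_theta (RingHom.id B) y x
  unfold zs at this
  unfold EV
  rw [this]
  congr 2

theorem constantCoeff_theta (x : Bˣ) : PowerSeries.constantCoeff (theta x)
    = 1 - LaurentPolynomial.T 1 * LaurentPolynomial.C ((x⁻¹ : Bˣ) : B) := by
  unfold theta
  rw [constantCoeff_Th, Units.val_mul, ← uC_inv]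
  rfl

theorem cf_theta (x : Bˣ) (m j : ℤ) :
    cf (theta x) m j = if m * (m - 1) = 2 * j then (((-x) ^ (-m) : Bˣ) : B) else 0 := by
  by_cases hj : 0 ≤ j
  · obtain ⟨j, rfl⟩ := Int.eq_ofNat_of_zero_le hj
    rw [cf_nat]
    unfold theta
    rw [coeff_Th]
    let co : LP B →+ B :=
      { toFun := fun p => p.coeff m, map_zero' := rfl, map_add' := fun _ _ => rfl }
    have h0 : ∀ p : LP B, p.coeff m = co p := fun _ => rfl
    rw [h0, AddMonoidHom.map_finsum co (Th_supp _ _)]
    rw [finsum_eq_single _ m]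
    · by_cases h : m * (m - 1) = 2 * (j : ℤ)
      · rw [if_pos h, if_pos h]
        have h1 : ((-(uT * (uC x)⁻¹)) ^ m : (LP B)ˣ) = uT ^ m * uC ((-x) ^ (-m)) := by
          have : (-(uT * (uC x)⁻¹) : (LP B)ˣ) = uT * uC (-x)⁻¹ := by
            rw [← uC_inv, inv_neg]
            ext : 1
            simp only [Units.val_neg, Units.val_mul, uC_val, map_neg, mul_neg]
          rw [this, mul_zpow, uC_zpow, inv_zpow']
        rw [← h0, h1, Units.val_mul, uT_zpow, uC_val, mul_comm,
          ← LaurentPolynomial.single_eq_C_mul_T]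
        rw [AddMonoidAlgebra.coeff_single, Finsupp.single_eq_same]
      · rw [if_neg h, if_neg h, map_zero]
    · intro a ha
      by_cases h : a * (a - 1) = 2 * (j : ℤ)
      · rw [if_pos h]
        have h1 : ((-(uT * (uC x)⁻¹)) ^ a : (LP B)ˣ) = uT ^ a * uC ((-x) ^ (-a)) := by
          have : (-(uT * (uC x)⁻¹) : (LP B)ˣ) = uT * uC (-x)⁻¹ := by
            rw [← uC_inv, inv_neg]
            ext : 1
            simp only [Units.val_neg, Units.val_mul, uC_val, map_neg, mul_neg]
          rw [this, mul_zpow, uC_zpow, inv_zpow']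
        rw [← h0, h1, Units.val_mul, uT_zpow, uC_val, mul_comm,
          ← LaurentPolynomial.single_eq_C_mul_T]
        rw [AddMonoidAlgebra.coeff_single, Finsupp.single_eq_of_ne (Ne.symm ha)]
      · rw [if_neg h, map_zero]
  · rw [cf_of_neg _ _ (not_le.mp hj), if_neg]
    intro h
    have h1 : 0 ≤ m * (m - 1) := by
      rcases le_or_gt m 0 with h0 | h0
      · nlinarith
      · nlinarith
    omega

theorem theta_QP (x : Bˣ) : QP 1 0 (-(x : B)) (theta x) := by
  intro m j
  rw [cf_theta, cf_theta, sub_zero]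
  have hc : m * (m - 1) = 2 * (j - m) ↔ (m + 1) * (m + 1 - 1) = 2 * j := by
    constructor <;> intro h <;> linear_combination h
  by_cases h : m * (m - 1) = 2 * (j - m)
  · rw [if_pos h, if_pos (hc.mp h)]
    have : (-(x : B)) = ((-x : Bˣ) : B) := by simp
    rw [this, ← Units.val_mul]
    congr 1
    group
  · rw [if_neg h, if_neg (fun h' => h (hc.mpr h')), mul_zero]

theorem theta_lin [IsDomain B] (x : Bˣ) : ∃ u : (RR B)ˣ, theta x = lin x * u := by
  have h0 : lin x ∣ theta x := by
    rw [← EV_eq_zero_iff, EV_theta, mul_inv_cancel, Th_one]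
  obtain ⟨g, hg⟩ := h0
  have h1 := congrArg (PowerSeries.constantCoeff) hg
  rw [map_mul, constantCoeff_theta] at h1
  unfold lin at h1
  rw [PowerSeries.constantCoeff_C, uT_val] at h1
  have h2 : ((LaurentPolynomial.T 1 : LP B) - LaurentPolynomial.C (x : B)) *
      (PowerSeries.constantCoeff g + LaurentPolynomial.C ((x⁻¹ : Bˣ) : B)) = 0 := by
    rw [mul_add, ← h1]
    have h3 : (LaurentPolynomial.C (x : B) : LP B) * LaurentPolynomial.C ((x⁻¹ : Bˣ) : B) = 1 := by
      rw [← map_mul, Units.mul_inv, map_one]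
    linear_combination -h3
  have h3 : ((LaurentPolynomial.T 1 : LP B) - LaurentPolynomial.C (x : B)) ≠ 0 := by
    intro h
    apply lin_ne_zero x
    unfold lin
    rw [uT_val, h, map_zero]
  have h4 : PowerSeries.constantCoeff g = - LaurentPolynomial.C ((x⁻¹ : Bˣ) : B) := by
    have := (mul_eq_zero.mp h2).resolve_left h3
    linear_combination this
  have h5 : IsUnit g := by
    rw [PowerSeries.isUnit_iff_constantCoeff, h4]
    exact ((x⁻¹).isUnit.map (LaurentPolynomial.C : B →+* LP B)).neg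
  exact ⟨h5.unit, by rw [hg]; rfl⟩

end

end Pool.Agent.H957R2.SE
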